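import Pool.Agent.H82.SR.Conv

set_option autoImplicit false

/-!
# Limits of powers, axes
-/

namespace Pool.Agent.H82.SR

open Filter Topology

variable {N : ℕ}

/-- `ξ` is the limit `g^∞` of the sequence `g, g², g³, …`. -/
def Attr (g : F N) (ξ : Boundary N) : Prop := ConvergesTo (fun n => g ^ n) ξ

lemma Attr.unique {g : F N} {ξ η : Boundary N} (h : Attr g ξ) (h' : Attr g η) : ξ = η :=
  ConvergesTo.unique h h'

lemma Attr.map {g : F N} {ξ : Boundary N} (h : Attr g ξ) (θ : F N ≃* F N) :
    Attr (θ g) (bdMap θ ξ) := by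
  have := ConvergesTo.map h θ
  simpa only [Attr, map_pow] using this

lemma Attr.smul_self {g : F N} {ξ : Boundary N} (h : Attr g ξ) : g • ξ = ξ := by
  have h1 := ConvergesTo.mul_left h g
  have h2 := ConvergesTo.comp_tendsto h (tendsto_add_atTop_nat 1)
  simp only [← pow_succ'] at h1
  exact h1.unique h2

lemma Attr.conj {g : F N} {ξ : Boundary N} (h : Attr g ξ) (x : F N) :
    Attr (x * g * x⁻¹) (x • ξ) := by
  have := (ConvergesTo.mul_left h x).mul_right x⁻¹
  simpa only [Attr, conj_pow] using this

lemma Attr.pow_smul {g : F N} {ξ : Boundary N} (h : Attr g ξ) (n : ℕ) : g ^ n • ξ = ξ := by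
  induction n with
  | zero => simp
  | succ n ih => rw [pow_succ, mul_smul, h.smul_self, ih]

lemma Attr.inv_smul_self {g : F N} {ξ : Boundary N} (h : Attr g ξ) : g⁻¹ • ξ = ξ := by
  rw [inv_smul_eq_iff, h.smul_self]

lemma Attr.smul_self' {g : F N} {ξ : Boundary N} (h : Attr g⁻¹ ξ) : g • ξ = ξ := by
  have := h.inv_smul_self
  rwa [inv_inv] at this

lemma zpow_smul_of_smul {G X : Type*} [Group G] [MulAction G X] {g : G} {x : X} (h : g • x = x)
    (n : ℤ) : g ^ n • x = x := by
  have : g ∈ MulAction.stabilizer G x := h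
  exact Subgroup.zpow_mem _ this n

section Cyc

/-- cyclically reduced in terms of `bar` -/
lemma isCyclicallyReduced_iff {k : List (Fin N × Bool)} :
    FreeGroup.IsCyclicallyReduced k ↔
      FreeGroup.IsReduced k ∧ ∀ a ∈ k.getLast?, ∀ b ∈ k.head?, b ≠ bar a := by
  unfold FreeGroup.IsCyclicallyReduced
  simp only [rel_iff]

/-- The periodic infinite word `k k k …`. -/
def per (k : List (Fin N × Bool)) (hk : FreeGroup.IsCyclicallyReduced k) (hne : k ≠ []) :
    Boundary N :=
  ⟨fun n => k[n % k.length]'(Nat.mod_lt _ (List.length_pos_iff.2 hne)), by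
    intro n
    have hL : 0 < k.length := List.length_pos_iff.2 hne
    rw [isCyclicallyReduced_iff] at hk
    obtain ⟨h1, h2⟩ := hk
    by_cases h : n % k.length + 1 < k.length
    · have e : (n + 1) % k.length = n % k.length + 1 := by
        rw [Nat.add_mod, Nat.mod_eq_of_lt (a := n % k.length + 1 % k.length)]
        · rw [Nat.mod_eq_of_lt (a := 1)]; omega
        · rw [Nat.mod_eq_of_lt (a := 1)] <;> omega
      rw [isReduced_iff, List.isChain_iff_getElem] at h1
      have := h1 (n % k.length) h
      simp only [e]
      exact this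
    · have h3 : n % k.length < k.length := Nat.mod_lt _ hL
      have h4 : n % k.length = k.length - 1 := by omega
      have e : (n + 1) % k.length = 0 := by
        have h5 : n = k.length * (n / k.length) + n % k.length := (Nat.div_add_mod n _).symm
        have h6 : n + 1 = k.length * (n / k.length + 1) := by
          rw [mul_add, mul_one]; omega
        rw [h6]; exact Nat.mul_mod_right _ _
      simp only [e, h4]
      apply h2
      · rw [List.getLast?_eq_getElem?, List.getElem?_eq_getElem (by omega)]; simp
      · rw [List.head?_eq_getElem?, List.getElem?_eq_getElem (by omega)]; simp⟩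

lemma per_letter (k : List (Fin N × Bool)) (hk : FreeGroup.IsCyclicallyReduced k) (hne : k ≠ [])
    (n : ℕ) : (per k hk hne).letter n =
      k[n % k.length]'(Nat.mod_lt _ (List.length_pos_iff.2 hne)) := rfl

lemma per_take_length (k : List (Fin N × Bool)) (hk : FreeGroup.IsCyclicallyReduced k)
    (hne : k ≠ []) : (per k hk hne).take k.length = k := by
  apply List.ext_getElem
  · simp
  · intro i h1 h2
    rw [Boundary.take_getElem, per_letter]
    congr 1
    exact Nat.mod_eq_of_lt h2

lemma per_drop_length (k : List (Fin N × Bool)) (hk : FreeGroup.IsCyclicallyReduced k)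
    (hne : k ≠ []) : (per k hk hne).drop k.length = per k hk hne := by
  apply Boundary.ext
  intro n
  rw [Boundary.drop_letter, per_letter, per_letter]
  congr 1
  simp

lemma flatten_replicate_getElem? (k : List (Fin N × Bool)) (n i : ℕ)
    (hi : i < n * k.length) : ((List.replicate n k).flatten)[i]? = k[i % k.length]? := by
  induction n generalizing i with
  | zero => simp at hi
  | succ n ih =>
    rw [List.replicate_succ, List.flatten_cons]
    by_cases h : i < k.length
    · rw [List.getElem?_append_left h, Nat.mod_eq_of_lt h]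
    · rw [List.getElem?_append_right (by omega), ih (i - k.length) (by
        rw [Nat.add_mul, one_mul] at hi; omega)]
      have : i = (i - k.length) + k.length := by omega
      conv_rhs => rw [this]
      rw [Nat.add_mod_right]

lemma toWord_mk_pow {k : List (Fin N × Bool)} (hk : FreeGroup.IsCyclicallyReduced k) (n : ℕ) :
    ((FreeGroup.mk k : F N) ^ n).toWord = (List.replicate n k).flatten := by
  rw [FreeGroup.pow_mk]
  exact toWord_mk_of_reduced (hk.flatten_replicate n).isReduced

lemma norm_mk_pow {k : List (Fin N × Bool)} (hk : FreeGroup.IsCyclicallyReduced k) (n : ℕ) :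
    ((FreeGroup.mk k : F N) ^ n).norm = n * k.length := by
  rw [FreeGroup.norm, toWord_mk_pow hk]
  simp

lemma attr_per (k : List (Fin N × Bool)) (hk : FreeGroup.IsCyclicallyReduced k)
    (hne : k ≠ []) : Attr (FreeGroup.mk k) (per k hk hne) := by
  intro j
  filter_upwards [eventually_ge_atTop j] with n hn
  have hL : 0 < k.length := List.length_pos_iff.2 hne
  rw [toWord_mk_pow hk]
  apply List.ext_getElem?
  intro i
  by_cases hi : i < j
  · have hi2 : i < n * k.length := lt_of_lt_of_le (lt_of_lt_of_le hi hn) (Nat.le_mul_of_pos_right n hL)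
    rw [List.getElem?_take_of_lt hi, flatten_replicate_getElem? k n i hi2,
      Boundary.take_getElem? _ _ _ hi, per_letter, List.getElem?_eq_getElem]
  · rw [List.getElem?_eq_none, List.getElem?_eq_none]
    · rw [Boundary.take_length]; omega
    · rw [List.length_take]; omega

lemma invRev_cyc {k : List (Fin N × Bool)} (hk : FreeGroup.IsCyclicallyReduced k) :
    FreeGroup.IsCyclicallyReduced (FreeGroup.invRev k) := by
  rw [isCyclicallyReduced_iff] at hk ⊢
  obtain ⟨h1, h2⟩ := hk
  constructor
  · have : ((FreeGroup.mk k : F N)⁻¹).toWord = FreeGroup.invRev k := by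
      rw [FreeGroup.toWord_inv, toWord_mk_of_reduced h1]
    rw [← this]; exact toWord_reduced _
  · intro a ha b hb
    have e1 : FreeGroup.invRev k = (k.map bar).reverse := rfl
    rw [e1] at ha hb
    simp only [List.getLast?_reverse, List.head?_map, Option.mem_def, Option.map_eq_some_iff,
      List.head?_reverse, List.getLast?_map] at ha hb
    obtain ⟨a', ha', rfl⟩ := ha
    obtain ⟨b', hb', rfl⟩ := hb
    rw [bar_bar]
    intro h
    have := h2 b' hb' a' ha'
    exact this h.symm

lemma invRev_ne {k : List (Fin N × Bool)} (hne : k ≠ []) : FreeGroup.invRev k ≠ [] := by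
  intro h
  apply hne
  have := congrArg List.length h
  rw [FreeGroup.invRev_length] at this
  exact List.length_eq_zero_iff.1 (by simpa using this)

lemma per_invRev_letter_zero_ne (k : List (Fin N × Bool)) (hk : FreeGroup.IsCyclicallyReduced k)
    (hne : k ≠ []) : (per (FreeGroup.invRev k) (invRev_cyc hk) (invRev_ne hne)).letter 0 ≠
      (per k hk hne).letter 0 := by
  rw [per_letter, per_letter]
  have hL : 0 < k.length := List.length_pos_iff.2 hne
  have hk' := hk
  rw [isCyclicallyReduced_iff] at hk'
  have e1 : FreeGroup.invRev k = (k.map bar).reverse := rfl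
  have h1 : (FreeGroup.invRev k)[0 % (FreeGroup.invRev k).length]'(Nat.mod_lt _
      (List.length_pos_iff.2 (invRev_ne hne))) = bar (k[k.length - 1]) := by
    simp [e1]
  rw [h1]
  have h2 := hk'.2 (k[k.length - 1]) (by
    rw [List.getLast?_eq_getElem?, List.getElem?_eq_getElem (by omega)]; simp) (k[0]) (by
    rw [List.head?_eq_getElem?, List.getElem?_eq_getElem (by omega)]; simp)
  simp only [Nat.zero_mod]
  exact h2.symm

/-- Every non-trivial element is conjugate to a cyclically reduced word. -/
lemma exists_cyc (g : F N) (hg : g ≠ 1) : ∃ (h : F N) (k : List (Fin N × Bool)),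
    FreeGroup.IsCyclicallyReduced k ∧ k ≠ [] ∧ g = h * FreeGroup.mk k * h⁻¹ := by
  refine ⟨FreeGroup.mk (FreeGroup.reduceCyclically.conjugator g.toWord),
    FreeGroup.reduceCyclically g.toWord,
    FreeGroup.reduceCyclically.isCyclicallyReduced (toWord_reduced g), ?_, ?_⟩
  · intro h
    apply hg
    have := FreeGroup.reduceCyclically.conj_conjugator_reduceCyclically g.toWord
    rw [h] at this
    rw [← FreeGroup.mk_toWord (x := g), ← this, List.append_nil, ← FreeGroup.mul_mk,
      ← FreeGroup.inv_mk, mul_inv_cancel]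
  · have := FreeGroup.reduceCyclically.conj_conjugator_reduceCyclically g.toWord
    conv_lhs => rw [← FreeGroup.mk_toWord (x := g), ← this]
    simp only [← FreeGroup.mul_mk, ← FreeGroup.inv_mk]

lemma exists_attr (g : F N) (hg : g ≠ 1) : ∃ ξ, Attr g ξ := by
  obtain ⟨h, k, hk, hne, rfl⟩ := exists_cyc g hg
  exact ⟨h • per k hk hne, (attr_per k hk hne).conj h⟩

lemma attr_ne {g : F N} (hg : g ≠ 1) {ξ η : Boundary N} (h1 : Attr g⁻¹ ξ) (h2 : Attr g η) :
    ξ ≠ η := by
  obtain ⟨h, k, hk, hne, rfl⟩ := exists_cyc g hg
  have h3 : Attr (h * FreeGroup.mk k * h⁻¹) (h • per k hk hne) := (attr_per k hk hne).conj h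
  have h4 : Attr (h * FreeGroup.mk k * h⁻¹)⁻¹
      (h • per (FreeGroup.invRev k) (invRev_cyc hk) (invRev_ne hne)) := by
    have := (attr_per (FreeGroup.invRev k) (invRev_cyc hk) (invRev_ne hne)).conj h
    rw [← FreeGroup.inv_mk] at this
    have e : (h * FreeGroup.mk k * h⁻¹)⁻¹ = h * (FreeGroup.mk k)⁻¹ * h⁻¹ := by group
    rw [e]; exact this
  rw [h1.unique h4, h2.unique h3]
  intro he
  have := smul_left_cancel h he
  exact per_invRev_letter_zero_ne k hk hne (by rw [this])

end Cyc

end Pool.Agent.H82.SR
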