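import Pool.Agent.H82.SR.BoundaryDefs

set_option autoImplicit false

/-!
# The Gromov boundary of a free group, as the space of infinite reduced words
-/

namespace Pool.Agent.H82.SR

open Filter Topology

variable {N : ℕ}

@[simp] lemma bar_fst (x : Fin N × Bool) : (bar x).1 = x.1 := rfl

@[simp] lemma bar_snd (x : Fin N × Bool) : (bar x).2 = !x.2 := rfl

lemma bar_ne (x : Fin N × Bool) : bar x ≠ x := by
  intro h
  have := congrArg Prod.snd h
  simp at this

lemma ne_bar (x : Fin N × Bool) : x ≠ bar x := (bar_ne x).symm

lemma bar_injective : Function.Injective (bar : Fin N × Bool → Fin N × Bool) := by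
  intro x y h
  rw [← bar_bar x, h, bar_bar]

lemma bar_eq_iff {x y : Fin N × Bool} : bar x = y ↔ x = bar y := by
  constructor
  · rintro rfl; simp
  · rintro rfl; simp

/-- The relation used in Mathlib's `FreeGroup.IsReduced`, in terms of `bar`. -/
lemma rel_iff {a b : Fin N × Bool} : (a.1 = b.1 → a.2 = b.2) ↔ b ≠ bar a := by
  constructor
  · rintro h rfl
    have := h rfl
    simp at this
  · intro h h1
    by_contra h2
    apply h
    apply Prod.ext
    · exact h1.symm
    · simp only [bar_snd]
      revert h2
      cases a.2 <;> cases b.2 <;> simp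

/-- Reduced word in terms of `bar`. -/
lemma isReduced_iff {l : List (Fin N × Bool)} :
    FreeGroup.IsReduced l ↔ l.IsChain (fun a b => b ≠ bar a) := by
  unfold FreeGroup.IsReduced
  constructor
  · intro h; exact h.imp (fun a b h => rel_iff.1 h)
  · intro h; exact h.imp (fun a b h => rel_iff.2 h)

namespace Boundary

lemma ext {ξ η : Boundary N} (h : ∀ n, ξ.letter n = η.letter n) : ξ = η :=
  Subtype.ext (funext h)

lemma letter_succ_ne (ξ : Boundary N) (n : ℕ) : ξ.letter (n + 1) ≠ bar (ξ.letter n) := ξ.2 n

@[simp] lemma tail_letter (ξ : Boundary N) (n : ℕ) : ξ.tail.letter n = ξ.letter (n + 1) := rfl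

@[simp] lemma cons_letter_zero (x : Fin N × Bool) (ξ : Boundary N) (h : ξ.letter 0 ≠ bar x) :
    (cons x ξ h).letter 0 = x := rfl

@[simp] lemma cons_letter_succ (x : Fin N × Bool) (ξ : Boundary N) (h : ξ.letter 0 ≠ bar x)
    (n : ℕ) : (cons x ξ h).letter (n + 1) = ξ.letter n := rfl

@[simp] lemma tail_cons (x : Fin N × Bool) (ξ : Boundary N) (h : ξ.letter 0 ≠ bar x) :
    (cons x ξ h).tail = ξ := rfl

lemma cons_tail (ξ : Boundary N) (h) : cons (ξ.letter 0) ξ.tail h = ξ := by
  apply ext
  intro n
  cases n <;> rfl

lemma letterMul_of_eq {x : Fin N × Bool} {ξ : Boundary N} (h : ξ.letter 0 = bar x) :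
    letterMul x ξ = ξ.tail := by
  simp [letterMul, h]

lemma letterMul_of_ne {x : Fin N × Bool} {ξ : Boundary N} (h : ξ.letter 0 ≠ bar x) :
    letterMul x ξ = cons x ξ h := by
  simp [letterMul, h]

lemma smul_def (g : FreeGroup (Fin N)) (ξ : Boundary N) : g • ξ = actHom N g ξ := rfl

lemma letter_smul (x : Fin N × Bool) (ξ : Boundary N) :
    (FreeGroup.mk [x]) • ξ = letterMul x ξ := by
  rw [smul_def, actHom, FreeGroup.lift_mk]
  obtain ⟨i, b⟩ := x
  cases b
  · simp only [List.map_cons, List.map_nil, List.prod_singleton, cond_false]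
    rfl
  · simp only [List.map_cons, List.map_nil, List.prod_singleton, cond_true]
    rfl

/-- The infinite word without its first `k` letters. -/
def drop (ξ : Boundary N) (k : ℕ) : Boundary N := ⟨fun n => ξ.1 (k + n), fun n => ξ.2 (k + n)⟩

@[simp] lemma drop_letter (ξ : Boundary N) (k n : ℕ) :
    (ξ.drop k).letter n = ξ.letter (k + n) := rfl

@[simp] lemma take_length (ξ : Boundary N) (k : ℕ) : (ξ.take k).length = k := by
  simp [take]

@[simp] lemma take_zero (ξ : Boundary N) : ξ.take 0 = [] := rfl

lemma take_getElem (ξ : Boundary N) (k i : ℕ) (h : i < (ξ.take k).length) :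
    (ξ.take k)[i] = ξ.letter i := by
  simp [take]

lemma take_getElem? (ξ : Boundary N) (k i : ℕ) (h : i < k) :
    (ξ.take k)[i]? = some (ξ.letter i) := by
  rw [List.getElem?_eq_getElem (by simpa using h), take_getElem]

lemma take_succ (ξ : Boundary N) (k : ℕ) : ξ.take (k + 1) = ξ.take k ++ [ξ.letter k] := by
  simp [take, List.range_succ]

lemma take_succ' (ξ : Boundary N) (k : ℕ) : ξ.take (k + 1) = ξ.letter 0 :: ξ.tail.take k := by
  apply List.ext_getElem
  · simp
  · intro i h1 h2
    rw [take_getElem]
    cases i with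
    | zero => simp
    | succ i => simp [take_getElem]

lemma take_add (ξ : Boundary N) (k m : ℕ) : ξ.take (k + m) = ξ.take k ++ (ξ.drop k).take m := by
  induction m with
  | zero => simp
  | succ m ih => rw [← add_assoc, take_succ, ih, take_succ]; simp

lemma take_take (ξ : Boundary N) {j k : ℕ} (h : j ≤ k) : (ξ.take k).take j = ξ.take j := by
  apply List.ext_getElem
  · simp [h]
  · intro i h1 h2
    simp [take_getElem]

lemma take_reduced (ξ : Boundary N) (k : ℕ) : FreeGroup.IsReduced (ξ.take k) := by
  rw [isReduced_iff, List.isChain_iff_getElem]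
  intro i hi
  simp only [take_getElem]
  exact ξ.letter_succ_ne i

lemma take_inj {ξ η : Boundary N} (h : ∀ k, ξ.take k = η.take k) : ξ = η := by
  apply ext
  intro n
  have h1 := h (n + 1)
  rw [take_succ, take_succ] at h1
  have := List.append_inj_right h1 (by simp)
  simpa using this

lemma take_eq_iff {ξ η : Boundary N} {k : ℕ} :
    ξ.take k = η.take k ↔ ∀ i < k, ξ.letter i = η.letter i := by
  constructor
  · intro h i hi
    have := take_getElem? ξ k i hi
    rw [h, take_getElem? η k i hi] at this
    exact (Option.some.inj this).symm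
  · intro h
    apply List.ext_getElem
    · simp
    · intro i h1 h2
      simp only [take_getElem]
      exact h i (by simpa using h1)

/-- `mk l • ξ = l ++ ξ` when this concatenation is reduced. -/
lemma smul_eq_of_append (l : List (Fin N × Bool)) (ξ ζ : Boundary N)
    (h1 : ζ.take l.length = l) (h2 : ζ.drop l.length = ξ) :
    (FreeGroup.mk l) • ξ = ζ := by
  induction l generalizing ζ with
  | nil =>
    have : FreeGroup.mk ([] : List (Fin N × Bool)) = 1 := rfl
    rw [this, one_smul, ← h2]
    apply ext
    intro n
    simp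
  | cons x l ih =>
    have e : FreeGroup.mk (x :: l) = FreeGroup.mk [x] * FreeGroup.mk l := by simp
    rw [e, mul_smul]
    have h3 : ζ.letter 0 = x ∧ ζ.tail.take l.length = l := by
      rw [List.length_cons, take_succ'] at h1
      simpa using h1
    rw [ih ζ.tail h3.2 ?_]
    · rw [letter_smul]
      have h4 : ζ.tail.letter 0 ≠ bar x := by
        rw [← h3.1]; exact ζ.letter_succ_ne 0
      rw [letterMul_of_ne h4]
      apply ext
      intro n
      cases n with
      | zero => simp [h3.1]
      | succ n => simp
    · rw [← h2]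
      apply ext
      intro n
      simp only [drop_letter, tail_letter, List.length_cons]
      congr 1
      ring

lemma take_smul_drop (ξ : Boundary N) (k : ℕ) :
    (FreeGroup.mk (ξ.take k)) • (ξ.drop k) = ξ := by
  apply smul_eq_of_append
  · simp
  · simp

/-- Concatenation of a finite reduced word and an infinite one. -/
def append (l : List (Fin N × Bool)) (ξ : Boundary N) (hl : FreeGroup.IsReduced l)
    (h : ∀ x ∈ l.getLast?, ξ.letter 0 ≠ bar x) : Boundary N :=
  ⟨fun n => if hn : n < l.length then l[n] else ξ.letter (n - l.length), by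
    intro n
    rw [isReduced_iff, List.isChain_iff_getElem] at hl
    by_cases h1 : n + 1 < l.length
    · have h2 : n < l.length := by omega
      simp only [h1, h2, dif_pos]
      exact hl n h1
    · by_cases h2 : n < l.length
      · have h3 : n + 1 = l.length := by omega
        have h4 : n = l.length - 1 := by omega
        simp only [h1, h2, dif_pos, dif_neg, not_false_iff]
        have h5 : n + 1 - l.length = 0 := by omega
        rw [h5]
        apply h
        rw [List.getLast?_eq_getElem?, ← h4]
        simp [h2]
      · simp only [h1, h2, dif_neg, not_false_iff]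
        have h5 : n + 1 - l.length = (n - l.length) + 1 := by omega
        rw [h5]
        exact ξ.letter_succ_ne _⟩

lemma append_letter_lt (l : List (Fin N × Bool)) (ξ : Boundary N) (hl h) (n : ℕ)
    (hn : n < l.length) : (append l ξ hl h).letter n = l[n] := by
  simp [append, letter, hn]

lemma append_letter_ge (l : List (Fin N × Bool)) (ξ : Boundary N) (hl h) (n : ℕ)
    (hn : l.length ≤ n) : (append l ξ hl h).letter n = ξ.letter (n - l.length) := by
  have : ¬ n < l.length := by omega
  simp [append, letter, this]

lemma append_take (l : List (Fin N × Bool)) (ξ : Boundary N) (hl h) :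
    (append l ξ hl h).take l.length = l := by
  apply List.ext_getElem
  · simp
  · intro i h1 h2
    rw [take_getElem, append_letter_lt _ _ _ _ _ h2]

lemma append_drop (l : List (Fin N × Bool)) (ξ : Boundary N) (hl h) :
    (append l ξ hl h).drop l.length = ξ := by
  apply ext
  intro n
  rw [drop_letter, append_letter_ge _ _ _ _ _ (by omega)]
  congr 1
  omega

lemma mk_smul_eq_append (l : List (Fin N × Bool)) (ξ : Boundary N) (hl h) :
    (FreeGroup.mk l) • ξ = append l ξ hl h :=
  smul_eq_of_append l ξ _ (append_take l ξ hl h) (append_drop l ξ hl h)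

/-- If `l` is reduced and `ξ` does not cancel against the end of `l`, then `l • ξ` starts with
`l`. -/
lemma take_mk_smul (l : List (Fin N × Bool)) (ξ : Boundary N) (hl : FreeGroup.IsReduced l)
    (h : ∀ x ∈ l.getLast?, ξ.letter 0 ≠ bar x) :
    ((FreeGroup.mk l) • ξ).take l.length = l := by
  rw [mk_smul_eq_append l ξ hl h, append_take]

lemma letter_mk_smul (l : List (Fin N × Bool)) (ξ : Boundary N) (hl : FreeGroup.IsReduced l)
    (h : ∀ x ∈ l.getLast?, ξ.letter 0 ≠ bar x) (n : ℕ) (hn : n < l.length) :
    ((FreeGroup.mk l) • ξ).letter n = l[n] := by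
  rw [mk_smul_eq_append l ξ hl h, append_letter_lt _ _ _ _ _ hn]

lemma drop_mk_smul (l : List (Fin N × Bool)) (ξ : Boundary N) (hl : FreeGroup.IsReduced l)
    (h : ∀ x ∈ l.getLast?, ξ.letter 0 ≠ bar x) :
    ((FreeGroup.mk l) • ξ).drop l.length = ξ := by
  rw [mk_smul_eq_append l ξ hl h, append_drop]

end Boundary

end Pool.Agent.H82.SR
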