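import Mathlib

set_option autoImplicit false

/-!
# The Gromov boundary of a free group, as the space of infinite reduced words (definitions)
-/

namespace Pool.Agent.H82.SR

open Filter Topology

variable {N : ℕ}

/-- The inverse of a letter. A letter is a pair (generator, sign); `(i, true)` is the `i`-th
generator and `(i, false)` is its inverse, as in the reduced words of Mathlib's free group. -/
def bar (x : Fin N × Bool) : Fin N × Bool := (x.1, !x.2)

@[simp] lemma bar_bar (x : Fin N × Bool) : bar (bar x) = x := by
  simp [bar]

/-- The Gromov boundary `∂F_N` of the free group `F_N = FreeGroup (Fin N)`, as the set of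
infinite reduced words in the free basis. -/
def Boundary (N : ℕ) : Type :=
  {w : ℕ → Fin N × Bool // ∀ n, w (n + 1) ≠ bar (w n)}

/-- The topology of the boundary: the subspace topology of the product topology. -/
instance : TopologicalSpace (Boundary N) := instTopologicalSpaceSubtype

namespace Boundary

/-- The `n`-th letter of an infinite reduced word. -/
def letter (ξ : Boundary N) (n : ℕ) : Fin N × Bool := ξ.1 n

/-- The infinite word without its first letter. -/
def tail (ξ : Boundary N) : Boundary N := ⟨fun n => ξ.1 (n + 1), fun n => ξ.2 (n + 1)⟩

/-- Put a letter in front of an infinite reduced word which does not start with its inverse. -/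
def cons (x : Fin N × Bool) (ξ : Boundary N) (h : ξ.letter 0 ≠ bar x) : Boundary N :=
  ⟨fun n => Nat.casesOn n x ξ.1, fun n => by
    cases n with
    | zero => exact h
    | succ n => exact ξ.2 n⟩

/-- Left multiplication of an infinite reduced word by a letter: put the letter in front, and
cancel if the word starts with the inverse letter. -/
def letterMul (x : Fin N × Bool) (ξ : Boundary N) : Boundary N :=
  if h : ξ.letter 0 = bar x then ξ.tail else cons x ξ h

lemma letterMul_bar (x : Fin N × Bool) (ξ : Boundary N) :
    letterMul (bar x) (letterMul x ξ) = ξ := by
  unfold letterMul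
  by_cases h : ξ.letter 0 = bar x
  · rw [dif_pos h]
    have h2 : ξ.tail.letter 0 ≠ bar (bar x) := by
      rw [← h]; exact ξ.2 0
    rw [dif_neg h2]
    apply Subtype.ext
    funext n
    cases n with
    | zero => exact h.symm
    | succ n => rfl
  · rw [dif_neg h]
    have h2 : (cons x ξ h).letter 0 = bar (bar x) := (bar_bar x).symm
    rw [dif_pos h2]
    rfl

/-- Left multiplication by a generator, as a permutation of the boundary. -/
def genPerm (i : Fin N) : Equiv.Perm (Boundary N) where
  toFun := letterMul (i, true)
  invFun := letterMul (i, false)
  left_inv ξ := letterMul_bar (i, true) ξ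
  right_inv ξ := letterMul_bar (i, false) ξ

/-- The left action of `F_N` on its boundary, as a homomorphism to permutations. -/
def actHom (N : ℕ) : FreeGroup (Fin N) →* Equiv.Perm (Boundary N) :=
  FreeGroup.lift genPerm

/-- The left action of `F_N` on its boundary by left multiplication of infinite reduced words. -/
instance : MulAction (FreeGroup (Fin N)) (Boundary N) :=
  MulAction.compHom (Boundary N) (actHom N)

/-- The list of the first `k` letters of an infinite word. -/
def take (ξ : Boundary N) (k : ℕ) : List (Fin N × Bool) := (List.range k).map ξ.letter

end Boundary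

/-- The sequence `u` of elements of `F_N` converges to the boundary point `ξ` (in the
compactification `F_N ∪ ∂F_N`): for every `k` the first `k` letters of the reduced word of
`u n` are, for all large `n`, the first `k` letters of `ξ`. -/
def ConvergesTo (u : ℕ → FreeGroup (Fin N)) (ξ : Boundary N) : Prop :=
  ∀ k, ∀ᶠ n in atTop, (u n).toWord.take k = ξ.take k

/-- A geodesic of a tree is determined by its pair of endpoints, so the set of oriented geodesics
is the double boundary `∂²F_N`: pairs of distinct points of `∂F_N`. -/
def PairSpace (N : ℕ) : Type := {p : Boundary N × Boundary N // p.1 ≠ p.2}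

/-- `∂²F_N` has the subspace topology of the product topology. -/
instance : TopologicalSpace (PairSpace N) := instTopologicalSpaceSubtype

/-- `∂²F_N` has its Borel σ-algebra. -/
instance : MeasurableSpace (PairSpace N) := borel _

/-- The diagonal action of `F_N` on `∂²F_N`: `g (x, y) = (g x, g y)`. -/
def PairSpace.act (g : FreeGroup (Fin N)) (p : PairSpace N) : PairSpace N :=
  ⟨(g • p.1.1, g • p.1.2), fun h => p.2 (smul_left_cancel g h)⟩

/-- The flip `(x, y) ↦ (y, x)` of `∂²F_N`. -/
def PairSpace.flip (p : PairSpace N) : PairSpace N := ⟨(p.1.2, p.1.1), p.2.symm⟩

end Pool.Agent.H82.SR
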