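import Pool.Agent.H82.SR.Outer
import Pool.Agent.H82.SR.Axis

set_option autoImplicit false

/-!
# Weighted Cayley trees
-/

namespace Pool.Agent.H82.SR

variable {N : ℕ}

section Weight

/-- weight of a word -/
def wgt (ℓ : Fin N → ℝ) (l : List (Fin N × Bool)) : ℝ := (l.map (fun x => ℓ x.1)).sum

@[simp] lemma wgt_nil (ℓ : Fin N → ℝ) : wgt ℓ [] = 0 := by simp [wgt]

@[simp] lemma wgt_cons (ℓ : Fin N → ℝ) (a : Fin N × Bool) (l : List (Fin N × Bool)) :
    wgt ℓ (a :: l) = ℓ a.1 + wgt ℓ l := by simp [wgt]

@[simp] lemma wgt_append (ℓ : Fin N → ℝ) (l m : List (Fin N × Bool)) :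
    wgt ℓ (l ++ m) = wgt ℓ l + wgt ℓ m := by simp [wgt]

lemma wgt_invRev (ℓ : Fin N → ℝ) (l : List (Fin N × Bool)) : wgt ℓ (FreeGroup.invRev l) = wgt ℓ l := by
  unfold wgt FreeGroup.invRev
  rw [List.map_reverse, List.sum_reverse, List.map_map]
  rfl

lemma wgt_nonneg {ℓ : Fin N → ℝ} (hℓ : ∀ i, 0 < ℓ i) (l : List (Fin N × Bool)) : 0 ≤ wgt ℓ l := by
  unfold wgt
  apply List.sum_nonneg
  intro x hx
  rw [List.mem_map] at hx
  obtain ⟨y, _, rfl⟩ := hx
  exact (hℓ _).le

lemma wgt_flatten_replicate (ℓ : Fin N → ℝ) (k : List (Fin N × Bool)) (n : ℕ) :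
    wgt ℓ (List.replicate n k).flatten = n * wgt ℓ k := by
  induction n with
  | zero => simp
  | succ n ih =>
    rw [List.replicate_succ, List.flatten_cons, wgt_append, ih]
    push_cast; ring

/-- weight of the common beginning of two words -/
noncomputable def cp (ℓ : Fin N → ℝ) : List (Fin N × Bool) → List (Fin N × Bool) → ℝ
  | [], _ => 0
  | _ :: _, [] => 0
  | a :: l, b :: m => if a = b then ℓ a.1 + cp ℓ l m else 0

lemma cp_cons (ℓ : Fin N → ℝ) (a b : Fin N × Bool) (l m : List (Fin N × Bool)) :
    cp ℓ (a :: l) (b :: m) = if a = b then ℓ a.1 + cp ℓ l m else 0 := rfl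

lemma cp_nonneg {ℓ : Fin N → ℝ} (hℓ : ∀ i, 0 < ℓ i) (l m : List (Fin N × Bool)) :
    0 ≤ cp ℓ l m := by
  induction l generalizing m with
  | nil => simp [cp]
  | cons a l ih =>
    cases m with
    | nil => simp [cp]
    | cons b m =>
      rw [cp_cons]
      split_ifs with h
      · have := ih m
        have := hℓ a.1
        linarith
      · exact le_rfl

lemma cp_ultra {ℓ : Fin N → ℝ} (hℓ : ∀ i, 0 < ℓ i) (l m n : List (Fin N × Bool)) :
    min (cp ℓ l m) (cp ℓ m n) ≤ cp ℓ l n := by
  induction l generalizing m n with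
  | nil => simp [cp]
  | cons a l ih =>
    cases m with
    | nil =>
      have e : cp ℓ (a :: l) [] = 0 := rfl
      rw [e]
      exact (min_le_left _ _).trans (cp_nonneg hℓ _ _)
    | cons b m =>
      cases n with
      | nil =>
        have e : cp ℓ (b :: m) [] = 0 := rfl
        rw [e]
        exact (min_le_right _ _).trans (cp_nonneg hℓ _ _)
      | cons c n =>
        rw [cp_cons, cp_cons]
        by_cases h1 : a = b
        · by_cases h2 : b = c
          · subst h1; subst h2
            rw [if_pos rfl, if_pos rfl, cp_cons, if_pos rfl, min_add_add_left]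
            have := ih m n
            linarith
          · rw [if_neg h2]
            exact (min_le_right _ _).trans (cp_nonneg hℓ _ _)
        · rw [if_neg h1]
          exact (min_le_left _ _).trans (cp_nonneg hℓ _ _)

lemma wgt_inv_mul (ℓ : Fin N → ℝ) (l m : List (Fin N × Bool))
    (hl : FreeGroup.IsReduced l) (hm : FreeGroup.IsReduced m) :
    wgt ℓ ((FreeGroup.mk l : F N)⁻¹ * FreeGroup.mk m).toWord = wgt ℓ l + wgt ℓ m - 2 * cp ℓ l m := by
  induction l generalizing m with
  | nil =>
    have e : (FreeGroup.mk ([] : List (Fin N × Bool)) : F N) = 1 := rfl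
    rw [e, inv_one, one_mul, toWord_mk_of_reduced hm]
    simp [cp]
  | cons a l ih =>
    have hl' : FreeGroup.IsReduced l := by
      rw [isReduced_iff] at hl ⊢
      exact hl.tail
    cases m with
    | nil =>
      have e : (FreeGroup.mk ([] : List (Fin N × Bool)) : F N) = 1 := rfl
      rw [e, mul_one, FreeGroup.toWord_inv, wgt_invRev, toWord_mk_of_reduced hl]
      simp [cp]
    | cons b m =>
      have hm' : FreeGroup.IsReduced m := by
        rw [isReduced_iff] at hm ⊢
        exact hm.tail
      rw [cp_cons]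
      by_cases h : a = b
      · subst h
        have h6 : (FreeGroup.mk (a :: l) : F N)⁻¹ * FreeGroup.mk (a :: m) =
            (FreeGroup.mk l : F N)⁻¹ * FreeGroup.mk m := by
          have e1 : (FreeGroup.mk (a :: l) : F N) = FreeGroup.mk [a] * FreeGroup.mk l := by
            simp
          have e2 : (FreeGroup.mk (a :: m) : F N) = FreeGroup.mk [a] * FreeGroup.mk m := by
            simp
          rw [e1, e2]
          group
        rw [h6, ih m hl' hm', if_pos rfl, wgt_cons, wgt_cons]
        ring
      · rw [if_neg h, FreeGroup.inv_mk, FreeGroup.mul_mk, toWord_mk_of_reduced, wgt_append,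
          wgt_invRev]
        · ring
        · apply isReduced_invRev_append hl hm
          intro x hx hx'
          simp only [List.head?_cons, Option.some.injEq] at hx hx'
          exact h (hx.trans hx'.symm)

/-- weighted word metric -/
def wd (ℓ : Fin N → ℝ) (g h : F N) : ℝ := wgt ℓ (g⁻¹ * h).toWord

lemma wd_eq (ℓ : Fin N → ℝ) (g h : F N) :
    wd ℓ g h = wgt ℓ g.toWord + wgt ℓ h.toWord - 2 * cp ℓ g.toWord h.toWord := by
  have := wgt_inv_mul ℓ g.toWord h.toWord (toWord_reduced g) (toWord_reduced h)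
  rwa [FreeGroup.mk_toWord, FreeGroup.mk_toWord] at this

lemma wd_left (ℓ : Fin N → ℝ) (g x y : F N) : wd ℓ (g * x) (g * y) = wd ℓ x y := by
  unfold wd
  congr 2
  group

lemma wd_symm (ℓ : Fin N → ℝ) (x y : F N) : wd ℓ x y = wd ℓ y x := by
  unfold wd
  rw [← wgt_invRev, ← FreeGroup.toWord_inv]
  congr 2
  group

lemma wd_one (ℓ : Fin N → ℝ) (x : F N) : wd ℓ 1 x = wgt ℓ x.toWord := by
  unfold wd
  rw [inv_one, one_mul]

lemma treeMetric_wd {ℓ : Fin N → ℝ} (hℓ : ∀ i, 0 < ℓ i) : TreeMetric (wd ℓ) where
  self x := by unfold wd; simp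
  symm := wd_symm ℓ
  nonneg x y := wgt_nonneg hℓ _
  four x y z w := by
    -- translate `w` to the identity
    have key : ∀ x y z : F N, wd ℓ x y + wd ℓ z 1 ≤
        max (wd ℓ x z + wd ℓ y 1) (wd ℓ x 1 + wd ℓ y z) := by
      intro x y z
      have h := cp_ultra hℓ x.toWord z.toWord y.toWord
      have e1 := wd_eq ℓ x y
      have e2 := wd_eq ℓ x z
      have e3 := wd_eq ℓ z y
      rw [wd_symm ℓ z y] at e3
      have e4 : ∀ u : F N, wd ℓ u 1 = wgt ℓ u.toWord := fun u => by
        rw [wd_symm, wd_one]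
      rw [e4, e4, e4]
      rw [min_le_iff] at h
      rw [le_max_iff]
      rcases h with h | h
      · left; linarith
      · right; linarith
    have := key (w⁻¹ * x) (w⁻¹ * y) (w⁻¹ * z)
    have e : (1 : F N) = w⁻¹ * w := by group
    rw [e] at this
    simpa only [wd_left] using this

end Weight

section Action

variable {G : Type} [Group G] {d : G → G → ℝ} [hd : TreeMetric d]

/-- the action on the functions -/
noncomputable def actFun (hG : ∀ g x y, d (g * x) (g * y) = d x y) (g : G) (p : Tree d) :
    Tree d :=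
  ⟨fun u => p (g⁻¹ * u), by
    obtain ⟨f, x, y, s, h0, h1, rfl⟩ := p
    refine ⟨g * x, g * y, s, h0, by rwa [hG], ?_⟩
    funext u
    change max (d (g⁻¹ * u) x - s) (d (g⁻¹ * u) y - (d x y - s)) =
      max (d u (g * x) - s) (d u (g * y) - (d (g * x) (g * y) - s))
    rw [hG]
    have e : ∀ z, d (g⁻¹ * u) z = d u (g * z) := fun z => by
      rw [← hG g (g⁻¹ * u) z]; congr 1; group
    rw [e, e]⟩

lemma actFun_apply (hG : ∀ g x y, d (g * x) (g * y) = d x y) (g : G) (p : Tree d) (u : G) :
    actFun hG g p u = p (g⁻¹ * u) := rfl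

/-- the action on the tree -/
noncomputable def treeAct (hG : ∀ g x y, d (g * x) (g * y) = d x y) : G →* (Tree d ≃ᵢ Tree d) where
  toFun g :=
    { toFun := actFun hG g
      invFun := actFun hG g⁻¹
      left_inv := fun p => Tree.ext' (fun u => by
        rw [actFun_apply, actFun_apply]; congr 1; group)
      right_inv := fun p => Tree.ext' (fun u => by
        rw [actFun_apply, actFun_apply]; congr 1; group)
      isometry_toFun := by
        apply Isometry.of_dist_eq
        intro p q
        rw [Tree.dist_def, Tree.dist_def]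
        apply (Equiv.mulLeft g⁻¹).iSup_congr
        intro u
        rfl }
  map_one' := by
    ext p
    exact Tree.ext' (fun u => by
      change p (1⁻¹ * u) = p u
      simp)
  map_mul' g h := by
    ext p
    exact Tree.ext' (fun u => by
      change p ((g * h)⁻¹ * u) = p (h⁻¹ * (g⁻¹ * u))
      congr 1; group)

variable (hG : ∀ g x y, d (g * x) (g * y) = d x y)

lemma treeAct_apply (g : G) (p : Tree d) (u : G) : treeAct hG g p u = p (g⁻¹ * u) := rfl

lemma treeAct_vtx (g v : G) : treeAct hG g (Tree.vtx v) = Tree.vtx (g * v) := by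
  apply Tree.ext'
  intro u
  rw [treeAct_apply, Tree.vtx_apply, Tree.vtx_apply, ← hG g (g⁻¹ * u) v]
  congr 1
  group

lemma treeAct_mul (g h : G) (p : Tree d) :
    treeAct hG (g * h) p = treeAct hG g (treeAct hG h p) := by
  rw [map_mul]; rfl

lemma treeAct_one (p : Tree d) : treeAct hG 1 p = p := by
  rw [map_one]; rfl

lemma dist_pow_le (g : G) (p : Tree d) (n : ℕ) :
    dist p (treeAct hG (g ^ n) p) ≤ n * dist p (treeAct hG g p) := by
  induction n with
  | zero => rw [pow_zero, treeAct_one]; simp
  | succ n ih =>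
    have h1 := dist_triangle p (treeAct hG (g ^ n) p) (treeAct hG (g ^ (n + 1)) p)
    have h2 : dist (treeAct hG (g ^ n) p) (treeAct hG (g ^ (n + 1)) p) =
        dist p (treeAct hG g p) := by
      rw [pow_succ, treeAct_mul, (treeAct hG (g ^ n)).dist_eq]
    push_cast
    linarith

lemma le_dist_pow (g : G) (p : Tree d) (n : ℕ) :
    d 1 (g ^ n) - 2 * p 1 ≤ dist p (treeAct hG (g ^ n) p) := by
  have h1 := dist_triangle4 (Tree.vtx 1 : Tree d) p (treeAct hG (g ^ n) p)
    (treeAct hG (g ^ n) (Tree.vtx 1))
  rw [(treeAct hG (g ^ n)).dist_eq, dist_comm p (Tree.vtx 1), treeAct_vtx, mul_one,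
    Tree.dist_vtx_vtx, Tree.dist_vtx] at h1
  linarith

lemma le_dist_of_growth (g : G) (p : Tree d) (L : ℝ) (hL : ∀ n : ℕ, n * L ≤ d 1 (g ^ n)) :
    L ≤ dist p (treeAct hG g p) := by
  by_contra hcon
  push Not at hcon
  set D := dist p (treeAct hG g p) with hD
  obtain ⟨n, hn⟩ := exists_nat_gt (2 * p 1 / (L - D))
  have h1 : 0 < L - D := by linarith
  rw [div_lt_iff₀ h1] at hn
  have h2 := dist_pow_le hG g p n
  have h3 := le_dist_pow hG g p n
  have h4 := hL n
  rw [← hD] at h2
  nlinarith

end Action

section RTree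

lemma move_left {T : Type} [MetricSpace T] (hT : IsRTree T) {a a' q b : T}
    (h : dist a q + dist q b = dist a b) (h' : dist a a' < dist a q) :
    dist a' q + dist q b = dist a' b := by
  apply le_antisymm
  · have h1 := hT.four_point a b q a'
    rw [dist_comm b q] at h1
    rw [le_max_iff] at h1
    rcases h1 with h1 | h1
    · rw [dist_comm b a', dist_comm q a'] at h1; linarith
    · rw [dist_comm q a'] at h1
      have := dist_nonneg (x := a') (y := q)
      linarith
  · exact dist_triangle _ _ _

lemma move_both {T : Type} [MetricSpace T] (hT : IsRTree T) {a a' q b b' : T}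
    (h : dist a q + dist q b = dist a b) (h' : dist a a' < dist a q) (h'' : dist b b' < dist b q) :
    dist a' q + dist q b' = dist a' b' := by
  have h1 := move_left hT h h'
  have h2 : dist b q + dist q a' = dist b a' := by
    rw [dist_comm b q, dist_comm q a', dist_comm b a']; linarith
  have h3 := move_left hT h2 h''
  rw [dist_comm b' q, dist_comm q a', dist_comm b' a'] at h3
  linarith

end RTree

end Pool.Agent.H82.SR
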