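import Pool.Agent.H82.SR.Cayley

set_option autoImplicit false

/-!
# Weighted Cayley trees as points of outer space
-/

namespace Pool.Agent.H82.SR

variable {N : ℕ}

lemma le_dist_cyc {ℓ : Fin N → ℝ} (hℓ : ∀ i, 0 < ℓ i) [hd : TreeMetric (wd ℓ)] (h : F N)
    {k : List (Fin N × Bool)} (hk : FreeGroup.IsCyclicallyReduced k) (p : Tree (wd ℓ)) :
    wgt ℓ k ≤ dist p (treeAct (wd_left ℓ) (h * FreeGroup.mk k * h⁻¹) p) := by
  have h1 := le_dist_of_growth (wd_left ℓ) (FreeGroup.mk k : F N) (treeAct (wd_left ℓ) h⁻¹ p)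
    (wgt ℓ k) (by
      intro n
      rw [wd_one, toWord_mk_pow hk, wgt_flatten_replicate])
  have h2 : dist (treeAct (wd_left ℓ) h⁻¹ p) (treeAct (wd_left ℓ) (FreeGroup.mk k : F N)
      (treeAct (wd_left ℓ) h⁻¹ p)) = dist p (treeAct (wd_left ℓ) (h * FreeGroup.mk k * h⁻¹) p) := by
    rw [← (treeAct (wd_left ℓ) h).dist_eq, ← treeAct_mul, ← treeAct_mul, ← treeAct_mul,
      mul_inv_cancel, treeAct_one, mul_assoc]
  rwa [h2] at h1

lemma wgt_pos {ℓ : Fin N → ℝ} (hℓ : ∀ i, 0 < ℓ i) {k : List (Fin N × Bool)} (hne : k ≠ []) :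
    0 < wgt ℓ k := by
  cases k with
  | nil => exact absurd rfl hne
  | cons a l =>
    rw [wgt_cons]
    have := wgt_nonneg hℓ l
    have := hℓ a.1
    linarith

lemma exists_extension (hN : 2 ≤ N) {l : List (Fin N × Bool)} (hl : FreeGroup.IsReduced l) :
    ∃ z : Fin N × Bool, FreeGroup.IsCyclicallyReduced (l ++ [z]) := by
  cases l with
  | nil => exact ⟨(⟨0, by omega⟩, true), by simp⟩
  | cons a t =>
    -- avoid `bar a` and `bar (last)`
    obtain ⟨z, hz1, hz2⟩ : ∃ z : Fin N × Bool, z ≠ bar a ∧ z ≠ bar ((a :: t).getLast (by simp)) := by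
      by_contra hcon
      push Not at hcon
      have h1 : (Finset.univ : Finset (Fin N × Bool)) ⊆
          {bar a, bar ((a :: t).getLast (by simp))} := by
        intro x _
        by_cases hx : x = bar a
        · simp [hx]
        · simp [hcon x hx]
      have h2 := Finset.card_le_card h1
      have h3 : (Finset.univ : Finset (Fin N × Bool)).card = N * 2 := by
        rw [Finset.card_univ, Fintype.card_prod, Fintype.card_fin, Fintype.card_bool]
      have h4 := Finset.card_insert_le (bar a) {bar ((a :: t).getLast (by simp))}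
      rw [Finset.card_singleton] at h4
      omega
    refine ⟨z, ?_⟩
    rw [isCyclicallyReduced_iff]
    constructor
    · rw [isReduced_iff] at hl ⊢
      rw [List.isChain_append]
      refine ⟨hl, by simp, ?_⟩
      intro x hx y hy
      simp only [List.head?_cons, Option.mem_def, Option.some.injEq] at hy
      subst hy
      rw [List.getLast?_eq_some_getLast (by simp)] at hx
      simp only [Option.mem_def, Option.some.injEq] at hx
      rw [← hx]
      exact hz2
    · intro x hx y hy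
      simp only [List.getLast?_append, List.getLast?_singleton, Option.some_or,
        Option.mem_def, Option.some.injEq] at hx
      simp only [List.cons_append, List.head?_cons, Option.mem_def, Option.some.injEq] at hy
      subst hx; subst hy
      intro h
      apply hz1
      rw [h, bar_bar]

/-- The heart of minimality. -/
lemma wd_between {ℓ : Fin N → ℝ} (hℓ : ∀ i, 0 < ℓ i) {l : List (Fin N × Bool)}
    {z : Fin N × Bool} (hk : FreeGroup.IsCyclicallyReduced (l ++ [z])) (n : ℕ) :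
    wd ℓ ((FreeGroup.mk (l ++ [z]) : F N)⁻¹ ^ n) (FreeGroup.mk l) =
      n * wgt ℓ (l ++ [z]) + wgt ℓ l ∧
    wd ℓ ((FreeGroup.mk (l ++ [z]) : F N) ^ (n + 1)) (FreeGroup.mk l) =
      (n + 1) * wgt ℓ (l ++ [z]) - wgt ℓ l := by
  have hpow := (hk.flatten_replicate (n + 1)).isReduced
  constructor
  · unfold wd
    have e : ((FreeGroup.mk (l ++ [z]) : F N)⁻¹ ^ n)⁻¹ * FreeGroup.mk l =
        FreeGroup.mk ((List.replicate n (l ++ [z])).flatten ++ l) := by
      rw [inv_pow, inv_inv, FreeGroup.pow_mk, FreeGroup.mul_mk]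
    rw [e, toWord_mk_of_reduced, wgt_append, wgt_flatten_replicate]
    have e2 : (List.replicate (n + 1) (l ++ [z])).flatten =
        ((List.replicate n (l ++ [z])).flatten ++ l) ++ [z] := by
      rw [List.replicate_succ', List.flatten_append]
      simp
    rw [e2, isReduced_iff] at hpow
    rw [isReduced_iff]
    exact (List.isChain_append.1 hpow).1
  · rw [wd_symm]
    unfold wd
    have e2 : (List.replicate (n + 1) (l ++ [z])).flatten =
        l ++ ([z] ++ (List.replicate n (l ++ [z])).flatten) := by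
      rw [List.replicate_succ, List.flatten_cons]
      simp
    have e : (FreeGroup.mk l : F N)⁻¹ * (FreeGroup.mk (l ++ [z]) : F N) ^ (n + 1) =
        FreeGroup.mk ([z] ++ (List.replicate n (l ++ [z])).flatten) := by
      rw [FreeGroup.pow_mk, e2, ← FreeGroup.mul_mk, inv_mul_cancel_left]
    rw [e, toWord_mk_of_reduced, wgt_append, wgt_flatten_replicate, wgt_append]
    · ring
    · rw [e2, isReduced_iff] at hpow
      rw [isReduced_iff]
      exact (List.isChain_append.1 hpow).2.1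

lemma exists_eps {ℓ : Fin N → ℝ} (hℓ : ∀ i, 0 < ℓ i) : ∃ ε : ℝ, 0 < ε ∧ ∀ i, ε ≤ ℓ i := by
  rcases isEmpty_or_nonempty (Fin N) with h | h
  · exact ⟨1, one_pos, fun i => h.elim i⟩
  · obtain ⟨i, hi⟩ := Finite.exists_min ℓ
    exact ⟨ℓ i, hℓ i, hi⟩

lemma tree_minimal (hN : 2 ≤ N) {ℓ : Fin N → ℝ} (hℓ : ∀ i, 0 < ℓ i) [hd : TreeMetric (wd ℓ)]
    (Y : Set (Tree (wd ℓ))) (hne : Y.Nonempty)
    (hinv : ∀ g : F N, ∀ x ∈ Y, treeAct (wd_left ℓ) g x ∈ Y)
    (hconv : ∀ x ∈ Y, ∀ y ∈ Y, ∀ z, dist x z + dist z y = dist x y → z ∈ Y) : Y = Set.univ := by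
  rw [Set.eq_univ_iff_forall]
  -- first the points on segments starting at the identity
  have main : ∀ (l : List (Fin N × Bool)), FreeGroup.IsReduced l → ∀ q : Tree (wd ℓ),
      q 1 + q (FreeGroup.mk l) = wd ℓ 1 (FreeGroup.mk l) → q ∈ Y := by
    intro l hl q hq
    obtain ⟨p, hp⟩ := hne
    obtain ⟨z, hz⟩ := exists_extension hN hl
    set g : F N := FreeGroup.mk (l ++ [z]) with hg
    set L := wgt ℓ (l ++ [z]) with hL
    have hLpos : 0 < L := wgt_pos hℓ (by simp)
    have hwl : wd ℓ 1 (FreeGroup.mk l) = wgt ℓ l := by rw [wd_one, toWord_mk_of_reduced hl]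
    rw [hwl] at hq
    have hs0 := Tree.nonneg q 1
    have hs1 := Tree.nonneg q (FreeGroup.mk l)
    have hqe := Tree.eq_pt_of_add_eq q 1 (FreeGroup.mk l) (by rw [hwl]; exact hq)
    have hqval : ∀ u, q u = max (wd ℓ u 1 - q 1) (wd ℓ u (FreeGroup.mk l) - (wgt ℓ l - q 1)) := by
      intro u
      have : q u = seg (wd ℓ) 1 (FreeGroup.mk l) (q 1) u := by
        conv_lhs => rw [hqe]
        rfl
      rw [this]
      unfold seg
      rw [hwl]
    have hpow : ∀ n : ℕ, wd ℓ 1 (g ^ n) = n * L := by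
      intro n
      rw [wd_one, toWord_mk_pow hz, wgt_flatten_replicate]
    have hpow' : ∀ n : ℕ, wd ℓ (g ^ n) 1 = n * L := by
      intro n; rw [wd_symm, hpow]
    have hinvpow : ∀ n : ℕ, wd ℓ (g⁻¹ ^ n) 1 = n * L := by
      intro n
      rw [← wd_left ℓ (g ^ n), mul_one, inv_pow, mul_inv_cancel, hpow]
    obtain ⟨n, hn⟩ := exists_nat_gt ((p 1 + q 1 + 1) / L)
    rw [div_lt_iff₀ hLpos] at hn
    obtain ⟨b1, -⟩ := wd_between hℓ hz (n + 1)
    obtain ⟨-, b2⟩ := wd_between hℓ hz n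
    push_cast at b1
    have q1 : q (g⁻¹ ^ (n + 1)) = (n + 1) * L + q 1 := by
      rw [hqval, hinvpow, b1]
      push_cast
      rw [max_eq_right (by linarith)]
      ring
    have q2 : q (g ^ (n + 1)) = (n + 1) * L - q 1 := by
      rw [hqval, hpow', b2]
      push_cast
      rw [max_eq_left (by linarith)]
    have hab : wd ℓ (g⁻¹ ^ (n + 1)) (g ^ (n + 1)) = 2 * ((n + 1) * L) := by
      rw [← wd_left ℓ (g ^ (n + 1)), inv_pow, mul_inv_cancel, ← pow_add, hpow]
      push_cast; ring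
    have hbet : dist (Tree.vtx (g⁻¹ ^ (n + 1))) q + dist q (Tree.vtx (g ^ (n + 1))) =
        dist (Tree.vtx (g⁻¹ ^ (n + 1)) : Tree (wd ℓ)) (Tree.vtx (g ^ (n + 1))) := by
      rw [Tree.dist_vtx_vtx, dist_comm q, Tree.dist_vtx, Tree.dist_vtx, q1, q2, hab]
      ring
    have hclose : ∀ u : F N, dist (Tree.vtx u : Tree (wd ℓ)) (treeAct (wd_left ℓ) u p) = p 1 := by
      intro u
      have : (Tree.vtx u : Tree (wd ℓ)) = treeAct (wd_left ℓ) u (Tree.vtx 1) := by
        rw [treeAct_vtx, mul_one]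
      rw [this, (treeAct (wd_left ℓ) u).dist_eq, Tree.dist_vtx]
    have hfin := move_both Tree.isRTree hbet
      (a' := treeAct (wd_left ℓ) (g⁻¹ ^ (n + 1)) p) (b' := treeAct (wd_left ℓ) (g ^ (n + 1)) p)
      (by rw [hclose, Tree.dist_vtx, q1]; nlinarith)
      (by rw [hclose, Tree.dist_vtx, q2]; nlinarith)
    exact hconv _ (hinv _ p hp) _ (hinv _ p hp) q hfin
  intro q
  obtain ⟨x, y, s, h0, h1, hq⟩ := Tree.exists_pt q
  have h2 := main (x⁻¹ * y).toWord (toWord_reduced _) (treeAct (wd_left ℓ) x⁻¹ q) (by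
    rw [FreeGroup.mk_toWord, treeAct_apply, treeAct_apply]
    have e1 : x⁻¹⁻¹ * 1 = x := by group
    have e2 : x⁻¹⁻¹ * (x⁻¹ * y) = y := by group
    rw [e1, e2, ← wd_left ℓ x, mul_one, mul_inv_cancel_left, hq]
    change seg (wd ℓ) x y s x + seg (wd ℓ) x y s y = wd ℓ x y
    rw [Tree.seg_left x y h0, Tree.seg_right x y h1]
    ring)
  have h3 := hinv x _ h2
  rwa [← treeAct_mul, mul_inv_cancel, treeAct_one] at h3

/-- lower bound for displacements -/
lemma exists_cyc_dist {ℓ : Fin N → ℝ} (hℓ : ∀ i, 0 < ℓ i) [hd : TreeMetric (wd ℓ)] {g : F N}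
    (hg : g ≠ 1) : ∃ k : List (Fin N × Bool), k ≠ [] ∧ ∀ p : Tree (wd ℓ),
    wgt ℓ k ≤ dist p (treeAct (wd_left ℓ) g p) := by
  obtain ⟨h, k, hk, hne, rfl⟩ := exists_cyc g hg
  exact ⟨k, hne, le_dist_cyc hℓ h hk⟩

/-- The Cayley tree of `F_N` with edges of lengths `ℓ i`. -/
noncomputable def cayley (hN : 2 ≤ N) (ℓ : Fin N → ℝ) (hℓ : ∀ i, 0 < ℓ i) : OuterPoint N :=
  haveI := treeMetric_wd hℓ
  { carrier := Tree (wd ℓ)
    metric := inferInstance
    nonempty := ⟨Tree.vtx 1⟩
    isRTree := Tree.isRTree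
    act := treeAct (wd_left ℓ)
    free := by
      intro g x h
      by_contra hg
      obtain ⟨k, hne, hk⟩ := exists_cyc_dist hℓ hg
      have h1 := hk x
      rw [h, dist_self] at h1
      have := wgt_pos hℓ hne
      linarith
    discrete := by
      intro x
      obtain ⟨ε, hε, h⟩ := exists_eps hℓ
      refine ⟨ε, hε, ?_⟩
      intro g hgx
      have hg : g ≠ 1 := by
        rintro rfl
        exact hgx (treeAct_one _ x)
      obtain ⟨k, hne, hk⟩ := exists_cyc_dist hℓ hg
      refine le_trans ?_ (hk x)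
      cases k with
      | nil => exact absurd rfl hne
      | cons a l =>
        rw [wgt_cons]
        have := wgt_nonneg hℓ l
        have := h a.1
        linarith
    minimal := tree_minimal hN hℓ }

lemma cayley_length (hN : 2 ≤ N) (ℓ : Fin N → ℝ) (hℓ : ∀ i, 0 < ℓ i) (h : F N)
    {k : List (Fin N × Bool)} (hk : FreeGroup.IsCyclicallyReduced k) :
    (cayley hN ℓ hℓ).length (h * FreeGroup.mk k * h⁻¹) = wgt ℓ k := by
  haveI := treeMetric_wd hℓ
  apply le_antisymm
  · have h1 := (cayley hN ℓ hℓ).length_le (h * FreeGroup.mk k * h⁻¹) (Tree.vtx h : Tree (wd ℓ))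
    have h2 : dist (Tree.vtx h : Tree (wd ℓ)) (treeAct (wd_left ℓ) (h * FreeGroup.mk k * h⁻¹)
        (Tree.vtx h)) = wgt ℓ k := by
      rw [treeAct_vtx, Tree.dist_vtx_vtx, inv_mul_cancel_right]
      have e : wd ℓ h (h * FreeGroup.mk k) = wd ℓ 1 (FreeGroup.mk k) := by
        rw [← wd_left ℓ h 1, mul_one]
      rw [e, wd_one, toWord_mk_of_reduced hk.isReduced]
    exact h1.trans (le_of_eq h2)
  · haveI : Nonempty (cayley hN ℓ hℓ).carrier := (cayley hN ℓ hℓ).nonempty
    apply le_ciInf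
    intro x
    exact le_dist_cyc hℓ h hk x

end Pool.Agent.H82.SR
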