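import Pool.Agent.H82.SR.Words

set_option autoImplicit false

/-!
# Convergence of sequences of group elements to boundary points, and the boundary extension of
automorphisms
-/

namespace Pool.Agent.H82.SR

open Filter Topology

variable {N : ℕ}

lemma ConvergesTo.unique {u : ℕ → F N} {ξ η : Boundary N} (h : ConvergesTo u ξ)
    (h' : ConvergesTo u η) : ξ = η := by
  apply Boundary.take_inj
  intro k
  obtain ⟨n, h1, h2⟩ := ((h k).and (h' k)).exists
  rw [← h1, h2]

lemma ConvergesTo.norm_tendsto {u : ℕ → F N} {ξ : Boundary N} (h : ConvergesTo u ξ) (k : ℕ) :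
    ∀ᶠ n in atTop, k ≤ (u n).norm := by
  filter_upwards [h k] with n hn
  have := congrArg List.length hn
  simp only [List.length_take, Boundary.take_length] at this
  unfold FreeGroup.norm
  omega

lemma convergesTo_take (ξ : Boundary N) :
    ConvergesTo (fun n => FreeGroup.mk (ξ.take n)) ξ := by
  intro k
  filter_upwards [eventually_ge_atTop k] with n hn
  rw [toWord_mk_of_reduced (ξ.take_reduced n), Boundary.take_take _ hn]

lemma ConvergesTo.letter_mul {u : ℕ → F N} {ξ : Boundary N} (h : ConvergesTo u ξ)
    (x : Fin N × Bool) : ConvergesTo (fun n => FreeGroup.mk [x] * u n)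
      ((FreeGroup.mk [x] : F N) • ξ) := by
  intro k
  filter_upwards [h (k + 1)] with n hn
  rw [toWord_letter_mul, Boundary.letter_smul]
  cases hw : (u n).toWord with
  | nil => rw [hw] at hn; simp [Boundary.take_succ] at hn
  | cons y t =>
    rw [hw] at hn
    rw [Boundary.take_succ'] at hn
    simp only [List.take_succ_cons, List.cons.injEq] at hn
    obtain ⟨hy, ht⟩ := hn
    by_cases hx : y = bar x
    · rw [Boundary.letterMul_of_eq (by rw [← hy, hx])]
      simp only [List.head?_cons, hx, List.tail_cons, if_true]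
      exact ht
    · rw [Boundary.letterMul_of_ne (by rw [← hy]; exact hx)]
      simp only [List.head?_cons, Option.some.injEq, hx, if_false]
      cases k with
      | zero => simp
      | succ k =>
        rw [List.take_succ_cons, Boundary.take_succ', Boundary.cons_letter_zero,
          Boundary.tail_cons]
        congr 1
        cases k with
        | zero => simp
        | succ k =>
          rw [List.take_succ_cons, Boundary.take_succ', hy]
          congr 1
          have := congrArg (List.take k) ht
          rw [List.take_take, Boundary.take_take _ (by omega)] at this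
          rw [← this]
          congr 1
          omega

lemma ConvergesTo.mul_left {u : ℕ → F N} {ξ : Boundary N} (h : ConvergesTo u ξ)
    (g : F N) : ConvergesTo (fun n => g * u n) (g • ξ) := by
  have key : ∀ l : List (Fin N × Bool),
      ConvergesTo (fun n => FreeGroup.mk l * u n) ((FreeGroup.mk l : F N) • ξ) := by
    intro l
    induction l with
    | nil =>
      have : (FreeGroup.mk ([] : List (Fin N × Bool)) : F N) = 1 := rfl
      simp only [this, one_mul, one_smul]
      exact h
    | cons x l ih =>
      have e1 : (FreeGroup.mk (x :: l) : F N) = FreeGroup.mk [x] * FreeGroup.mk l := by simp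
      simp only [e1, mul_assoc, mul_smul]
      exact ih.letter_mul x
  have := key g.toWord
  rwa [FreeGroup.mk_toWord] at this

lemma ConvergesTo.mul_right {u : ℕ → F N} {ξ : Boundary N} (h : ConvergesTo u ξ)
    (g : F N) : ConvergesTo (fun n => u n * g) ξ := by
  intro k
  filter_upwards [h k, h.norm_tendsto (k + g.norm)] with n h1 h2
  rw [← h1]
  symm
  apply take_eq_of_norm
  rw [inv_mul_cancel_left]
  exact h2

lemma ConvergesTo.comp_tendsto {u : ℕ → F N} {ξ : Boundary N} (h : ConvergesTo u ξ)
    {φ : ℕ → ℕ} (hφ : Tendsto φ atTop atTop) : ConvergesTo (fun n => u (φ n)) ξ := by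
  intro k
  exact hφ.eventually (h k)

/-- Existence of limits. -/
lemma exists_limit (u : ℕ → F N) (h1 : ∀ k, ∃ n₀, ∀ n ≥ n₀, k ≤ (u n).norm ∧
    (u n).toWord.take k = (u n₀).toWord.take k) : ∃ ξ : Boundary N, ConvergesTo u ξ := by
  choose n₀ hn₀ using h1
  have hlen : ∀ k, ∀ n ≥ n₀ k, ((u n).toWord.take k).length = k := by
    intro k n hn
    have := (hn₀ k n hn).1
    unfold FreeGroup.norm at this
    simp only [List.length_take]
    omega
  -- the letters
  have hlt : ∀ k, k < (u (n₀ (k + 1))).toWord.length := by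
    intro k
    have := (hn₀ (k + 1) (n₀ (k + 1)) le_rfl).1
    unfold FreeGroup.norm at this
    omega
  let w : ℕ → Fin N × Bool := fun k => (u (n₀ (k + 1))).toWord[k]'(hlt k)
  have hw : ∀ k, ∀ n ≥ n₀ (k + 1), (u n).toWord[k]? = some (w k) := by
    intro k n hn
    have h2 := (hn₀ (k + 1) n hn).2
    have h3 : ((u n).toWord.take (k + 1))[k]? = ((u (n₀ (k + 1))).toWord.take (k + 1))[k]? := by
      rw [h2]
    rw [List.getElem?_take_of_lt (by omega), List.getElem?_take_of_lt (by omega)] at h3
    rw [h3, List.getElem?_eq_getElem (hlt k)]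
  have hred : ∀ k, w (k + 1) ≠ bar (w k) := by
    intro k
    let n := max (n₀ (k + 1)) (n₀ (k + 1 + 1))
    have e1 := hw k n (le_max_left _ _)
    have e2 := hw (k + 1) n (le_max_right _ _)
    have hr := toWord_reduced (u n)
    rw [isReduced_iff, List.isChain_iff_getElem] at hr
    obtain ⟨a1, a2⟩ := List.getElem?_eq_some_iff.1 e1
    obtain ⟨b1, b2⟩ := List.getElem?_eq_some_iff.1 e2
    have := hr k b1
    rw [b2, a2] at this
    exact this
  let ξ₀ : Boundary N := ⟨w, hred⟩
  have hletter : ∀ i, ξ₀.letter i = w i := fun i => rfl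
  refine ⟨ξ₀, ?_⟩
  intro k
  let M := (Finset.range (k + 1)).sup (fun j => n₀ j)
  filter_upwards [eventually_ge_atTop M] with n hn
  have hM : ∀ j, j ≤ k → n₀ j ≤ n := by
    intro j hj
    exact le_trans (Finset.le_sup (f := fun j => n₀ j) (Finset.mem_range.2 (by omega))) hn
  apply List.ext_getElem?
  intro i
  by_cases hi : i < k
  · rw [List.getElem?_take_of_lt hi, Boundary.take_getElem? _ _ _ hi, hletter]
    exact hw i n (hM (i + 1) (by omega))
  · rw [List.getElem?_eq_none, List.getElem?_eq_none]
    · rw [Boundary.take_length]; omega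
    · rw [List.length_take]; omega

section Aut

/-- Prefix stability: for an automorphism `θ` the first `k` letters of `θ(w)` only depend on a
prefix of `w`. -/
lemma take_map_prefix (θ : F N ≃* F N) {K : ℕ} (hK : 1 ≤ K) (hθ : ∀ g, (θ g).norm ≤ K * g.norm)
    (hθ' : ∀ g, g.norm ≤ K * (θ g).norm) (k : ℕ) (l : List (Fin N × Bool))
    (hl : FreeGroup.IsReduced l) (m n : ℕ) (hm : K * (k + K) ≤ m) (hmn : m ≤ n)
    (hn : n ≤ l.length) :
    (θ (FreeGroup.mk (l.take m))).toWord.take k = (θ (FreeGroup.mk (l.take n))).toWord.take k := by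
  induction n, hmn using Nat.le_induction with
  | base => rfl
  | succ n hmn ih =>
    rw [ih (by omega)]
    have hln : n < l.length := by omega
    have e1 : l.take (n + 1) = l.take n ++ [l[n]] := by
      rw [List.take_add_one, List.getElem?_eq_getElem hln]; rfl
    have hred : FreeGroup.IsReduced (l.take n) := by
      rw [isReduced_iff] at hl ⊢
      exact hl.take n
    apply take_eq_of_norm
    rw [e1, ← FreeGroup.mul_mk, map_mul, inv_mul_cancel_left]
    have h1 := hθ (FreeGroup.mk [l[n]])
    rw [norm_letter, mul_one] at h1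
    have h2 := hθ' (FreeGroup.mk (l.take n))
    rw [norm_mk_of_reduced hred, List.length_take_of_le (by omega)] at h2
    have h3 : K * (k + K) ≤ K * (θ (FreeGroup.mk (l.take n))).norm := by omega
    have h4 := Nat.le_of_mul_le_mul_left h3 (by omega)
    omega

/-- Existence of the boundary extension of an automorphism. -/
lemma exists_bdMap (θ : F N ≃* F N) (ξ : Boundary N) :
    ∃ η : Boundary N, ConvergesTo (fun n => θ (FreeGroup.mk (ξ.take n))) η := by
  obtain ⟨K, hK, hθ, hθ'⟩ := exists_lipschitz θ
  apply exists_limit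
  intro k
  refine ⟨K * (k + K), ?_⟩
  intro n hn
  constructor
  · have h2 := hθ' (FreeGroup.mk (ξ.take n))
    rw [norm_mk_of_reduced (ξ.take_reduced n), Boundary.take_length] at h2
    have h3 : K * (k + K) ≤ K * (θ (FreeGroup.mk (ξ.take n))).norm := by omega
    have h4 := Nat.le_of_mul_le_mul_left h3 (by omega)
    omega
  · have := take_map_prefix θ hK hθ hθ' k (ξ.take n) (ξ.take_reduced n) (K * (k + K)) n le_rfl hn
      (by simp)
    rw [List.take_of_length_le (l := ξ.take n) (i := n) (by simp)] at this
    rw [Boundary.take_take _ hn] at this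
    exact this.symm

/-- The boundary extension of an automorphism of `F_N`. -/
noncomputable def bdMap (θ : F N ≃* F N) (ξ : Boundary N) : Boundary N :=
  (exists_bdMap θ ξ).choose

lemma bdMap_spec (θ : F N ≃* F N) (ξ : Boundary N) :
    ConvergesTo (fun n => θ (FreeGroup.mk (ξ.take n))) (bdMap θ ξ) :=
  (exists_bdMap θ ξ).choose_spec

/-- Uniform version: prefixes of `bdMap θ ξ`. -/
lemma bdMap_take (θ : F N ≃* F N) : ∃ n₀ : ℕ → ℕ, ∀ k, ∀ ξ : Boundary N, ∀ m, n₀ k ≤ m →
    (θ (FreeGroup.mk (ξ.take m))).toWord.take k = (bdMap θ ξ).take k := by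
  obtain ⟨K, hK, hθ, hθ'⟩ := exists_lipschitz θ
  refine ⟨fun k => K * (k + K), ?_⟩
  intro k ξ m hm
  obtain ⟨n, h1, h2⟩ := ((bdMap_spec θ ξ k).and (eventually_ge_atTop m)).exists
  rw [← h1]
  have := take_map_prefix θ hK hθ hθ' k (ξ.take n) (ξ.take_reduced n) m n hm h2
    (by simp)
  rw [List.take_of_length_le (l := ξ.take n) (i := n) (by simp)] at this
  rw [Boundary.take_take _ h2] at this
  exact this

/-- Finite dependence (continuity) of the boundary map. -/
lemma bdMap_finite (θ : F N ≃* F N) (k : ℕ) : ∃ m : ℕ, ∀ ξ η : Boundary N,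
    ξ.take m = η.take m → (bdMap θ ξ).take k = (bdMap θ η).take k := by
  obtain ⟨n₀, h⟩ := bdMap_take θ
  refine ⟨n₀ k, ?_⟩
  intro ξ η he
  rw [← h k ξ (n₀ k) le_rfl, ← h k η (n₀ k) le_rfl, he]

lemma ConvergesTo.map {u : ℕ → F N} {ξ : Boundary N} (h : ConvergesTo u ξ)
    (θ : F N ≃* F N) : ConvergesTo (fun n => θ (u n)) (bdMap θ ξ) := by
  obtain ⟨K, hK, hθ, hθ'⟩ := exists_lipschitz θ
  intro k
  obtain ⟨n₀, hn₀⟩ := bdMap_take θ
  let m := max (K * (k + K)) (n₀ k)
  filter_upwards [h m] with n hn
  have hlen : m ≤ (u n).toWord.length := by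
    have := congrArg List.length hn
    simp only [List.length_take, Boundary.take_length] at this
    omega
  have h1 := take_map_prefix θ hK hθ hθ' k (u n).toWord (toWord_reduced _) m
    (u n).toWord.length (le_max_left _ _) hlen le_rfl
  rw [List.take_length, FreeGroup.mk_toWord, hn] at h1
  rw [← h1]
  exact hn₀ k ξ m (le_max_right _ _)

lemma bdMap_smul (θ : F N ≃* F N) (g : F N) (ξ : Boundary N) :
    bdMap θ (g • ξ) = θ g • bdMap θ ξ := by
  have h1 := ((convergesTo_take ξ).mul_left g).map θ
  have h2 := ((convergesTo_take ξ).map θ).mul_left (θ g)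
  simp only [map_mul] at h1
  exact h1.unique h2

lemma bdMap_bdMap (θ τ : F N ≃* F N) (ξ : Boundary N) :
    bdMap τ (bdMap θ ξ) = bdMap (θ.trans τ) ξ := by
  have h1 := ((convergesTo_take ξ).map θ).map τ
  have h2 := (convergesTo_take ξ).map (θ.trans τ)
  exact h1.unique h2

lemma bdMap_refl (ξ : Boundary N) : bdMap (MulEquiv.refl (F N)) ξ = ξ :=
  ((convergesTo_take ξ).map (MulEquiv.refl (F N))).unique (convergesTo_take ξ)

lemma bdMap_symm_bdMap (θ : F N ≃* F N) (ξ : Boundary N) : bdMap θ.symm (bdMap θ ξ) = ξ := by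
  rw [bdMap_bdMap, MulEquiv.self_trans_symm, bdMap_refl]

lemma bdMap_bdMap_symm (θ : F N ≃* F N) (ξ : Boundary N) : bdMap θ (bdMap θ.symm ξ) = ξ := by
  rw [bdMap_bdMap, MulEquiv.symm_trans_self, bdMap_refl]

/-- first letters: finite level to the boundary. -/
lemma ConvergesTo.letter_zero {u : ℕ → F N} {ξ : Boundary N} (h : ConvergesTo u ξ)
    {x : Fin N × Bool} (hx : ∃ᶠ n in atTop, SW (u n) x) : ξ.letter 0 = x := by
  obtain ⟨n, h1, h2⟩ := (hx.and_eventually (h 1)).exists
  rw [Boundary.take_succ'] at h2
  unfold SW at h1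
  cases hw : (u n).toWord with
  | nil => rw [hw] at h1; simp at h1
  | cons y t =>
    rw [hw] at h1 h2
    simp at h1 h2
    rw [← h2, h1]

lemma sw_take {ξ : Boundary N} {n : ℕ} (hn : n ≠ 0) :
    SW (FreeGroup.mk (ξ.take n)) (ξ.letter 0) := by
  unfold SW
  rw [toWord_mk_of_reduced (ξ.take_reduced n)]
  obtain ⟨m, rfl⟩ := Nat.exists_eq_succ_of_ne_zero hn
  rw [Boundary.take_succ']
  simp

/-- Transfer of `first letter` statements from finite words to the boundary. -/
lemma bdMap_letter_zero (θ : F N ≃* F N) (t : F N) {x y : Fin N × Bool}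
    (h : ∀ g : F N, SW g x → SW (t * θ g) y) (ξ : Boundary N) (hξ : ξ.letter 0 = x) :
    (t • bdMap θ ξ).letter 0 = y := by
  have h1 := ((convergesTo_take ξ).map θ).mul_left t
  apply h1.letter_zero
  apply Eventually.frequently
  filter_upwards [eventually_ne_atTop 0] with n hn
  apply h
  rw [← hξ]
  exact sw_take hn

end Aut

section Topology

lemma Boundary.continuous_letter (n : ℕ) : Continuous (fun ξ : Boundary N => ξ.letter n) :=
  (continuous_apply n).comp continuous_subtype_val

/-- A map into the boundary is continuous if its prefixes are locally constant. -/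
lemma Boundary.continuous_of_take {X : Type*} [TopologicalSpace X] (f : X → Boundary N)
    (h : ∀ k, Continuous (fun x => (f x).letter k)) : Continuous f :=
  Continuous.subtype_mk (continuous_pi h) _

lemma Boundary.isOpen_take (k : ℕ) (l : List (Fin N × Bool)) :
    IsOpen {ξ : Boundary N | ξ.take k = l} := by
  by_cases h : ∃ ξ : Boundary N, ξ.take k = l
  · obtain ⟨η, rfl⟩ := h
    have : {ξ : Boundary N | ξ.take k = η.take k} =
        ⋂ i ∈ Finset.range k, {ξ : Boundary N | ξ.letter i = η.letter i} := by
      ext ξ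
      simp only [Set.mem_ofPred_eq, Boundary.take_eq_iff, Finset.mem_range, Set.mem_iInter]
    rw [this]
    apply isOpen_biInter_finset
    intro i _
    exact (isOpen_discrete {η.letter i}).preimage (Boundary.continuous_letter i)
  · have : {ξ : Boundary N | ξ.take k = l} = ∅ := by
      ext ξ
      simp only [Set.mem_ofPred_eq, Set.mem_empty_iff_false, iff_false]
      exact fun h' => h ⟨ξ, h'⟩
    rw [this]
    exact isOpen_empty

lemma Boundary.continuous_iff_take {f : Boundary N → Boundary N}
    (h : ∀ k, ∃ m, ∀ ξ η : Boundary N, ξ.take m = η.take m → (f ξ).take k = (f η).take k) :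
    Continuous f := by
  apply Boundary.continuous_of_take
  intro k
  rw [continuous_discrete_rng]
  intro x
  rw [isOpen_iff_forall_mem_open]
  intro ξ hξ
  obtain ⟨m, hm⟩ := h (k + 1)
  refine ⟨{η | η.take m = ξ.take m}, ?_, Boundary.isOpen_take _ _, rfl⟩
  intro η hη
  have h1 := hm η ξ hη
  rw [Boundary.take_eq_iff] at h1
  have h2 := h1 k (by omega)
  simp only [Set.mem_preimage, Set.mem_singleton_iff] at hξ ⊢
  rw [h2, hξ]

lemma continuous_bdMap (θ : F N ≃* F N) : Continuous (bdMap θ) :=
  Boundary.continuous_iff_take (fun k => bdMap_finite θ k)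

/-- The boundary extension of an automorphism as a homeomorphism. -/
noncomputable def bdHomeo (θ : F N ≃* F N) : Boundary N ≃ₜ Boundary N where
  toFun := bdMap θ
  invFun := bdMap θ.symm
  left_inv := bdMap_symm_bdMap θ
  right_inv := bdMap_bdMap_symm θ
  continuous_toFun := continuous_bdMap θ
  continuous_invFun := continuous_bdMap θ.symm

lemma bdMap_conj (h : F N) (ξ : Boundary N) : bdMap (MulAut.conj h) ξ = h • ξ := by
  have h1 := (convergesTo_take ξ).map (MulAut.conj h)
  have h2 := ((convergesTo_take ξ).mul_left h).mul_right h⁻¹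
  exact h1.unique h2

instance : ContinuousConstSMul (FreeGroup (Fin N)) (Boundary N) where
  continuous_const_smul g := by
    have : (fun ξ : Boundary N => g • ξ) = bdMap (MulAut.conj g) := by
      ext ξ
      rw [bdMap_conj]
    rw [this]
    exact continuous_bdMap _

end Topology

end Pool.Agent.H82.SR
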