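import Pool.Agent.H82.SR.Currents

set_option autoImplicit false

/-!
# Counting currents are currents
-/

namespace Pool.Agent.H82.SR

open Filter Topology MeasureTheory

variable {N : ℕ}

lemma continuous_smul_pair (g : F N) : Continuous (fun p : PairSpace N => g • p) := by
  apply Continuous.subtype_mk
  exact ((continuous_const_smul g).comp (continuous_fst.comp continuous_subtype_val)).prodMk
    ((continuous_const_smul g).comp (continuous_snd.comp continuous_subtype_val))

lemma continuous_flip : Continuous (PairSpace.flip : PairSpace N → PairSpace N) := by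
  apply Continuous.subtype_mk
  exact (continuous_snd.comp continuous_subtype_val).prodMk
    (continuous_fst.comp continuous_subtype_val)

instance : ContinuousConstSMul (FreeGroup (Fin N)) (PairSpace N) where
  continuous_const_smul g := continuous_smul_pair g

lemma axisPair_line (g : F N) (hg : g ≠ 1) :
    IsLine g (axisPair g hg).1.1 (axisPair g hg).1.2 :=
  ⟨1, _, _, infty_spec g⁻¹ (inv_ne_one.2 hg), infty_spec g hg, Or.inl ⟨by rw [one_smul]; rfl, by
    rw [one_smul]; rfl⟩⟩

lemma axisPair_smul_self (g : F N) (hg : g ≠ 1) : g • axisPair g hg = axisPair g hg := by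
  apply PairSpace.ext
  · exact (infty_spec g⁻¹ (inv_ne_one.2 hg)).smul_self'
  · exact (infty_spec g hg).smul_self

lemma axisPair_zpow_smul (g : F N) (hg : g ≠ 1) (n : ℤ) :
    g ^ n • axisPair g hg = axisPair g hg :=
  zpow_smul_of_smul (axisPair_smul_self g hg) n

lemma out_smul_axisPair (g : F N) (hg : g ≠ 1) (x : F N) :
    (QuotientGroup.mk x : F N ⧸ Subgroup.zpowers g).out • axisPair g hg = x • axisPair g hg := by
  obtain ⟨⟨h, hh⟩, e⟩ := QuotientGroup.mk_out_eq_mul (Subgroup.zpowers g) x
  obtain ⟨n, rfl⟩ := Subgroup.mem_zpowers_iff.1 hh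
  rw [e, mul_smul]
  simp only
  rw [axisPair_zpow_smul]

lemma out_smul_axisPair_flip (g : F N) (hg : g ≠ 1) (x : F N) :
    (QuotientGroup.mk x : F N ⧸ Subgroup.zpowers g).out • (axisPair g hg).flip =
      x • (axisPair g hg).flip := by
  rw [← flip_smul, out_smul_axisPair, flip_smul]

/-- invariance of the counting measure -/
lemma countingMeasure_map_smul (g : F N) (hg : g ≠ 1) (x : F N) :
    (countingMeasure g hg).map (fun p => x • p) = countingMeasure g hg := by
  rw [countingMeasure_def]
  have hm : Measurable (fun p : PairSpace N => x • p) := (continuous_smul_pair x).measurable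
  rw [Measure.map_sum hm.aemeasurable]
  have e1 : (fun q : F N ⧸ Subgroup.zpowers g =>
      Measure.map (fun p : PairSpace N => x • p)
        (Measure.dirac (q.out • axisPair g hg) + Measure.dirac (q.out • (axisPair g hg).flip))) =
      (fun q : F N ⧸ Subgroup.zpowers g =>
        (Measure.dirac (q.out • axisPair g hg) +
          Measure.dirac (q.out • (axisPair g hg).flip))) ∘ (MulAction.toPerm x) := by
    funext q
    rw [Measure.map_add _ _ hm, Measure.map_dirac' hm, Measure.map_dirac' hm]
    induction q using QuotientGroup.induction_on with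
    | H y =>
      simp only [Function.comp_apply, MulAction.toPerm_apply]
      have e2 : x • (QuotientGroup.mk y : F N ⧸ Subgroup.zpowers g) = QuotientGroup.mk (x * y) :=
        rfl
      rw [e2, out_smul_axisPair, out_smul_axisPair_flip, out_smul_axisPair,
        out_smul_axisPair_flip, mul_smul, mul_smul]
  rw [e1, Measure.sum_comp_equiv]

lemma countingMeasure_map_flip (g : F N) (hg : g ≠ 1) :
    (countingMeasure g hg).map PairSpace.flip = countingMeasure g hg := by
  rw [countingMeasure_def]
  have hm : Measurable (PairSpace.flip : PairSpace N → PairSpace N) := continuous_flip.measurable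
  rw [Measure.map_sum hm.aemeasurable]
  congr 1
  funext q
  rw [Measure.map_add _ _ hm, Measure.map_dirac' hm, Measure.map_dirac' hm, flip_smul, flip_smul,
    flip_flip, add_comm]

/-- pairs whose geodesic passes through the base vertex -/
def C₁ (N : ℕ) : Set (PairSpace N) := {p | p.1.1.letter 0 ≠ p.1.2.letter 0}

lemma isClopen_C₁ : IsClopen (C₁ N) := by
  have hc : Continuous (fun p : PairSpace N => (p.1.1.letter 0, p.1.2.letter 0)) :=
    ((Boundary.continuous_letter 0).comp (continuous_fst.comp continuous_subtype_val)).prodMk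
      ((Boundary.continuous_letter 0).comp (continuous_snd.comp continuous_subtype_val))
  have : C₁ N = (fun p : PairSpace N => (p.1.1.letter 0, p.1.2.letter 0)) ⁻¹'
      {q | q.1 ≠ q.2} := rfl
  rw [this]
  exact (isClopen_discrete _).preimage hc

lemma flip_mem_C₁ {p : PairSpace N} : p.flip ∈ C₁ N ↔ p ∈ C₁ N := by
  constructor
  · intro h; exact h.symm
  · intro h; exact h.symm

/-- first letter of `v⁻¹ • ζ` when `v` is not a prefix of `ζ` -/
lemma inv_smul_letter_zero (l : List (Fin N × Bool)) (hl : FreeGroup.IsReduced l)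
    (ζ : Boundary N) (h : ζ.take l.length ≠ l) (z : Fin N × Bool) (hz : z ∈ l.getLast?) :
    ((FreeGroup.mk l : F N)⁻¹ • ζ).letter 0 = bar z := by
  induction l generalizing ζ with
  | nil => simp at hz
  | cons x l ih =>
    have e1 : (FreeGroup.mk (x :: l) : F N) = FreeGroup.mk [x] * FreeGroup.mk l := by simp
    have hl' : FreeGroup.IsReduced l := by
      rw [isReduced_iff] at hl ⊢
      exact hl.tail
    rw [e1, mul_inv_rev, mul_smul, letter_inv, Boundary.letter_smul]
    by_cases hx : ζ.letter 0 = x
    · rw [Boundary.letterMul_of_eq (by rw [bar_bar]; exact hx)]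
      have h2 : ζ.tail.take l.length ≠ l := by
        intro h3
        apply h
        rw [List.length_cons, Boundary.take_succ', hx, h3]
      have hne : l ≠ [] := by
        rintro rfl
        exact h2 (by simp)
      apply ih hl' ζ.tail h2
      rw [List.getLast?_cons] at hz
      cases hlast : l.getLast? with
      | none => exact absurd (List.getLast?_eq_none_iff.1 hlast) hne
      | some w =>
        rw [hlast] at hz
        simpa using hz
    · rw [Boundary.letterMul_of_ne (by rw [bar_bar]; exact hx)]
      cases l with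
      | nil =>
        have : (FreeGroup.mk ([] : List (Fin N × Bool)) : F N) = 1 := rfl
        rw [this, inv_one, one_smul, Boundary.cons_letter_zero]
        simp only [List.getLast?_singleton, Option.mem_def, Option.some.injEq] at hz
        rw [hz]
      | cons y l =>
        apply ih hl'
        · intro h3
          rw [List.length_cons, Boundary.take_succ', Boundary.cons_letter_zero] at h3
          have h4 : bar x = y := by
            have := congrArg List.head? h3
            simpa using this
          rw [isReduced_iff, List.isChain_cons_cons] at hl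
          exact hl.1 h4.symm
        · rw [List.getLast?_cons_cons] at hz
          exact hz

/-- The vertices on the line through `ξ` and `η`. -/
lemma vertex_of_mem {ξ η : Boundary N} (v : F N)
    (hv : (v⁻¹ • ξ).letter 0 ≠ (v⁻¹ • η).letter 0) :
    ∃ n, v = FreeGroup.mk (ξ.take n) ∨ v = FreeGroup.mk (η.take n) := by
  by_contra hcon
  push Not at hcon
  have h1 : ξ.take v.toWord.length ≠ v.toWord := by
    intro h
    apply (hcon v.toWord.length).1
    rw [h, FreeGroup.mk_toWord]
  have h2 : η.take v.toWord.length ≠ v.toWord := by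
    intro h
    apply (hcon v.toWord.length).2
    rw [h, FreeGroup.mk_toWord]
  have hne : v.toWord ≠ [] := by
    intro h
    rw [h] at h1
    simp at h1
  obtain ⟨z, hz⟩ : ∃ z, z ∈ v.toWord.getLast? := by
    cases hlast : v.toWord.getLast? with
    | none => exact absurd (List.getLast?_eq_none_iff.1 hlast) hne
    | some w => exact ⟨w, rfl⟩
  have h3 := inv_smul_letter_zero v.toWord (toWord_reduced v) ξ h1 z hz
  have h4 := inv_smul_letter_zero v.toWord (toWord_reduced v) η h2 z hz
  rw [FreeGroup.mk_toWord] at h3 h4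
  rw [h3, h4] at hv
  exact hv rfl

lemma eq_mul_of_inv_eq_mul_inv {G : Type*} [Group G] {w a b : G} (h : w⁻¹ = a * b⁻¹) :
    b = w * a := by
  have h2 : a = w⁻¹ * b := by rw [h]; group
  rw [h2]; group

section Cyc

variable (k : List (Fin N × Bool)) (hk : FreeGroup.IsCyclicallyReduced k) (hne : k ≠ [])

include hk hne in
lemma mk_ne_one : (FreeGroup.mk k : F N) ≠ 1 := by
  intro h
  apply hne
  have := toWord_mk_of_reduced hk.isReduced
  rw [h, FreeGroup.toWord_one] at this
  exact this.symm

lemma axisPair_mk (h1 : (FreeGroup.mk k : F N) ≠ 1) :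
    (axisPair (FreeGroup.mk k) h1).1.2 = per k hk hne :=
  (infty_spec _ h1).unique (attr_per k hk hne)

lemma axisPair_mk_fst (h1 : (FreeGroup.mk k : F N) ≠ 1) :
    (axisPair (FreeGroup.mk k) h1).1.1 = per (FreeGroup.invRev k) (invRev_cyc hk)
      (invRev_ne hne) := by
  have h2 := attr_per (FreeGroup.invRev k) (invRev_cyc hk) (invRev_ne hne)
  rw [← FreeGroup.inv_mk] at h2
  exact (infty_spec _ (inv_ne_one.2 h1)).unique h2

include hk hne in
lemma axisPair_mk_mem_C₁ (h1 : (FreeGroup.mk k : F N) ≠ 1) :
    axisPair (FreeGroup.mk k) h1 ∈ C₁ N := by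
  change (axisPair (FreeGroup.mk k) h1).1.1.letter 0 ≠ (axisPair (FreeGroup.mk k) h1).1.2.letter 0
  rw [axisPair_mk k hk hne, axisPair_mk_fst k hk hne]
  exact per_invRev_letter_zero_ne k hk hne

lemma mk_per_take_add (n : ℕ) : (FreeGroup.mk ((per k hk hne).take (k.length + n)) : F N) =
    FreeGroup.mk k * FreeGroup.mk ((per k hk hne).take n) := by
  rw [Boundary.take_add, per_take_length, per_drop_length, FreeGroup.mul_mk]

lemma mk_per_take_mul_add (m n : ℕ) :
    (FreeGroup.mk ((per k hk hne).take (m * k.length + n)) : F N) =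
    FreeGroup.mk k ^ m * FreeGroup.mk ((per k hk hne).take n) := by
  induction m with
  | zero => simp
  | succ m ih =>
    have : (m + 1) * k.length + n = k.length + (m * k.length + n) := by ring
    rw [this, mk_per_take_add, ih, pow_succ', mul_assoc]

/-- the coset of the `n`-th vertex -/
lemma coset_mod (n : ℕ) :
    (QuotientGroup.mk (FreeGroup.mk ((per k hk hne).take n))⁻¹ :
      F N ⧸ Subgroup.zpowers (FreeGroup.mk k : F N)) =
    QuotientGroup.mk (FreeGroup.mk ((per k hk hne).take (n % k.length)))⁻¹ := by
  conv_lhs => rw [← Nat.div_add_mod n k.length, mul_comm, mk_per_take_mul_add, mul_inv_rev]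
  apply QuotientGroup.mk_mul_of_mem
  exact Subgroup.inv_mem _ (Subgroup.pow_mem _ (Subgroup.mem_zpowers _) _)

/-- Cosets whose line passes through the base point. -/
lemma coset_of_mem_C₁ (h1 : (FreeGroup.mk k : F N) ≠ 1) (x : F N)
    (hx : x • axisPair (FreeGroup.mk k) h1 ∈ C₁ N) :
    ∃ j < k.length, (QuotientGroup.mk x : F N ⧸ Subgroup.zpowers (FreeGroup.mk k : F N)) =
      QuotientGroup.mk (FreeGroup.mk ((per k hk hne).take j))⁻¹ := by
  set w : F N := FreeGroup.mk k with hw
  have hL : 0 < k.length := List.length_pos_iff.2 hne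
  -- choose a large power
  have hconv : ConvergesTo (fun n => w ^ n * x⁻¹) (per k hk hne) :=
    ConvergesTo.mul_right (attr_per k hk hne) x⁻¹
  obtain ⟨M, hM⟩ := (hconv 1).exists
  let v : F N := w ^ M * x⁻¹
  have hv : v⁻¹ • axisPair w h1 = x • axisPair w h1 := by
    have e : v⁻¹ = x * w ^ (-(M : ℤ)) := by
      simp only [v, mul_inv_rev, inv_inv, zpow_neg, zpow_natCast]
    rw [e, mul_smul, axisPair_zpow_smul]
  have hvC : (v⁻¹ • (axisPair w h1).1.1).letter 0 ≠ (v⁻¹ • (axisPair w h1).1.2).letter 0 := by
    have : v⁻¹ • axisPair w h1 ∈ C₁ N := by rw [hv]; exact hx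
    exact this
  obtain ⟨n, hn⟩ := vertex_of_mem v hvC
  have hvn : v = FreeGroup.mk ((per k hk hne).take n) := by
    rcases hn with hn | hn
    · exfalso
      have h2 : v.toWord.take 1 = (per k hk hne).take 1 := hM
      rw [hn, toWord_mk_of_reduced (Boundary.take_reduced _ _)] at h2
      have h3 := congrArg List.length h2
      simp only [List.length_take, Boundary.take_length] at h3
      rw [Boundary.take_take _ (by omega), Boundary.take_eq_iff] at h2
      have h4 := h2 0 (by omega)
      have h5 := axisPair_mk_mem_C₁ k hk hne h1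
      change (axisPair w h1).1.1.letter 0 ≠ (axisPair w h1).1.2.letter 0 at h5
      rw [axisPair_mk k hk hne] at h5
      exact h5 h4
    · rw [hn, axisPair_mk k hk hne]
  refine ⟨n % k.length, Nat.mod_lt _ hL, ?_⟩
  rw [← coset_mod, ← hvn]
  have e : v⁻¹ = x * w ^ (-(M : ℤ)) := by
    simp only [v, mul_inv_rev, inv_inv, zpow_neg, zpow_natCast]
  rw [e]
  exact (QuotientGroup.mk_mul_of_mem x (Subgroup.zpow_mem _ (Subgroup.mem_zpowers _) _)).symm

/-- the cosets of the first `k.length` vertices are distinct -/
lemma coset_injective {i j : ℕ} (hi : i < k.length) (hj : j < k.length)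
    (h : (QuotientGroup.mk (FreeGroup.mk ((per k hk hne).take i))⁻¹ :
      F N ⧸ Subgroup.zpowers (FreeGroup.mk k : F N)) =
    QuotientGroup.mk (FreeGroup.mk ((per k hk hne).take j))⁻¹) : i = j := by
  rw [QuotientGroup.eq, Subgroup.mem_zpowers_iff] at h
  obtain ⟨z, hz⟩ := h
  rw [inv_inv] at hz
  have hnorm : ∀ n, (FreeGroup.mk ((per k hk hne).take n) : F N).norm = n := by
    intro n
    rw [norm_mk_of_reduced (Boundary.take_reduced _ _), Boundary.take_length]
  rcases le_total 0 z with h0 | h0
  · obtain ⟨m, rfl⟩ := Int.eq_ofNat_of_zero_le h0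
    have h2 : FreeGroup.mk ((per k hk hne).take i) =
        (FreeGroup.mk k : F N) ^ m * FreeGroup.mk ((per k hk hne).take j) := by
      rw [eq_mul_inv_iff_mul_eq] at hz
      rw [← hz]
      exact congrArg (fun y => y * _) (zpow_natCast _ _)
    rw [← mk_per_take_mul_add] at h2
    have h3 := congrArg FreeGroup.norm h2
    rw [hnorm, hnorm] at h3
    rcases Nat.eq_zero_or_pos m with hm | hm
    · subst hm; omega
    · have : k.length ≤ m * k.length := Nat.le_mul_of_pos_left _ hm
      omega
  · obtain ⟨m, hm⟩ := Int.eq_ofNat_of_zero_le (show 0 ≤ -z by omega)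
    have hz2 : z = -(m : ℤ) := by
      have : -z = (m : ℤ) := hm
      omega
    have h2 : FreeGroup.mk ((per k hk hne).take j) =
        (FreeGroup.mk k : F N) ^ m * FreeGroup.mk ((per k hk hne).take i) := by
      rw [hz2, zpow_neg, zpow_natCast] at hz
      exact eq_mul_of_inv_eq_mul_inv hz
    rw [← mk_per_take_mul_add] at h2
    have h3 := congrArg FreeGroup.norm h2
    rw [hnorm, hnorm] at h3
    rcases Nat.eq_zero_or_pos m with hm | hm
    · subst hm; omega
    · have : k.length ≤ m * k.length := Nat.le_mul_of_pos_left _ hm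
      omega

end Cyc

/-- For every `g ≠ 1`, only finitely many cosets give a line through the base vertex. -/
lemma finite_cosets (g : F N) (hg : g ≠ 1) :
    {q : F N ⧸ Subgroup.zpowers g | q.out • axisPair g hg ∈ C₁ N}.Finite := by
  obtain ⟨h, k, hk, hne, hgk⟩ := exists_cyc g hg
  have h1 : (FreeGroup.mk k : F N) ≠ 1 := mk_ne_one k hk hne
  have hax : axisPair g hg = h • axisPair (FreeGroup.mk k) h1 := by
    apply PairSpace.ext
    · have h2 := (infty_spec _ (inv_ne_one.2 h1)).conj h
      have e : h * (FreeGroup.mk k : F N)⁻¹ * h⁻¹ = g⁻¹ := by rw [hgk]; group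
      rw [e] at h2
      exact (infty_spec g⁻¹ (inv_ne_one.2 hg)).unique h2
    · have h2 := (infty_spec _ h1).conj h
      rw [← hgk] at h2
      exact (infty_spec g hg).unique h2
  apply Set.Finite.subset (s := ⋃ j ∈ Finset.range k.length,
    {(QuotientGroup.mk ((FreeGroup.mk ((per k hk hne).take j))⁻¹ * h⁻¹) :
      F N ⧸ Subgroup.zpowers g)})
  · apply Set.Finite.biUnion (Finset.finite_toSet _)
    intro j _
    exact Set.finite_singleton _
  · intro q hq
    induction q using QuotientGroup.induction_on with
    | H x =>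
      rw [Set.mem_ofPred_eq, out_smul_axisPair, hax, ← mul_smul] at hq
      obtain ⟨j, hj, he⟩ := coset_of_mem_C₁ k hk hne h1 (x * h) hq
      simp only [Finset.mem_range, Set.mem_iUnion, Set.mem_singleton_iff, exists_prop]
      refine ⟨j, hj, ?_⟩
      rw [QuotientGroup.eq, Subgroup.mem_zpowers_iff] at he ⊢
      obtain ⟨z, hz⟩ := he
      refine ⟨z, ?_⟩
      rw [hgk, conj_zpow, hz]
      group

lemma countingMeasure_C₁_lt_top (g : F N) (hg : g ≠ 1) : countingMeasure g hg (C₁ N) < ⊤ := by
  rw [countingMeasure_def]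
  rw [Measure.sum_apply _ isClopen_C₁.isOpen.measurableSet]
  have hfin := finite_cosets g hg
  rw [tsum_eq_sum (s := hfin.toFinset)]
  · apply ENNReal.sum_lt_top.2
    intro q _
    rw [Measure.add_apply]
    apply ENNReal.add_lt_top.2
    constructor
    · exact measure_lt_top _ _
    · exact measure_lt_top _ _
  · intro q hq
    rw [Set.Finite.mem_toFinset, Set.mem_ofPred_eq] at hq
    rw [Measure.add_apply, Measure.dirac_apply' _ isClopen_C₁.isOpen.measurableSet,
      Measure.dirac_apply' _ isClopen_C₁.isOpen.measurableSet]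
    have hq2 : q.out • (axisPair g hg).flip ∉ C₁ N := by
      rw [← flip_smul, flip_mem_C₁]; exact hq
    simp [Set.indicator, hq, hq2]

/-- every pair is translated into `C₁` -/
lemma exists_smul_mem_C₁ (p : PairSpace N) : ∃ v : F N, v⁻¹ • p ∈ C₁ N := by
  classical
  have hex : ∃ n, p.1.1.letter n ≠ p.1.2.letter n := by
    by_contra hcon
    push Not at hcon
    exact p.2 (Boundary.ext hcon)
  let n := Nat.find hex
  have hn : p.1.1.letter n ≠ p.1.2.letter n := Nat.find_spec hex
  have hlt : ∀ m < n, p.1.1.letter m = p.1.2.letter m := by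
    intro m hm
    by_contra hc
    exact Nat.find_min hex hm hc
  refine ⟨FreeGroup.mk (p.1.1.take n), ?_⟩
  change ((FreeGroup.mk (p.1.1.take n) : F N)⁻¹ • p.1.1).letter 0 ≠
    ((FreeGroup.mk (p.1.1.take n) : F N)⁻¹ • p.1.2).letter 0
  have e : p.1.1.take n = p.1.2.take n := by
    rw [Boundary.take_eq_iff]; exact hlt
  rw [fwd_smul, e, fwd_smul]
  simpa using hn

lemma isLocallyFinite_of_C₁ (μ : Measure (PairSpace N)) (h1 : μ (C₁ N) < ⊤)
    (h2 : ∀ g : F N, μ.map (fun p => g • p) = μ) : IsLocallyFiniteMeasure μ := by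
  constructor
  intro p
  obtain ⟨v, hv⟩ := exists_smul_mem_C₁ p
  refine ⟨(fun q : PairSpace N => v⁻¹ • q) ⁻¹' C₁ N, ?_, ?_⟩
  · exact ((isClopen_C₁ (N := N)).isOpen.preimage (continuous_smul_pair v⁻¹)).mem_nhds hv
  · have h3 := Measure.map_apply (μ := μ) (continuous_smul_pair v⁻¹).measurable
      (isClopen_C₁ (N := N)).isOpen.measurableSet
    rw [← h3, h2]
    exact h1

instance countingMeasure_locallyFinite (g : F N) (hg : g ≠ 1) :
    IsLocallyFiniteMeasure (countingMeasure g hg) :=
  isLocallyFinite_of_C₁ _ (countingMeasure_C₁_lt_top g hg) (countingMeasure_map_smul g hg)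

lemma countingMeasure_ne_zero (g : F N) (hg : g ≠ 1) : countingMeasure g hg ≠ 0 := by
  intro h
  have h1 : countingMeasure g hg Set.univ = 0 := by rw [h]; simp
  rw [countingMeasure_def] at h1
  rw [Measure.sum_apply _ MeasurableSet.univ, ENNReal.tsum_eq_zero] at h1
  have h2 := h1 (QuotientGroup.mk 1)
  simp at h2

end Pool.Agent.H82.SR
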