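import Mathlib

set_option autoImplicit false

/-!
# Unprojectivized outer space and spectral rigidity (definitions)
-/

namespace Pool.Agent.H82.SR

/-- An element of `F_N` is primitive if it belongs to some free basis. -/
def IsPrimitive {N : ℕ} (g : FreeGroup (Fin N)) : Prop :=
  ∃ (ι : Type) (b : FreeGroupBasis ι (FreeGroup (Fin N))) (i : ι), b i = g

/-- `T` is an ℝ-tree: a geodesic metric space satisfying the four-point condition (that is, a
geodesic 0-hyperbolic space). -/
structure IsRTree (T : Type) [MetricSpace T] : Prop where
  geodesic : ∀ x y : T, ∃ γ : ℝ → T, γ 0 = x ∧ γ (dist x y) = y ∧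
    ∀ s ∈ Set.Icc 0 (dist x y), ∀ t ∈ Set.Icc 0 (dist x y), dist (γ s) (γ t) = |s - t|
  four_point : ∀ x y z w : T,
    dist x y + dist z w ≤ max (dist x z + dist y w) (dist x w + dist y z)

/-- `act` is a point of the unprojectivized outer space `cv_N`: a minimal free isometric action of
the free group `F_N` on an ℝ-tree `T`, with discrete orbits.  Minimal means that every nonempty
invariant subtree is the whole tree; a subset of `T` is a subtree if it contains, with two points
`x` and `y`, all the points `z` of the segment between them. -/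
structure IsOuterPoint {N : ℕ} (T : Type) [MetricSpace T]
    (act : FreeGroup (Fin N) → T → T) : Prop where
  nonempty : Nonempty T
  isRTree : IsRTree T
  act_one : ∀ x, act 1 x = x
  act_mul : ∀ g h x, act (g * h) x = act g (act h x)
  isometric : ∀ g x y, dist (act g x) (act g y) = dist x y
  free : ∀ g x, act g x = x → g = 1
  discrete : ∀ x, ∃ ε : ℝ, 0 < ε ∧ ∀ g, act g x ≠ x → ε ≤ dist x (act g x)
  minimal : ∀ Y : Set T, Y.Nonempty → (∀ g, ∀ x ∈ Y, act g x ∈ Y) →
    (∀ x ∈ Y, ∀ y ∈ Y, ∀ z, dist x z + dist z y = dist x y → z ∈ Y) → Y = Set.univ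

/-- The translation length `‖g‖_T = inf_x d(x, g x)` of `g ∈ F_N` for an action on `T`. -/
noncomputable def translationLength {N : ℕ} (T : Type) [MetricSpace T]
    (act : FreeGroup (Fin N) → T → T) (g : FreeGroup (Fin N)) : ℝ :=
  ⨅ x : T, dist x (act g x)

/-- Two actions are the same point of `cv_N`: there is an equivariant isometry from `T` onto
`T'`. -/
def SamePoint {N : ℕ} (T T' : Type) [MetricSpace T] [MetricSpace T']
    (act : FreeGroup (Fin N) → T → T) (act' : FreeGroup (Fin N) → T' → T') : Prop :=
  ∃ f : T → T', Function.Surjective f ∧ (∀ x y, dist (f x) (f y) = dist x y) ∧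
    ∀ g x, f (act g x) = act' g (f x)

/-- A set `S` of elements of `F_N` is spectrally rigid if two points of outer space for which all
elements of `S` have the same translation lengths are equal. -/
def SpectrallyRigid {N : ℕ} (S : Set (FreeGroup (Fin N))) : Prop :=
  ∀ (T T' : Type) [MetricSpace T] [MetricSpace T'] (act : FreeGroup (Fin N) → T → T)
    (act' : FreeGroup (Fin N) → T' → T'), IsOuterPoint T act → IsOuterPoint T' act' →
    (∀ g ∈ S, translationLength T act g = translationLength T' act' g) → SamePoint T T' act act'

end Pool.Agent.H82.SR
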