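import Pool.Agent.H82.SR.Counting
import Pool.Agent.H82.SR.OuterDefs

set_option autoImplicit false

/-!
# The classes of counting currents (definitions)
-/

namespace Pool.Agent.H82.SR

open Filter Topology MeasureTheory

variable {N : ℕ}

theorem countingMeasure_regular (g : FreeGroup (Fin N)) (hg : g ≠ 1) :
    (countingMeasure g hg).Regular := inferInstance

theorem countingMeasure_map_act (g : FreeGroup (Fin N)) (hg : g ≠ 1) (h : FreeGroup (Fin N)) :
    (countingMeasure g hg).map (PairSpace.act h) = countingMeasure g hg :=
  countingMeasure_map_smul g hg h

theorem countingMeasure_map_flip' (g : FreeGroup (Fin N)) (hg : g ≠ 1) :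
    (countingMeasure g hg).map PairSpace.flip = countingMeasure g hg :=
  countingMeasure_map_flip g hg

theorem countingMeasure_ne_zero' (g : FreeGroup (Fin N)) (hg : g ≠ 1) :
    countingMeasure g hg ≠ 0 := countingMeasure_ne_zero g hg

/-- The counting current `η_g` of `g ≠ 1`. -/
noncomputable def countingCurrent (g : FreeGroup (Fin N)) (hg : g ≠ 1) : Current N where
  toMeasure := countingMeasure g hg
  regular := countingMeasure_regular g hg
  map_act := countingMeasure_map_act g hg
  map_flip := countingMeasure_map_flip' g hg

/-- The counting current, as a non-zero current. -/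
noncomputable def nonzeroCountingCurrent (g : FreeGroup (Fin N)) (hg : g ≠ 1) :
    NonzeroCurrent N := ⟨countingCurrent g hg, countingMeasure_ne_zero' g hg⟩

/-- The projective class `[η_g]` of the counting current of `g ≠ 1`. -/
noncomputable def projCounting (g : FreeGroup (Fin N)) (hg : g ≠ 1) : PCurr N :=
  PCurr.mk (nonzeroCountingCurrent g hg)

/-- The set `{[η_g] : g ∈ S}` of projective classes of counting currents of elements of `S`. -/
def countingClasses (S : Set (FreeGroup (Fin N))) : Set (PCurr N) :=
  {c | ∃ g ∈ S, ∃ hg : g ≠ 1, c = projCounting g hg}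

/-- The space `𝕄_N`: the closure in `ℙCurr(F_N)` of the set of the classes `[η_g]` of the counting
currents of all primitive elements `g`. -/
def MSpace (N : ℕ) : Set (PCurr N) :=
  closure (countingClasses {g : FreeGroup (Fin N) | IsPrimitive g})

end Pool.Agent.H82.SR
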