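import Pool.Agent.H82.SR.Axis

set_option autoImplicit false

/-!
# Geodesic currents on free groups, counting currents (definitions)
-/

namespace Pool.Agent.H82.SR

open Filter Topology MeasureTheory

variable {N : ℕ}

/-- The sequence `g, g², g³, …` of powers of `g ≠ 1` converges to a point of the boundary. -/
theorem exists_powLimit (g : FreeGroup (Fin N)) (hg : g ≠ 1) :
    ∃ ξ : Boundary N, ConvergesTo (fun n => g ^ n) ξ := exists_attr g hg

/-- The boundary point `g^∞ = lim gⁿ` for `g ≠ 1` (the limit is unique). -/
noncomputable def infty (g : FreeGroup (Fin N)) (hg : g ≠ 1) : Boundary N :=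
  (exists_powLimit g hg).choose

lemma infty_spec (g : FreeGroup (Fin N)) (hg : g ≠ 1) : Attr g (infty g hg) :=
  (exists_powLimit g hg).choose_spec

/-- `g^{-∞} ≠ g^∞`, where `g^{-∞}` is the limit of the powers of `g⁻¹`. -/
theorem infty_ne (g : FreeGroup (Fin N)) (hg : g ≠ 1) :
    infty g⁻¹ (inv_ne_one.2 hg) ≠ infty g hg :=
  attr_ne hg (infty_spec g⁻¹ (inv_ne_one.2 hg)) (infty_spec g hg)

/-- The pair `(g^{-∞}, g^∞)` of endpoints of the axis of `g ≠ 1`. -/
noncomputable def axisPair (g : FreeGroup (Fin N)) (hg : g ≠ 1) : PairSpace N :=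
  ⟨(infty g⁻¹ (inv_ne_one.2 hg), infty g hg), infty_ne g hg⟩

/-- The measure underlying the counting current of `g ≠ 1`:
`∑_{h ∈ F_N/⟨g⟩} (δ_{(h g^{-∞}, h g^∞)} + δ_{(h g^∞, h g^{-∞})})`. -/
noncomputable def countingMeasure (g : FreeGroup (Fin N)) (hg : g ≠ 1) : Measure (PairSpace N) :=
  Measure.sum (fun q : FreeGroup (Fin N) ⧸ Subgroup.zpowers g =>
    Measure.dirac (PairSpace.act q.out (axisPair g hg)) +
      Measure.dirac (PairSpace.act q.out (axisPair g hg).flip))

/-- A geodesic current on `F_N`: a positive Radon measure on `∂²F_N` which is invariant under the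
diagonal action of `F_N` and under the flip. -/
structure Current (N : ℕ) where
  /-- the underlying measure -/
  toMeasure : Measure (PairSpace N)
  /-- it is a Radon measure -/
  regular : toMeasure.Regular
  /-- it is invariant under `F_N` -/
  map_act : ∀ g : FreeGroup (Fin N), toMeasure.map (PairSpace.act g) = toMeasure
  /-- it is invariant under the flip -/
  map_flip : toMeasure.map PairSpace.flip = toMeasure

/-- The weak-* topology on the space of currents: the coarsest topology for which
`μ ↦ ∫ f dμ` is continuous for every compactly supported continuous `f : ∂²F_N → ℝ`. -/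
noncomputable instance : TopologicalSpace (Current N) :=
  ⨅ f : {f : PairSpace N → ℝ // Continuous f ∧ HasCompactSupport f},
    TopologicalSpace.induced (fun μ : Current N => ∫ p, f.1 p ∂μ.toMeasure) inferInstance

/-- The space of non-zero currents. -/
def NonzeroCurrent (N : ℕ) : Type := {μ : Current N // μ.toMeasure ≠ 0}

/-- The subspace topology on the space of non-zero currents. -/
noncomputable instance : TopologicalSpace (NonzeroCurrent N) := instTopologicalSpaceSubtype

/-- Two non-zero currents are projectively equivalent if they differ by a positive scalar. -/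
def projSetoid (N : ℕ) : Setoid (NonzeroCurrent N) where
  r μ ν := ∃ c : NNReal, c ≠ 0 ∧ ν.1.toMeasure = c • μ.1.toMeasure
  iseqv := {
    refl := fun μ => ⟨1, one_ne_zero, by simp⟩
    symm := by
      rintro μ ν ⟨c, hc, h⟩
      exact ⟨c⁻¹, inv_ne_zero hc, by rw [h, smul_smul, inv_mul_cancel₀ hc, one_smul]⟩
    trans := by
      rintro μ ν κ ⟨c, hc, h⟩ ⟨d, hd, h'⟩
      exact ⟨d * c, mul_ne_zero hd hc, by rw [h', h, smul_smul]⟩ }

/-- The space `ℙCurr(F_N)` of projective currents. -/
def PCurr (N : ℕ) : Type := Quotient (projSetoid N)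

/-- `ℙCurr(F_N)` carries the quotient topology. -/
noncomputable instance : TopologicalSpace (PCurr N) := instTopologicalSpaceQuotient

/-- The projective class of a non-zero current. -/
def PCurr.mk (μ : NonzeroCurrent N) : PCurr N := Quotient.mk (projSetoid N) μ

end Pool.Agent.H82.SR
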