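import Pool.Agent.H82.SR.Whitehead
import Pool.Agent.H82.SR.CurrentDefs

set_option autoImplicit false

/-!
# Geodesic currents on free groups, counting currents
-/

namespace Pool.Agent.H82.SR

open Filter Topology MeasureTheory

variable {N : ℕ}

instance : BorelSpace (PairSpace N) := ⟨rfl⟩

/-- The diagonal action of `F_N` on `∂²F_N`. -/
instance : MulAction (FreeGroup (Fin N)) (PairSpace N) where
  smul g p := PairSpace.act g p
  one_smul p := Subtype.ext (by
    change ((1 : FreeGroup (Fin N)) • p.1.1, (1 : FreeGroup (Fin N)) • p.1.2) = p.1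
    simp)
  mul_smul g h p := Subtype.ext (by
    change ((g * h) • p.1.1, (g * h) • p.1.2) = (g • h • p.1.1, g • h • p.1.2)
    simp [mul_smul])

lemma Current.map_smul (μ : Current N) (g : F N) :
    μ.toMeasure.map (fun p => g • p) = μ.toMeasure := μ.map_act g

lemma countingMeasure_def (g : FreeGroup (Fin N)) (hg : g ≠ 1) : countingMeasure g hg =
    Measure.sum (fun q : FreeGroup (Fin N) ⧸ Subgroup.zpowers g =>
      Measure.dirac (q.out • axisPair g hg) + Measure.dirac (q.out • (axisPair g hg).flip)) := rfl

@[simp] lemma smul_fst (g : F N) (p : PairSpace N) : (g • p).1.1 = g • p.1.1 := rfl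
@[simp] lemma smul_snd (g : F N) (p : PairSpace N) : (g • p).1.2 = g • p.1.2 := rfl
@[simp] lemma flip_fst (p : PairSpace N) : p.flip.1.1 = p.1.2 := rfl
@[simp] lemma flip_snd (p : PairSpace N) : p.flip.1.2 = p.1.1 := rfl

lemma PairSpace.ext {p q : PairSpace N} (h1 : p.1.1 = q.1.1) (h2 : p.1.2 = q.1.2) : p = q :=
  Subtype.ext (Prod.ext h1 h2)

@[simp] lemma flip_flip (p : PairSpace N) : p.flip.flip = p := rfl

lemma flip_smul (g : F N) (p : PairSpace N) : (g • p).flip = g • p.flip := rfl

section TopologyFacts

lemma Boundary.isClosed_range : IsClosed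
    {w : ℕ → Fin N × Bool | ∀ n, w (n + 1) ≠ bar (w n)} := by
  have : {w : ℕ → Fin N × Bool | ∀ n, w (n + 1) ≠ bar (w n)} =
      ⋂ n, {w : ℕ → Fin N × Bool | w (n + 1) ≠ bar (w n)} := by
    ext w; simp
  rw [this]
  apply isClosed_iInter
  intro n
  have hc : Continuous (fun w : ℕ → Fin N × Bool => (w (n + 1), w n)) :=
    (continuous_apply (n + 1)).prodMk (continuous_apply n)
  exact (isClosed_discrete {p : (Fin N × Bool) × (Fin N × Bool) | p.1 ≠ bar p.2}).preimage hc

instance : CompactSpace (Boundary N) :=
  isCompact_iff_compactSpace.1 (Boundary.isClosed_range (N := N)).isCompact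

instance : T2Space (Boundary N) :=
  inferInstanceAs (T2Space {w : ℕ → Fin N × Bool // ∀ n, w (n + 1) ≠ bar (w n)})

instance : SecondCountableTopology (Boundary N) :=
  TopologicalSpace.Subtype.secondCountableTopology
    {w : ℕ → Fin N × Bool | ∀ n, w (n + 1) ≠ bar (w n)}

instance : T2Space (PairSpace N) :=
  inferInstanceAs (T2Space {p : Boundary N × Boundary N // p.1 ≠ p.2})

instance : SecondCountableTopology (PairSpace N) :=
  TopologicalSpace.Subtype.secondCountableTopology {p : Boundary N × Boundary N | p.1 ≠ p.2}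

instance : LocallyCompactSpace (PairSpace N) := by
  have h : IsOpen {p : Boundary N × Boundary N | p.1 ≠ p.2} := by
    have := (isClosed_diagonal (X := Boundary N)).isOpen_compl
    exact this
  exact h.locallyCompactSpace

instance : TopologicalSpace.MetrizableSpace (Boundary N) :=
  TopologicalSpace.metrizableSpace_of_t3_secondCountable _

instance : TopologicalSpace.MetrizableSpace (PairSpace N) :=
  TopologicalSpace.metrizableSpace_of_t3_secondCountable _

end TopologyFacts

end Pool.Agent.H82.SR
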