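import Pool.Agent.H82.SR.Near

set_option autoImplicit false

/-!
# Neighbourhoods of the class of a basis element in `ℙCurr(F_N)`, part 2
-/

namespace Pool.Agent.H82.SR

open Filter Topology MeasureTheory

variable {N : ℕ}

lemma Boundary.tendsto_of_take {u : ℕ → Boundary N} {ξ : Boundary N}
    (h : ∀ m, (u m).take m = ξ.take m) : Tendsto u atTop (𝓝 ξ) := by
  have : Tendsto (fun m => (u m).1) atTop (𝓝 ξ.1) := by
    rw [tendsto_pi_nhds]
    intro i
    apply tendsto_const_nhds.congr'
    filter_upwards [eventually_gt_atTop i] with m hm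
    exact ((Boundary.take_eq_iff.1 (h m)) i hm).symm
  exact tendsto_subtype_rng.2 this

lemma PairSpace.tendsto_of_take {u : ℕ → PairSpace N} {p : PairSpace N}
    (h1 : ∀ m, (u m).1.1.take m = p.1.1.take m) (h2 : ∀ m, (u m).1.2.take m = p.1.2.take m) :
    Tendsto u atTop (𝓝 p) := by
  have : Tendsto (fun m => (u m).1) atTop (𝓝 p.1) :=
    (Boundary.tendsto_of_take h1).prodMk_nhds (Boundary.tendsto_of_take h2)
  exact tendsto_subtype_rng.2 this

lemma exists_close (f : PairSpace N → ℝ) (hf : Continuous f) (p : PairSpace N) (ε : ℝ)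
    (hε : 0 < ε) : ∃ R₀, ∀ R ≥ R₀, ∀ q : PairSpace N, q.1.1.take R = p.1.1.take R →
      q.1.2.take R = p.1.2.take R → |f q - f p| < ε := by
  by_contra hcon
  push Not at hcon
  choose R hR q h1 h2 h3 using hcon
  have e1 : ∀ m, (q m).1.1.take m = p.1.1.take m := by
    intro m
    rw [← Boundary.take_take _ (hR m), h1, Boundary.take_take _ (hR m)]
  have e2 : ∀ m, (q m).1.2.take m = p.1.2.take m := by
    intro m
    rw [← Boundary.take_take _ (hR m), h2, Boundary.take_take _ (hR m)]
  have h4 : Tendsto (fun m => f (q m)) atTop (𝓝 (f p)) :=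
    (hf.tendsto p).comp (PairSpace.tendsto_of_take e1 e2)
  rw [Metric.tendsto_atTop] at h4
  obtain ⟨m, hm⟩ := h4 ε hε
  have := hm m le_rfl
  rw [Real.dist_eq] at this
  exact absurd this (not_lt.2 (h3 m))

section Estimate

variable (k : List (Fin N × Bool)) (hk : FreeGroup.IsCyclicallyReduced k) (hne : k ≠ [])

lemma term_bound (i₀ : Fin N) (f : PairSpace N → ℝ) (C ε : ℝ) (hC : ∀ p, |f p| ≤ C)
    (hε : 0 < ε)
    (R' : ℕ) (hR' : 1 ≤ R') (p₀ : PairSpace N) (hp₀1 : ∀ i, p₀.1.1.letter i = (i₀, false))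
    (hp₀2 : ∀ i, p₀.1.2.letter i = (i₀, true))
    (hclose : ∀ q : PairSpace N, q.1.1.take R' = p₀.1.1.take R' →
      q.1.2.take R' = p₀.1.2.take R' → |f q - f p₀| < ε ∧ |f q.flip - f p₀.flip| < ε)
    (n : ℕ) (hn : R' ≤ n) :
    |(f (lineAt k hk hne n) + f (lineAt k hk hne n).flip) - (f p₀ + f p₀.flip)| ≤
      2 * ε + 4 * C * ∑ t ∈ Finset.range (2 * R'), nc k hk hne i₀ (n - R' + t) := by
  have hC0 : 0 ≤ C := le_trans (abs_nonneg _) (hC p₀)
  by_cases hgood : ∀ t < 2 * R', nc k hk hne i₀ (n - R' + t) = 0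
  · have hs : 0 ≤ ∑ t ∈ Finset.range (2 * R'), nc k hk hne i₀ (n - R' + t) :=
      Finset.sum_nonneg (fun t _ => nc_nonneg k hk hne i₀ _)
    have h4 : 0 ≤ 4 * C * ∑ t ∈ Finset.range (2 * R'), nc k hk hne i₀ (n - R' + t) := by
      positivity
    rcases line_close k hk hne i₀ R' hR' n hn hgood p₀ hp₀1 hp₀2 with ⟨h1, h2⟩ | ⟨h1, h2⟩
    · obtain ⟨h3, h5⟩ := hclose _ h1 h2
      rw [abs_lt] at h3 h5
      rw [abs_le]
      constructor <;> linarith [h3.1, h3.2, h5.1, h5.2]
    · obtain ⟨h3, h5⟩ := hclose _ h1 h2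
      rw [flip_flip] at h5
      rw [abs_lt] at h3 h5
      rw [abs_le]
      constructor <;> linarith [h3.1, h3.2, h5.1, h5.2]
  · push Not at hgood
    obtain ⟨t, ht, hnc⟩ := hgood
    have h1 : nc k hk hne i₀ (n - R' + t) = 1 := by
      unfold nc at hnc ⊢
      split_ifs at hnc ⊢ with h
      · exact absurd rfl hnc
      · rfl
    have h2 : 1 ≤ ∑ t ∈ Finset.range (2 * R'), nc k hk hne i₀ (n - R' + t) := by
      rw [← h1]
      exact Finset.single_le_sum (f := fun t => nc k hk hne i₀ (n - R' + t))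
        (fun t _ => nc_nonneg k hk hne i₀ _) (Finset.mem_range.2 ht)
    have h3 := hC (lineAt k hk hne n)
    have h4 := hC (lineAt k hk hne n).flip
    have h5 := hC p₀
    have h6 := hC p₀.flip
    rw [abs_le] at h3 h4 h5 h6
    have h7 : 4 * C ≤ 4 * C * ∑ t ∈ Finset.range (2 * R'), nc k hk hne i₀ (n - R' + t) := by
      nlinarith
    rw [abs_le]
    constructor <;> linarith [h3.1, h3.2, h4.1, h4.2, h5.1, h5.2, h6.1, h6.2]

lemma integral_bound (i₀ : Fin N) (f : PairSpace N → ℝ) (hf : Continuous f)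
    (hc : HasCompactSupport f) (hC1 : ∀ p, p ∉ C₁ N → f p = 0)
    (C ε : ℝ) (hC : ∀ p, |f p| ≤ C) (hε : 0 < ε)
    (R' : ℕ) (hR' : 1 ≤ R') (p₀ : PairSpace N) (hp₀1 : ∀ i, p₀.1.1.letter i = (i₀, false))
    (hp₀2 : ∀ i, p₀.1.2.letter i = (i₀, true))
    (hclose : ∀ q : PairSpace N, q.1.1.take R' = p₀.1.1.take R' →
      q.1.2.take R' = p₀.1.2.take R' → |f q - f p₀| < ε ∧ |f q.flip - f p₀.flip| < ε)
    (R : ℕ) (hR0 : 0 < R)
    (hR : ∀ i, ∑ t ∈ Finset.range R, nc k hk hne i₀ (i + t) ≤ 2) :
    |(k.length : ℝ)⁻¹ *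
      ∫ p, f p ∂(countingCurrent (FreeGroup.mk k) (mk_ne_one k hk hne)).toMeasure -
      (f p₀ + f p₀.flip)| ≤ 2 * ε + 16 * C * R' / R := by
  have hL : 0 < k.length := List.length_pos_iff.2 hne
  have hL' : (0 : ℝ) < k.length := by exact_mod_cast hL
  have hR0' : (0 : ℝ) < R := by exact_mod_cast hR0
  have hC0 : 0 ≤ C := le_trans (abs_nonneg _) (hC p₀)
  rw [integral_counting k hk hne f hf hc hC1]
  set G₀ := f p₀ + f p₀.flip with hG₀
  have h1 : ∀ j ∈ Finset.range k.length,
      |(f (lineAt k hk hne j) + f (lineAt k hk hne j).flip) - G₀| ≤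
      2 * ε + 4 * C * ∑ t ∈ Finset.range (2 * R'),
        nc k hk hne i₀ (j + (R' * k.length - R' + t)) := by
    intro j _
    have hRL : R' ≤ R' * k.length := Nat.le_mul_of_pos_right R' hL
    have h2 := term_bound k hk hne i₀ f C ε hC hε R' hR' p₀ hp₀1 hp₀2 hclose
      (R' * k.length + j) (by omega)
    rw [lineAt_add] at h2
    refine le_trans h2 (le_of_eq ?_)
    congr 2
    apply Finset.sum_congr rfl
    intro t _
    congr 1
    omega
  have h2 : |∑ j ∈ Finset.range k.length, (f (lineAt k hk hne j) + f (lineAt k hk hne j).flip)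
      - k.length * G₀| ≤ k.length * (2 * ε) +
        4 * C * (2 * R' * ∑ j ∈ Finset.range k.length, nc k hk hne i₀ j) := by
    have e1 : ∑ j ∈ Finset.range k.length, (f (lineAt k hk hne j) + f (lineAt k hk hne j).flip)
      - k.length * G₀ = ∑ j ∈ Finset.range k.length,
        ((f (lineAt k hk hne j) + f (lineAt k hk hne j).flip) - G₀) := by
      rw [Finset.sum_sub_distrib]
      simp
    rw [e1]
    refine le_trans (Finset.abs_sum_le_sum_abs _ _) ?_
    refine le_trans (Finset.sum_le_sum h1) ?_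
    have e2 : ∑ j ∈ Finset.range k.length, ∑ t ∈ Finset.range (2 * R'),
        nc k hk hne i₀ (j + (R' * k.length - R' + t)) =
        2 * R' * ∑ j ∈ Finset.range k.length, nc k hk hne i₀ j := by
      rw [Finset.sum_comm]
      simp only [nc_sum_shift]
      simp only [Finset.sum_const, Finset.card_range, nsmul_eq_mul]
      push_cast
      ring
    have e3 : ∑ j ∈ Finset.range k.length, (2 * ε + 4 * C * ∑ t ∈ Finset.range (2 * R'),
        nc k hk hne i₀ (j + (R' * k.length - R' + t))) = k.length * (2 * ε) +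
        4 * C * (2 * R' * ∑ j ∈ Finset.range k.length, nc k hk hne i₀ j) := by
      rw [Finset.sum_add_distrib, ← Finset.mul_sum (Finset.range k.length) _ (4 * C), e2]
      simp only [Finset.sum_const, Finset.card_range, nsmul_eq_mul]
    exact le_of_eq e3
  have h3 := nc_sum_le k hk hne i₀ R hR
  set T := ∑ j ∈ Finset.range k.length, nc k hk hne i₀ j with hT
  have h4 : T ≤ 2 * k.length / R := by
    rw [le_div_iff₀ hR0']
    linarith
  have h5 : (k.length : ℝ)⁻¹ * ∑ j ∈ Finset.range k.length,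
      (f (lineAt k hk hne j) + f (lineAt k hk hne j).flip) - G₀ =
      (k.length : ℝ)⁻¹ * (∑ j ∈ Finset.range k.length,
      (f (lineAt k hk hne j) + f (lineAt k hk hne j).flip) - k.length * G₀) := by
    field_simp
  rw [h5, abs_mul, abs_of_pos (inv_pos.2 hL')]
  calc (k.length : ℝ)⁻¹ * |∑ j ∈ Finset.range k.length,
      (f (lineAt k hk hne j) + f (lineAt k hk hne j).flip) - k.length * G₀|
      ≤ (k.length : ℝ)⁻¹ * (k.length * (2 * ε) + 4 * C * (2 * R' * T)) := by
        apply mul_le_mul_of_nonneg_left h2 (inv_pos.2 hL').le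
    _ ≤ (k.length : ℝ)⁻¹ * (k.length * (2 * ε) + 4 * C * (2 * R' * (2 * k.length / R))) := by
        apply mul_le_mul_of_nonneg_left _ (inv_pos.2 hL').le
        have : 4 * C * (2 * R' * T) ≤ 4 * C * (2 * R' * (2 * k.length / R)) := by
          apply mul_le_mul_of_nonneg_left _ (by positivity)
          apply mul_le_mul_of_nonneg_left h4 (by positivity)
        linarith
    _ = 2 * ε + 16 * C * R' / R := by
        field_simp
        ring

end Estimate

/-- scaling a current -/
noncomputable def scaleCurrent (a : NNReal) (μ : Current N) : Current N where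
  toMeasure := a • μ.toMeasure
  regular := inferInstance
  map_act g := by rw [Measure.map_smul, μ.map_act]
  map_flip := by rw [Measure.map_smul, μ.map_flip]

section Main

/-- The base line of the generator `x_{i₀}`. -/
lemma gen_axis (i₀ : Fin N) (h : (FreeGroup.mk [(i₀, true)] : F N) ≠ 1) :
    (∀ i, (axisPair (FreeGroup.mk [(i₀, true)]) h).1.1.letter i = (i₀, false)) ∧
    (∀ i, (axisPair (FreeGroup.mk [(i₀, true)]) h).1.2.letter i = (i₀, true)) := by
  constructor
  · intro i
    rw [axisPair_mk_fst [(i₀, true)] (by simp) (by simp), per_letter]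
    simp [FreeGroup.invRev]
  · intro i
    rw [axisPair_mk [(i₀, true)] (by simp) (by simp), per_letter]
    simp

variable (i₀ : Fin N) (K : ℕ → List (Fin N × Bool))
  (hK : ∀ R, FreeGroup.IsCyclicallyReduced (K R)) (hKne : ∀ R, K R ≠ [])
  (hwin : ∀ R, ∀ i, ∑ t ∈ Finset.range R, nc (K R) (hK R) (hKne R) i₀ (i + t) ≤ 2)

/-- statement of convergence for a test function -/
def Good (f : PairSpace N → ℝ) : Prop :=
  Tendsto (fun R => ((K R).length : ℝ)⁻¹ *
      ∫ p, f p ∂(countingCurrent (FreeGroup.mk (K R)) (mk_ne_one (K R) (hK R) (hKne R))).toMeasure)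
    atTop (𝓝 (∫ p, f p ∂(countingCurrent (FreeGroup.mk [(i₀, true)])
      (mk_ne_one [(i₀, true)] (by simp) (by simp))).toMeasure))

include hwin in
lemma good_of_C₁ (f : PairSpace N → ℝ) (hf : Continuous f)
    (hc : HasCompactSupport f) (hC1 : ∀ p, p ∉ C₁ N → f p = 0) : Good i₀ K hK hKne f := by
  unfold Good
  have h1 : (FreeGroup.mk [(i₀, true)] : F N) ≠ 1 := mk_ne_one [(i₀, true)] (by simp) (by simp)
  obtain ⟨hp1, hp2⟩ := gen_axis i₀ h1
  set p₀ := axisPair (FreeGroup.mk [(i₀, true)]) h1 with hp₀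
  have e0 : ∫ p, f p ∂(countingCurrent (FreeGroup.mk [(i₀, true)]) h1).toMeasure =
      f p₀ + f p₀.flip := by
    rw [integral_counting [(i₀, true)] (by simp) (by simp) f hf hc hC1]
    simp only [List.length_singleton, Finset.range_one, Finset.sum_singleton]
    have : lineAt [(i₀, true)] (by simp) (by simp) 0 = p₀ := by
      unfold lineAt
      rw [Boundary.take_zero]
      have : FreeGroup.mk ([] : List (Fin N × Bool)) = 1 := rfl
      rw [this, inv_one, one_smul]
    rw [this]
  rw [e0]
  obtain ⟨C, hC⟩ := hc.exists_bound_of_continuous hf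
  simp only [Real.norm_eq_abs] at hC
  have hC0 : 0 ≤ C := le_trans (abs_nonneg _) (hC p₀)
  rw [Metric.tendsto_atTop]
  intro ε hε
  obtain ⟨R₁, hR₁⟩ := exists_close f hf p₀ (ε / 8) (by linarith)
  obtain ⟨R₂, hR₂⟩ := exists_close f hf p₀.flip (ε / 8) (by linarith)
  let R' := max (max R₁ R₂) 1
  have hR'1 : 1 ≤ R' := le_max_right _ _
  have hR'2 : R₁ ≤ R' := le_trans (le_max_left _ _) (le_max_left _ _)
  have hR'3 : R₂ ≤ R' := le_trans (le_max_right _ _) (le_max_left _ _)
  obtain ⟨R₀, hR₀⟩ := exists_nat_gt (32 * C * R' / ε)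
  refine ⟨max R₀ 1, ?_⟩
  intro R hR
  have hRpos : 0 < R := lt_of_lt_of_le one_pos (le_trans (le_max_right _ _) hR)
  have hRR : (R₀ : ℝ) ≤ R := by exact_mod_cast le_trans (le_max_left _ _) hR
  have hRpos' : (0 : ℝ) < R := by exact_mod_cast hRpos
  have h2 := integral_bound (K R) (hK R) (hKne R) i₀ f hf hc hC1 C (ε / 8) hC (by linarith) R' hR'1
    p₀ hp1 hp2 (by
      intro q hq1 hq2
      exact ⟨hR₁ R' hR'2 q hq1 hq2, hR₂ R' hR'3 q.flip hq2 hq1⟩) R hRpos (hwin R)
  rw [Real.dist_eq]
  refine lt_of_le_of_lt h2 ?_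
  have h3 : 16 * C * R' / R ≤ ε / 2 := by
    rw [div_le_iff₀ hRpos']
    have h4 : 32 * C * R' / ε < R := lt_of_lt_of_le hR₀ hRR
    rw [div_lt_iff₀ hε] at h4
    linarith
  linarith

lemma integral_comp_smul (μ : Current N) (f : PairSpace N → ℝ) (v : F N) :
    ∫ p, f (v • p) ∂μ.toMeasure = ∫ p, f p ∂μ.toMeasure := by
  have h1 := (Homeomorph.smul v : PairSpace N ≃ₜ PairSpace N).measurableEmbedding.integral_map
    (μ := μ.toMeasure) f
  have h2 : μ.toMeasure.map (Homeomorph.smul v : PairSpace N ≃ₜ PairSpace N) = μ.toMeasure :=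
    μ.map_smul v
  rw [h2] at h1
  exact h1.symm

lemma good_smul (f : PairSpace N → ℝ) (v : F N) (h : Good i₀ K hK hKne (fun p => f (v • p))) :
    Good i₀ K hK hKne f := by
  unfold Good at h ⊢
  simp only [integral_comp_smul] at h
  exact h

lemma good_add (f g : PairSpace N → ℝ) (hf : Continuous f) (hcf : HasCompactSupport f)
    (hg : Continuous g) (hcg : HasCompactSupport g)
    (h1 : Good i₀ K hK hKne f) (h2 : Good i₀ K hK hKne g) :
    Good i₀ K hK hKne (fun p => f p + g p) := by
  unfold Good at h1 h2 ⊢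
  have := h1.add h2
  rw [integral_add (integrable_current _ hf hcf) (integrable_current _ hg hcg)]
  refine this.congr ?_
  intro R
  rw [integral_add (integrable_current _ hf hcf) (integrable_current _ hg hcg)]
  ring

include hwin in
lemma good_of_list (B : List (F N)) (f : PairSpace N → ℝ) (hf : Continuous f)
    (hc : HasCompactSupport f) (hB : ∀ p, f p ≠ 0 → ∃ v ∈ B, v⁻¹ • p ∈ C₁ N) :
    Good i₀ K hK hKne f := by
  classical
  induction B generalizing f with
  | nil =>
    have : ∀ p, f p = 0 := by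
      intro p
      by_contra h
      obtain ⟨v, hv, _⟩ := hB p h
      simp at hv
    exact good_of_C₁ i₀ K hK hKne hwin f hf hc (fun p _ => this p)
  | cons v B ih =>
    let S : Set (PairSpace N) := (fun p : PairSpace N => v⁻¹ • p) ⁻¹' C₁ N
    have hS : IsClopen S := isClopen_C₁.preimage (continuous_smul_pair v⁻¹)
    have e : f = fun p => S.indicator f p + Sᶜ.indicator f p := by
      funext p
      by_cases hp : p ∈ S
      · simp [hp]
      · simp [hp]
    have hc1 : Continuous (S.indicator f) :=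
      hf.indicator (by intro p hp; rw [hS.frontier_eq] at hp; exact absurd hp (by simp))
    have hc2 : Continuous (Sᶜ.indicator f) :=
      hf.indicator (by intro p hp; rw [hS.compl.frontier_eq] at hp; exact absurd hp (by simp))
    have hs1 : HasCompactSupport (S.indicator f) := by
      apply hc.mono
      intro p hp
      rw [Function.mem_support] at hp ⊢
      intro h; apply hp
      by_cases hpS : p ∈ S <;> simp [hpS, h]
    have hs2 : HasCompactSupport (Sᶜ.indicator f) := by
      apply hc.mono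
      intro p hp
      rw [Function.mem_support] at hp ⊢
      intro h; apply hp
      by_cases hpS : p ∈ S <;> simp [hpS, h]
    rw [e]
    apply good_add i₀ K hK hKne _ _ hc1 hs1 hc2 hs2
    · apply good_smul i₀ K hK hKne _ v
      apply good_of_C₁ i₀ K hK hKne hwin
      · exact hc1.comp (continuous_smul_pair v)
      · exact hs1.comp_homeomorph (Homeomorph.smul v)
      · intro p hp
        have : v • p ∉ S := by
          intro h
          apply hp
          have h' : v⁻¹ • v • p ∈ C₁ N := h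
          rwa [inv_smul_smul] at h'
        simp [this]
    · apply ih _ hc2 hs2
      intro p hp
      have hpS : p ∉ S := by
        intro h; apply hp; simp [h]
      have hfp : f p ≠ 0 := by
        intro h; apply hp
        by_cases hpS : p ∈ S <;> simp [hpS, h]
      obtain ⟨w, hw, hw2⟩ := hB p hfp
      rcases List.mem_cons.1 hw with rfl | hw
      · exact absurd hw2 hpS
      · exact ⟨w, hw, hw2⟩

include hwin in
lemma good_all (f : PairSpace N → ℝ) (hf : Continuous f) (hc : HasCompactSupport f) :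
    Good i₀ K hK hKne f := by
  classical
  have hcpt : IsCompact (tsupport f) := hc
  obtain ⟨B, hB⟩ := hcpt.elim_finite_subcover
    (fun v : F N => (fun p : PairSpace N => v⁻¹ • p) ⁻¹' C₁ N)
    (fun v => (isClopen_C₁ (N := N)).isOpen.preimage (continuous_smul_pair v⁻¹))
    (by
      intro p _
      obtain ⟨v, hv⟩ := exists_smul_mem_C₁ p
      exact Set.mem_iUnion.2 ⟨v, hv⟩)
  apply good_of_list i₀ K hK hKne hwin B.toList f hf hc
  intro p hp
  have h1 := hB (subset_tsupport f hp)
  simp only [Set.mem_iUnion, exists_prop] at h1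
  obtain ⟨v, hv, hv2⟩ := h1
  exact ⟨v, Finset.mem_toList.2 hv, hv2⟩

end Main

/-- **Neighbourhoods of `[η_c]`.** If `U` is an open neighbourhood of `[η_c]`, `c = x_{i₀}`, then
there is `R` such that every cyclically reduced word all of whose (cyclic) subwords of length `R`
have at most two letters different from `c^{±1}` has its counting current in `U`. -/
theorem near_generator (i₀ : Fin N) (U : Set (PCurr N)) (hU : IsOpen U)
    (hmem : projCounting (FreeGroup.mk [(i₀, true)])
      (mk_ne_one [(i₀, true)] (by simp) (by simp)) ∈ U) :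
    ∃ R : ℕ, ∀ (k : List (Fin N × Bool)) (hk : FreeGroup.IsCyclicallyReduced k) (hne : k ≠ []),
      (∀ i, ∑ t ∈ Finset.range R, nc k hk hne i₀ (i + t) ≤ 2) →
      projCounting (FreeGroup.mk k) (mk_ne_one k hk hne) ∈ U := by
  by_contra hcon
  push Not at hcon
  choose K hK hKne hwin hnot using hcon
  have hLpos : ∀ R, (0 : NNReal) < ((K R).length : NNReal) := by
    intro R
    have : 0 < (K R).length := List.length_pos_iff.2 (hKne R)
    exact_mod_cast this
  let μ : ℕ → NonzeroCurrent N := fun R =>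
    ⟨scaleCurrent ((K R).length : NNReal)⁻¹
      (countingCurrent (FreeGroup.mk (K R)) (mk_ne_one (K R) (hK R) (hKne R))), by
      change ((K R).length : NNReal)⁻¹ • countingMeasure _ _ ≠ 0
      intro h
      have h2 := congrArg (fun ν => ((K R).length : NNReal) • ν) h
      simp only [smul_smul, mul_inv_cancel₀ (hLpos R).ne', one_smul, smul_zero] at h2
      exact countingMeasure_ne_zero _ _ h2⟩
  have hμ : ∀ R, PCurr.mk (μ R) =
      projCounting (FreeGroup.mk (K R)) (mk_ne_one (K R) (hK R) (hKne R)) := by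
    intro R
    apply Quotient.sound
    refine ⟨((K R).length : NNReal), (hLpos R).ne', ?_⟩
    change countingMeasure _ _ = ((K R).length : NNReal) •
      (((K R).length : NNReal)⁻¹ • countingMeasure _ _)
    rw [smul_smul, mul_inv_cancel₀ (hLpos R).ne', one_smul]
  have htend : Tendsto μ atTop (𝓝 (nonzeroCountingCurrent (FreeGroup.mk [(i₀, true)])
      (mk_ne_one [(i₀, true)] (by simp) (by simp)))) := by
    apply tendsto_subtype_rng.2
    apply tendsto_current
    intro f hf hc
    have h1 := good_all i₀ K hK hKne hwin f hf hc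
    unfold Good at h1
    refine h1.congr ?_
    intro R
    change _ = ∫ p, f p ∂(((K R).length : NNReal)⁻¹ •
      (countingCurrent (FreeGroup.mk (K R)) (mk_ne_one (K R) (hK R) (hKne R))).toMeasure)
    rw [integral_smul_nnreal_measure]
    simp [NNReal.smul_def]
  have h2 : Tendsto (fun R => PCurr.mk (μ R)) atTop (𝓝 (projCounting (FreeGroup.mk [(i₀, true)])
      (mk_ne_one [(i₀, true)] (by simp) (by simp)))) :=
    (continuous_PCurr_mk.tendsto _).comp htend
  have h3 := h2.eventually (hU.mem_nhds hmem)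
  obtain ⟨R, hR⟩ := h3.exists
  rw [hμ] at hR
  exact hnot R hR

end Pool.Agent.H82.SR
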