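import Pool.Agent.H82.SR.Twist
import Pool.Agent.H82.SR.Near2

set_option autoImplicit false

/-!
# Extracting a window from a line
-/

namespace Pool.Agent.H82.SR

open Filter Topology

variable {N : ℕ}

/-- weight of the letters different from `x_{i₀}^{±1}` -/
noncomputable def wt (i₀ : Fin N) (η : Boundary N) (t : ℕ) : ℝ :=
  if (η.letter t).1 = i₀ then 0 else 1

lemma first_nc (i₀ : Fin N) (η : Boundary N) (R : ℕ) (s : ℝ) (hs : 0 ≤ s)
    (h : s < ∑ t ∈ Finset.range R, wt i₀ η t) :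
    ∃ j < R, (η.letter j).1 ≠ i₀ ∧ (∀ t < j, (η.letter t).1 = i₀) ∧
      s - 1 < ∑ t ∈ Finset.range (R - (j + 1)), wt i₀ (η.drop (j + 1)) t := by
  classical
  have hex : ∃ t, t < R ∧ (η.letter t).1 ≠ i₀ := by
    by_contra hcon
    push Not at hcon
    have : ∑ t ∈ Finset.range R, wt i₀ η t = 0 := by
      apply Finset.sum_eq_zero
      intro t ht
      unfold wt
      rw [if_pos (hcon t (Finset.mem_range.1 ht))]
    linarith
  refine ⟨Nat.find hex, (Nat.find_spec hex).1, (Nat.find_spec hex).2, ?_, ?_⟩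
  · intro t ht
    by_contra hc
    exact Nat.find_min hex ht ⟨lt_trans ht (Nat.find_spec hex).1, hc⟩
  · set j := Nat.find hex with hj
    have hjR : j < R := (Nat.find_spec hex).1
    have hbefore : ∀ t < j, (η.letter t).1 = i₀ := by
      intro t ht
      by_contra hc
      exact Nat.find_min hex ht ⟨lt_trans ht hjR, hc⟩
    have e : R = (j + 1) + (R - (j + 1)) := by omega
    have h1 : ∑ t ∈ Finset.range R, wt i₀ η t = ∑ t ∈ Finset.range (j + 1), wt i₀ η t +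
        ∑ t ∈ Finset.range (R - (j + 1)), wt i₀ η (j + 1 + t) := by
      conv_lhs => rw [e]
      exact Finset.sum_range_add _ _ _
    have h2 : ∑ t ∈ Finset.range (j + 1), wt i₀ η t ≤ 1 := by
      rw [Finset.sum_range_succ]
      have : ∑ t ∈ Finset.range j, wt i₀ η t = 0 := by
        apply Finset.sum_eq_zero
        intro t ht
        unfold wt
        rw [if_pos (hbefore t (Finset.mem_range.1 ht))]
      rw [this, zero_add]
      unfold wt
      split_ifs <;> norm_num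
    have h3 : ∀ t, wt i₀ (η.drop (j + 1)) t = wt i₀ η (j + 1 + t) := fun t => rfl
    simp only [h3]
    linarith

lemma run_eq (i₀ : Fin N) (η : Boundary N) (j : ℕ) (h : ∀ t < j, (η.letter t).1 = i₀) :
    ∃ m : ℤ, |m| = j ∧ (FreeGroup.mk (η.take j) : F N) = (FreeGroup.of i₀) ^ m := by
  have hall : ∀ t < j, η.letter t = η.letter 0 := by
    intro t
    induction t with
    | zero => intro _; rfl
    | succ t ih =>
      intro ht
      rw [← ih (by omega)]
      have h3 := η.letter_succ_ne t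
      have h4 := h t (by omega)
      have h5 := h (t + 1) ht
      apply Prod.ext
      · rw [h4, h5]
      · by_contra hc
        apply h3
        apply Prod.ext
        · rw [bar_fst, h4, h5]
        · rw [bar_snd]
          revert hc
          cases (η.letter (t + 1)).2 <;> cases (η.letter t).2 <;> simp
  have htake : η.take j = List.replicate j (η.letter 0) := by
    apply List.ext_getElem
    · simp
    · intro i h1 h2
      rw [Boundary.take_getElem, List.getElem_replicate]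
      exact hall i (by simpa using h1)
  have hpow : (FreeGroup.mk (List.replicate j (η.letter 0)) : F N) =
      (FreeGroup.mk [η.letter 0]) ^ j := by
    rw [FreeGroup.pow_mk, List.flatten_replicate_singleton]
  rcases Nat.eq_zero_or_pos j with rfl | hj
  · exact ⟨0, by simp, by rw [htake, hpow, pow_zero, zpow_zero]⟩
  · have h0 : (η.letter 0).1 = i₀ := h 0 hj
    cases hs : (η.letter 0).2 with
    | true =>
      have hx : η.letter 0 = (i₀, true) := Prod.ext h0 hs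
      refine ⟨j, by simp, ?_⟩
      rw [htake, hpow, hx, zpow_natCast]; rfl
    | false =>
      have hx : η.letter 0 = (i₀, false) := Prod.ext h0 hs
      refine ⟨-j, by simp, ?_⟩
      rw [htake, hpow, hx, zpow_neg, zpow_natCast, ← inv_pow]; rfl

lemma pass2_of_window {i₀ : Fin N} {g : F N} {ξ η : Boundary N} (hl : IsLine g ξ η)
    (hne : ξ.letter 0 ≠ η.letter 0) (R : ℕ) (h : 2 < ∑ t ∈ Finset.range R, wt i₀ η t) :
    ∃ (y₁ y₂ y₃ : Fin N × Bool) (m₁ m₂ : ℤ), Pass2 i₀ g y₁ m₁ y₂ m₂ y₃ ∧ y₁.1 ≠ i₀ ∧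
      y₂.1 ≠ i₀ ∧ y₃.1 ≠ i₀ ∧ (m₁ = 0 → y₂ ≠ bar y₁) ∧ (m₂ = 0 → y₃ ≠ bar y₂) ∧
      |m₁| ≤ R ∧ |m₂| ≤ R := by
  obtain ⟨j₁, hj₁R, hj₁, _, hs₁⟩ := first_nc i₀ η R 2 (by norm_num) h
  obtain ⟨j₂, hj₂R, hj₂, hrun₂, hs₂⟩ := first_nc i₀ (η.drop (j₁ + 1)) (R - (j₁ + 1)) 1
    (by norm_num) (by linarith)
  obtain ⟨j₃, hj₃R, hj₃, hrun₃, _⟩ := first_nc i₀ ((η.drop (j₁ + 1)).drop (j₂ + 1))
    (R - (j₁ + 1) - (j₂ + 1)) 0 (by norm_num) (by linarith)
  obtain ⟨m₁, hm₁, he₁⟩ := run_eq i₀ (η.drop (j₁ + 1)) j₂ hrun₂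
  obtain ⟨m₂, hm₂, he₂⟩ := run_eq i₀ ((η.drop (j₁ + 1)).drop (j₂ + 1)) j₃ hrun₃
  refine ⟨η.letter j₁, (η.drop (j₁ + 1)).letter j₂,
    ((η.drop (j₁ + 1)).drop (j₂ + 1)).letter j₃, m₁, m₂, ?_, hj₁, hj₂, hj₃, ?_, ?_, ?_, ?_⟩
  · have hv : (FreeGroup.mk (η.take ((j₁ + 1) + (j₂ + 1))) : F N) =
        FreeGroup.mk (η.take (j₁ + 1)) * (FreeGroup.of i₀) ^ m₁ *
          FreeGroup.mk [(η.drop (j₁ + 1)).letter j₂] := by
      rw [Boundary.take_add, Boundary.take_succ (η.drop (j₁ + 1)), ← FreeGroup.mul_mk,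
        ← FreeGroup.mul_mk, he₁, mul_assoc]
    refine ⟨_, _, hl.smul (FreeGroup.mk (η.take ((j₁ + 1) + (j₂ + 1))))⁻¹, ?_, ?_, ?_⟩
    · rw [back_letter hne _ 0 (by omega)]
      congr 1
    · rw [fwd_smul]
      have h1 : η.drop ((j₁ + 1) + (j₂ + 1)) = (η.drop (j₁ + 1)).drop (j₂ + 1) := by
        apply Boundary.ext
        intro n
        simp only [Boundary.drop_letter]
        congr 1
        ring
      rw [h1]
      have h2 := Boundary.take_smul_drop ((η.drop (j₁ + 1)).drop (j₂ + 1)) j₃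
      rw [he₂] at h2
      rw [← h2, ← mul_smul, ← zpow_add, neg_add_cancel, zpow_zero, one_smul]
      rw [h2]
      simp
    · rw [← mul_smul, ← mul_smul, hv]
      have e : (FreeGroup.of i₀ : F N) ^ m₁ * FreeGroup.mk [(η.drop (j₁ + 1)).letter j₂] *
          (FreeGroup.mk (η.take (j₁ + 1)) * (FreeGroup.of i₀) ^ m₁ *
            FreeGroup.mk [(η.drop (j₁ + 1)).letter j₂])⁻¹ =
          (FreeGroup.mk (η.take (j₁ + 1)))⁻¹ := by group
      rw [e, back_letter hne _ 0 (by omega)]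
      congr 1
  · intro h0
    rw [h0] at hm₁
    have : j₂ = 0 := by simpa using hm₁.symm
    subst this
    exact η.letter_succ_ne j₁
  · intro h0
    rw [h0] at hm₂
    have : j₃ = 0 := by simpa using hm₂.symm
    subst this
    exact (η.drop (j₁ + 1)).letter_succ_ne j₂
  · rw [hm₁]; exact_mod_cast (show j₂ ≤ R by omega)
  · rw [hm₂]; exact_mod_cast (show j₃ ≤ R by omega)

lemma pass2_of_word {i₀ : Fin N} (k : List (Fin N × Bool)) (hk : FreeGroup.IsCyclicallyReduced k)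
    (hne : k ≠ []) (R i : ℕ) (h : 2 < ∑ t ∈ Finset.range R, nc k hk hne i₀ (i + t)) :
    ∃ (y₁ y₂ y₃ : Fin N × Bool) (m₁ m₂ : ℤ), Pass2 i₀ (FreeGroup.mk k) y₁ m₁ y₂ m₂ y₃ ∧
      y₁.1 ≠ i₀ ∧ y₂.1 ≠ i₀ ∧ y₃.1 ≠ i₀ ∧ (m₁ = 0 → y₂ ≠ bar y₁) ∧ (m₂ = 0 → y₃ ≠ bar y₂) ∧
      |m₁| ≤ R ∧ |m₂| ≤ R := by
  apply pass2_of_window (lineAt_isLine k hk hne i) (lineAt_mem_C₁ k hk hne i) R
  rw [lineAt_snd]
  exact h

end Pool.Agent.H82.SR
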