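import Pool.Agent.H82.SR.Turns
import Pool.Agent.H82.SR.Window

set_option autoImplicit false

/-!
# Forbidden turns
-/

namespace Pool.Agent.H82.SR

open Filter Topology

variable {N : ℕ}

section Alpha

variable (i₀ i₁ i₂ : Fin N)

/-- exponents of the last twist -/
def rα (x : Fin N × Bool) : ℤ :=
  if x = (i₁, true) then 1 else if x = (i₂, true) then -1 else 0

lemma rα_bar_of_ne {x : Fin N × Bool} (h1 : x ≠ (i₁, false)) (h2 : x ≠ (i₂, false)) :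
    rα i₁ i₂ (bar x) = 0 := by
  unfold rα
  rw [if_neg, if_neg]
  · intro h; apply h2; rw [← bar_bar x, h]; rfl
  · intro h; apply h1; rw [← bar_bar x, h]; rfl

lemma rα_b : rα i₁ i₂ (bar (i₁, false)) = 1 := by
  simp [rα, bar]

lemma rα_d (h12 : i₁ ≠ i₂) : rα i₁ i₂ (bar (i₂, false)) = -1 := by
  have : ((i₂, true) : Fin N × Bool) ≠ (i₁, true) := fun h => h12 (congrArg Prod.fst h).symm
  simp [rα, bar, this]

/-- image of directions -/
def fα (x : Fin N × Bool) : Fin N × Bool :=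
  if x = (i₁, false) then (i₀, false) else if x = (i₂, false) then (i₀, true) else x

lemma alpha_letter (h12 : i₁ ≠ i₂) {ξ : Boundary N} (hξ : (ξ.letter 0).1 ≠ i₀) :
    (bdMap (twist i₀ (rα i₁ i₂)) ξ).letter 0 = fα i₀ i₁ i₂ (ξ.letter 0) := by
  have h1 := twist_letter_zero i₀ (rα i₁ i₂) ξ _ hξ rfl
  set ζ := (FreeGroup.of i₀ : F N) ^ (rα i₁ i₂ (bar (ξ.letter 0))) •
    bdMap (twist i₀ (rα i₁ i₂)) ξ with hζ
  have h2 : bdMap (twist i₀ (rα i₁ i₂)) ξ =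
      (FreeGroup.of i₀ : F N) ^ (-(rα i₁ i₂ (bar (ξ.letter 0)))) • ζ := by
    rw [hζ, ← mul_smul, ← zpow_add]; simp
  rw [h2]
  unfold fα
  split_ifs with ha hb
  · rw [ha, rα_b, zpow_smul_letter_zero (by rw [h1]; exact hξ) (by norm_num)]
    rfl
  · rw [hb, rα_d i₁ i₂ h12, zpow_smul_letter_zero (by rw [h1]; exact hξ) (by norm_num)]
    rfl
  · rw [rα_bar_of_ne i₁ i₂ ha hb, neg_zero, zpow_zero, one_smul, h1]

lemma alpha_turn (h12 : i₁ ≠ i₂) {g : F N} {x z : Fin N × Bool} (hx : x.1 ≠ i₀) (hz : z.1 ≠ i₀)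
    (h : Turn g x z) :
    Turn (twist i₀ (rα i₁ i₂) g) (fα i₀ i₁ i₂ x) (fα i₀ i₁ i₂ z) := by
  obtain ⟨ξ, η, hl, rfl, rfl⟩ := h
  exact ⟨_, _, hl.map _, alpha_letter i₀ i₁ i₂ h12 hx, alpha_letter i₀ i₁ i₂ h12 hz⟩

lemma alpha_turn_b (h10 : i₁ ≠ i₀) {g : F N} {z : Fin N × Bool} (hz : z.1 ≠ i₀)
    (hzb : z ≠ (i₁, false)) (h : Turn g (i₁, false) z) :
    Turn (twist i₀ (rα i₁ i₂) g) (i₁, false) (i₀, true) := by
  obtain ⟨ξ, η, hl, hξ, rfl⟩ := h
  have h1 := twist_letter_zero i₀ (rα i₁ i₂) ξ _ (by simpa using h10) hξ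
  rw [rα_b] at h1
  refine ⟨_, _, (hl.map (twist i₀ (rα i₁ i₂))).smul ((FreeGroup.of i₀) ^ (1 : ℤ)), h1, ?_⟩
  have h2 := twist_letter_zero i₀ (rα i₁ i₂) η _ hz rfl
  set ζ := (FreeGroup.of i₀ : F N) ^ (rα i₁ i₂ (bar (η.letter 0))) •
    bdMap (twist i₀ (rα i₁ i₂)) η with hζ
  have h3 : bdMap (twist i₀ (rα i₁ i₂)) η =
      (FreeGroup.of i₀ : F N) ^ (-(rα i₁ i₂ (bar (η.letter 0)))) • ζ := by
    rw [hζ, ← mul_smul, ← zpow_add]; simp
  have h4 : rα i₁ i₂ (bar (η.letter 0)) ≤ 0 := by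
    unfold rα
    have : bar (η.letter 0) ≠ (i₁, true) := by
      intro h; apply hzb; rw [← bar_bar (η.letter 0), h]; rfl
    rw [if_neg this]
    split_ifs <;> norm_num
  rw [h3, ← mul_smul, ← zpow_add, zpow_smul_letter_zero (by rw [h2]; exact hz) (by omega)]
  congr 1
  simp; omega

lemma alpha_turn_d (h12 : i₁ ≠ i₂) (h20 : i₂ ≠ i₀) {g : F N} {z : Fin N × Bool} (hz : z.1 ≠ i₀)
    (hzd : z ≠ (i₂, false)) (h : Turn g (i₂, false) z) :
    Turn (twist i₀ (rα i₁ i₂) g) (i₂, false) (i₀, false) := by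
  obtain ⟨ξ, η, hl, hξ, rfl⟩ := h
  have h1 := twist_letter_zero i₀ (rα i₁ i₂) ξ _ (by simpa using h20) hξ
  rw [rα_d i₁ i₂ h12] at h1
  refine ⟨_, _, (hl.map (twist i₀ (rα i₁ i₂))).smul ((FreeGroup.of i₀) ^ (-1 : ℤ)), h1, ?_⟩
  have h2 := twist_letter_zero i₀ (rα i₁ i₂) η _ hz rfl
  set ζ := (FreeGroup.of i₀ : F N) ^ (rα i₁ i₂ (bar (η.letter 0))) •
    bdMap (twist i₀ (rα i₁ i₂)) η with hζ
  have h3 : bdMap (twist i₀ (rα i₁ i₂)) η =
      (FreeGroup.of i₀ : F N) ^ (-(rα i₁ i₂ (bar (η.letter 0)))) • ζ := by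
    rw [hζ, ← mul_smul, ← zpow_add]; simp
  have h4 : 0 ≤ rα i₁ i₂ (bar (η.letter 0)) := by
    unfold rα
    have : bar (η.letter 0) ≠ (i₂, true) := by
      intro h; apply hzd; rw [← bar_bar (η.letter 0), h]; rfl
    simp only [this, if_false]
    split_ifs <;> norm_num
  rw [h3, ← mul_smul, ← zpow_add, zpow_smul_letter_zero (by rw [h2]; exact hz) (by omega)]
  congr 1
  simp; omega

/-- The combinatorial heart: a primitive element whose turns contain all the turns coming from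
the universal word cannot take the turn `{b⁻¹, d⁻¹}`. -/
lemma no_turn (hN : 2 ≤ N) (h10 : i₁ ≠ i₀) (h20 : i₂ ≠ i₀) (h12 : i₁ ≠ i₂) {g : F N}
    (hprim : IsPrimitive (twist i₀ (rα i₁ i₂) g))
    (hall : ∀ x z : Fin N × Bool, x.1 ≠ i₀ → z.1 ≠ i₀ → x ≠ z → Turn g x z) :
    ¬ Turn (twist i₀ (rα i₁ i₂) g) (i₁, false) (i₂, false) := by
  intro hBD
  set g' := twist i₀ (rα i₁ i₂) g with hg'
  obtain ⟨κ, x, ⟨y, z, hy, hz, hκy, hκz⟩, hκ⟩ := whitehead hN hprim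
  have hBd : ((i₁, false) : Fin N × Bool) ≠ (i₂, true) := fun h => h12 (congrArg Prod.fst h)
  have hDb : ((i₂, false) : Fin N × Bool) ≠ (i₁, true) := fun h => h12 (congrArg Prod.fst h).symm
  have hBDne : ((i₁, false) : Fin N × Bool) ≠ (i₂, false) := fun h => h12 (congrArg Prod.fst h)
  -- all turns between letters other than `B, D`
  have hV : ∀ a b : Fin N × Bool, a ≠ (i₁, false) → a ≠ (i₂, false) → b ≠ (i₁, false) →
      b ≠ (i₂, false) → a ≠ b → Turn g' a b := by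
    have hpre : ∀ a : Fin N × Bool, a ≠ (i₁, false) → a ≠ (i₂, false) →
        ∃ a' : Fin N × Bool, a'.1 ≠ i₀ ∧ fα i₀ i₁ i₂ a' = a := by
      intro a h1 h2
      by_cases ha : a.1 = i₀
      · obtain ⟨j, s⟩ := a
        simp only at ha
        subst ha
        cases s
        · exact ⟨(i₁, false), h10, by simp [fα]⟩
        · refine ⟨(i₂, false), h20, ?_⟩
          unfold fα
          rw [if_neg hBDne.symm, if_pos rfl]
      · exact ⟨a, ha, by unfold fα; rw [if_neg h1, if_neg h2]⟩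
    intro a b ha1 ha2 hb1 hb2 hab
    obtain ⟨a', ha', rfl⟩ := hpre a ha1 ha2
    obtain ⟨b', hb', rfl⟩ := hpre b hb1 hb2
    apply alpha_turn i₀ i₁ i₂ h12 ha' hb'
    apply hall a' b' ha' hb'
    rintro rfl
    exact hab rfl
  have hBc : Turn g' (i₁, false) (i₀, true) := by
    apply alpha_turn_b i₀ i₁ i₂ h10 (z := (i₁, true)) h10 (by simp)
    exact hall _ _ h10 h10 (by simp)
  have hDC : Turn g' (i₂, false) (i₀, false) := by
    apply alpha_turn_d i₀ i₁ i₂ h12 h20 (z := (i₂, true)) h20 (by simp)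
    exact hall _ _ h20 h20 (by simp)
  -- a reference letter
  have hne0 : ∀ s t : Bool, ((i₀, s) : Fin N × Bool) ≠ (i₁, t) := fun s t h =>
    h10 (congrArg Prod.fst h).symm
  have hne0' : ∀ s t : Bool, ((i₀, s) : Fin N × Bool) ≠ (i₂, t) := fun s t h =>
    h20 (congrArg Prod.fst h).symm
  obtain ⟨w, hwx, hwB, hwD⟩ : ∃ w : Fin N × Bool, w ≠ x ∧ w ≠ (i₁, false) ∧ w ≠ (i₂, false) := by
    by_cases h : x = (i₀, true)
    · exact ⟨(i₀, false), by rw [h]; simp, hne0 _ _, hne0' _ _⟩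
    · exact ⟨(i₀, true), fun h' => h h'.symm, hne0 _ _, hne0' _ _⟩
  have hV' : ∀ a : Fin N × Bool, a ≠ x → a ≠ (i₁, false) → a ≠ (i₂, false) → (κ a ↔ κ w) := by
    intro a ha h1 h2
    by_cases haw : a = w
    · rw [haw]
    · exact hκ a w (hV a w h1 h2 hwB hwD haw) ha hwx
  have hcon : ∀ a : Fin N × Bool, a ≠ x → (κ a ↔ κ w) := by
    intro a ha
    by_cases h1 : a = (i₁, false)
    · subst h1
      by_cases hxc : x = (i₀, true)
      · have hDx : ((i₂, false) : Fin N × Bool) ≠ x := by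
          rw [hxc]; exact (hne0' _ _).symm
        have hCx : ((i₀, false) : Fin N × Bool) ≠ x := by
          rw [hxc]; simp
        rw [hκ _ _ hBD ha hDx, hκ _ _ hDC hDx hCx]
        exact hV' _ hCx (hne0 _ _) (hne0' _ _)
      · have hcx : ((i₀, true) : Fin N × Bool) ≠ x := fun h => hxc h.symm
        rw [hκ _ _ hBc ha hcx]
        exact hV' _ hcx (hne0 _ _) (hne0' _ _)
    · by_cases h2 : a = (i₂, false)
      · subst h2
        by_cases hxC : x = (i₀, false)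
        · have hBx : ((i₁, false) : Fin N × Bool) ≠ x := by
            rw [hxC]; exact (hne0 _ _).symm
          have hcx : ((i₀, true) : Fin N × Bool) ≠ x := by
            rw [hxC]; simp
          rw [hκ _ _ hBD.symm ha hBx, hκ _ _ hBc hBx hcx]
          exact hV' _ hcx (hne0 _ _) (hne0' _ _)
        · have hCx : ((i₀, false) : Fin N × Bool) ≠ x := fun h => hxC h.symm
          rw [hκ _ _ hDC ha hCx]
          exact hV' _ hCx (hne0 _ _) (hne0' _ _)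
      · exact hV' a ha h1 h2
  rw [hcon y hy] at hκy
  rw [hcon z hz] at hκz
  exact hκz hκy

end Alpha

/-- exponents of the big twist -/
def rD (n : ℤ) (x : Fin N × Bool) : ℤ := n * (2 * (x.1 : ℕ) + (if x.2 then 1 else 0) : ℕ)

lemma rD_sep (n : ℤ) (hn : 0 ≤ n) (y z : Fin N × Bool) (h : y ≠ z) :
    n ≤ |rD n y - rD n z| := by
  unfold rD
  rw [← mul_sub, abs_mul, abs_of_nonneg hn]
  have h1 : (2 * (y.1 : ℕ) + (if y.2 then 1 else 0) : ℕ) ≠
      (2 * (z.1 : ℕ) + (if z.2 then 1 else 0) : ℕ) := by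
    intro h2
    apply h
    have h5 : (y.1 : ℕ) = (z.1 : ℕ) ∧ y.2 = z.2 := by
      revert h2
      cases y.2 <;> cases z.2 <;> simp <;> omega
    exact Prod.ext (Fin.ext h5.1) h5.2
  have h3 : 1 ≤ |((2 * (y.1 : ℕ) + (if y.2 then 1 else 0) : ℕ) : ℤ) -
      ((2 * (z.1 : ℕ) + (if z.2 then 1 else 0) : ℕ) : ℤ)| := by
    apply Int.one_le_abs
    intro h4
    apply h1
    have : ((2 * (y.1 : ℕ) + (if y.2 then 1 else 0) : ℕ) : ℤ) =
      ((2 * (z.1 : ℕ) + (if z.2 then 1 else 0) : ℕ) : ℤ) := by linarith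
    exact_mod_cast this
  nlinarith

/-- the data extracted from a window -/
def HasWindow (i₀ : Fin N) (R : ℕ) (g : F N) : Prop :=
  ∃ (y₁ y₂ y₃ : Fin N × Bool) (m₁ m₂ : ℤ), Pass2 i₀ g y₁ m₁ y₂ m₂ y₃ ∧
      y₁.1 ≠ i₀ ∧ y₂.1 ≠ i₀ ∧ y₃.1 ≠ i₀ ∧ (m₁ = 0 → y₂ ≠ bar y₁) ∧ (m₂ = 0 → y₃ ≠ bar y₂) ∧
      |m₁| ≤ R ∧ |m₂| ≤ R

/-- Rank at least three: an automorphism making the turn `{b⁻¹, d⁻¹}` forbidden for all primitive
elements with a window. -/
theorem exists_aut_three {i₀ i₁ i₂ : Fin N} (h10 : i₁ ≠ i₀) (h20 : i₂ ≠ i₀) (h12 : i₁ ≠ i₂)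
    (R : ℕ) : ∃ φ : F N ≃* F N, ∀ g : F N, IsPrimitive g → HasWindow i₀ R g →
      ¬ Turn (φ g) (i₁, false) (i₂, false) := by
  have hN : 2 ≤ N := by
    have h1 := i₀.2
    have h2 := i₁.2
    have h3 : (i₁ : ℕ) ≠ (i₀ : ℕ) := fun h => h10 (Fin.ext h)
    omega
  obtain ⟨u, hu1, hu2, hu3, hu4, hu5⟩ := exists_universal i₀ i₁ i₂ h10 h20 h12
  have hcu : CFree i₀ (FreeGroup.mk u : F N) := CFree.mk hu2
  have hcb : CFree i₀ (FreeGroup.of i₁ : F N) := by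
    intro x hx
    rw [FreeGroup.toWord_of] at hx
    simp only [List.mem_singleton] at hx
    rw [hx]; exact h10
  have hP : CFree i₀ (FreeGroup.of i₁ * FreeGroup.mk u : F N) := hcb.mul hcu
  have hQ : CFree i₀ (FreeGroup.mk u * FreeGroup.of i₁ : F N) := hcu.mul hcb
  let n : ℤ := R + 2
  let D := twist i₀ (rD (N := N) n)
  let ρ := rho i₀ _ _ hP hQ
  let α := twist i₀ (rα i₁ i₂)
  refine ⟨(D.trans ρ).trans α, ?_⟩
  rintro g hg ⟨y₁, y₂, y₃, m₁, m₂, hpass, h1, h2, h3, h4, h5, h6, h7⟩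
  have htarget : Target i₀ (D g) :=
    hpass.target h1 h2 h3 h4 h5 (rD n) n R h6 h7 le_rfl
      (fun y z _ _ hyz => rD_sep n (by omega) y z hyz)
  obtain ⟨ξ, η, hl, hξ, hη⟩ := rho_target h12 hu1 hu3 hu4 h10 h20 hP hQ htarget
  have hturns := all_turns hl hξ hη hu3 hu5
  have hprim : IsPrimitive (α (ρ (D g))) := ((hg.map D).map ρ).map α
  exact no_turn i₀ i₁ i₂ hN h10 h20 h12 hprim hturns

end Pool.Agent.H82.SR
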