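import Pool.Agent.H82.SR.Subst
import Pool.Agent.H82.SR.Near2

set_option autoImplicit false

/-!
# Spectral rigidity implies density
-/

namespace Pool.Agent.H82.SR

open Filter Topology

variable {N : ℕ}

lemma IsLine.conj {g : F N} {ξ η : Boundary N} (h : IsLine g ξ η) (x : F N) :
    IsLine (x * g * x⁻¹) ξ η := by
  obtain ⟨h, a, b, h1, h2, h3⟩ := h
  refine ⟨h * x⁻¹, x • a, x • b, ?_, h2.conj x, ?_⟩
  · have e : (x * g * x⁻¹)⁻¹ = x * g⁻¹ * x⁻¹ := by group
    rw [e]; exact h1.conj x
  · simp only [mul_smul, inv_smul_smul]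
    exact h3

lemma HasWindow.conj {i₀ : Fin N} {R : ℕ} {g : F N} (h : HasWindow i₀ R g) (x : F N) :
    HasWindow i₀ R (x * g * x⁻¹) := by
  obtain ⟨y₁, y₂, y₃, m₁, m₂, ⟨ξ, η, hl, hrest⟩, hrest2⟩ := h
  exact ⟨y₁, y₂, y₃, m₁, m₂, ⟨ξ, η, hl.conj x, hrest⟩, hrest2⟩

lemma sigma_bar {i₀ i₁ : Fin N} (h10 : i₁ ≠ i₀) (hall : ∀ j : Fin N, j = i₀ ∨ j = i₁) (g : F N) :
    sigma (i₁, false) (i₀, false) g =
      FreeGroup.of i₀ * sigma (i₁, true) (i₀, true) g * (FreeGroup.of i₀)⁻¹ := by
  have h : (sigma (i₁, false) (i₀, false)).toMonoidHom =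
      (MulAut.conj (FreeGroup.of i₀)).toMonoidHom.comp
        (sigma (i₁, true) (i₀, true)).toMonoidHom := by
    apply FreeGroup.ext_hom
    intro j
    change sigma (i₁, false) (i₀, false) (FreeGroup.of j) =
      FreeGroup.of i₀ * sigma (i₁, true) (i₀, true) (FreeGroup.of j) * (FreeGroup.of i₀)⁻¹
    rcases hall j with rfl | rfl
    · unfold sigma
      simp only
      rw [twist_gen, twist_gen]
      group
    · have e : (FreeGroup.of j : F N) = FreeGroup.mk [(j, true)] := rfl
      rw [e, sigma_letter (by simpa using h10), sigma_letter (by simpa using h10)]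
      have e1 : sub (j, false) (i₀, false) (j, true) = [(i₀, true), (j, true)] := by
        simp [sub, bar]
      have e2 : sub (j, true) (i₀, true) (j, true) = [(j, true), (i₀, true)] := by
        simp [sub]
      rw [e1, e2]
      have e3 : (FreeGroup.mk [(i₀, true), (j, true)] : F N) = FreeGroup.of i₀ * FreeGroup.of j := by
        rfl
      have e4 : (FreeGroup.mk [(j, true), (i₀, true)] : F N) = FreeGroup.of j * FreeGroup.of i₀ := by
        rfl
      rw [e3, e4]
      group
  have := DFunLike.congr_fun h g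
  exact this

/-- A family of primitive elements with a uniform window is not spectrally rigid. -/
lemma not_rigid (hN : 2 ≤ N) {S : Set (F N)} (hS : ∀ g ∈ S, IsPrimitive g) (θ : F N ≃* F N)
    {i₀ i₁ : Fin N} (h10 : i₁ ≠ i₀) (R : ℕ)
    (hwin : ∀ g ∈ S, HasWindow i₀ R (θ g)) : ¬ SpectrallyRigid S := by
  intro hrig
  -- common end of the argument
  have final : ∀ (Ψ : F N ≃* F N) (b x : Fin N × Bool), b.1 ≠ x.1 →
      (∀ g ∈ S, (cayley hN (wb b) (wb_pos b)).length (Ψ g) =
        (cayley hN (fun _ => 1) (fun _ => one_pos)).length (sigma b x (Ψ g))) → False := by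
    intro Ψ b x hbx hlen
    have h2 := hrig.length_eq ((cayley hN (wb b) (wb_pos b)).twist Ψ)
      ((cayley hN (fun _ => 1) (fun _ => one_pos)).twist (Ψ.trans (sigma b x))) hlen
      (Ψ.symm (FreeGroup.mk [b, bar x]))
    rw [OuterPoint.twist_length, OuterPoint.twist_length] at h2
    have e : (Ψ.trans (sigma b x)) (Ψ.symm (FreeGroup.mk [b, bar x])) =
        sigma b x (FreeGroup.mk [b, bar x]) := by
      change sigma b x (Ψ (Ψ.symm (FreeGroup.mk [b, bar x]))) = _
      rw [MulEquiv.apply_symm_apply]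
    rw [e, MulEquiv.apply_symm_apply] at h2
    exact length_ne hN hbx h2
  by_cases hall : ∀ j : Fin N, j = i₀ ∨ j = i₁
  · obtain ⟨φ, hφ⟩ := exists_aut_two h10 hall R
    apply final (θ.trans φ) (i₁, true) (i₀, true) h10
    intro g hg
    have hprim : IsPrimitive (φ (θ g)) := ((hS g hg).map θ).map φ
    change (cayley hN _ _).length (φ (θ g)) = (cayley hN _ _).length (sigma _ _ (φ (θ g)))
    rcases hφ (θ g) ((hS g hg).map θ) (hwin g hg) with h | h
    · exact length_eq hN h10 hprim.ne_one h
    · have h1 := length_eq hN (b := (i₁, false)) (x := (i₀, false)) h10 hprim.ne_one h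
      rw [sigma_bar h10 hall, OuterPoint.length_conj] at h1
      exact h1
  · push Not at hall
    obtain ⟨i₂, h20, h21⟩ := hall
    obtain ⟨φ, hφ⟩ := exists_aut_three h10 h20 h21.symm R
    apply final (θ.trans φ) (i₁, true) (i₂, true) h21.symm
    intro g hg
    have hprim : IsPrimitive (φ (θ g)) := ((hS g hg).map θ).map φ
    exact length_eq hN h21.symm hprim.ne_one (hφ (θ g) ((hS g hg).map θ) (hwin g hg))

/-- **Main theorem.** -/
theorem dense_of_rigid (hN : 2 ≤ N) (S : Set (F N)) (hS : ∀ g ∈ S, IsPrimitive g)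
    (hrig : SpectrallyRigid S) : closure (countingClasses S) = MSpace N := by
  apply subset_antisymm
  · apply closure_mono
    rintro _ ⟨g, hg, hne, rfl⟩
    exact ⟨g, hS g hg, hne, rfl⟩
  · apply closure_minimal _ isClosed_closure
    rintro _ ⟨g₀, hg₀, hne₀, rfl⟩
    by_contra hcon
    let i₀ : Fin N := ⟨0, by omega⟩
    let i₁ : Fin N := ⟨1, by omega⟩
    have h10 : i₁ ≠ i₀ := by simp [i₀, i₁, Fin.ext_iff]
    obtain ⟨θ, hθ⟩ := IsPrimitive.exists_equiv hg₀ i₀
    have hof : (FreeGroup.mk [(i₀, true)] : F N) ≠ 1 :=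
      mk_ne_one [(i₀, true)] (by simp) (by simp)
    obtain ⟨R, hR⟩ := near_generator i₀ (pushP θ ⁻¹' (closure (countingClasses S))ᶜ)
      (isClosed_closure.isOpen_compl.preimage (continuous_pushP θ)) (by
        rw [Set.mem_preimage, pushP_projCounting]
        rw [projCounting_congr (map_ne_one θ hof) hne₀ hθ]
        exact hcon)
    refine not_rigid hN hS θ.symm h10 R ?_ hrig
    intro g hg
    have hgne : θ.symm g ≠ 1 := map_ne_one θ.symm (hS g hg).ne_one
    obtain ⟨h, k, hk, hne, e⟩ := exists_cyc (θ.symm g) hgne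
    rw [e]
    apply HasWindow.conj
    by_contra hno
    have h1 := hR k hk hne (by
      intro i
      by_contra hlt
      push Not at hlt
      exact hno (pass2_of_word k hk hne R i hlt))
    apply h1
    apply subset_closure
    refine ⟨g, hg, (hS g hg).ne_one, ?_⟩
    have hkne := mk_ne_one k hk hne
    have h2 : projCounting (FreeGroup.mk k) hkne = projCounting (θ.symm g) hgne := by
      have h3 : h * FreeGroup.mk k * h⁻¹ ≠ 1 := by rw [← e]; exact hgne
      rw [← projCounting_conj (FreeGroup.mk k) hkne h h3]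
      exact projCounting_congr _ _ e.symm
    rw [h2, pushP_projCounting]
    exact projCounting_congr _ _ (by simp)

end Pool.Agent.H82.SR
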