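import Pool.Agent.H82.SR.Push

set_option autoImplicit false

/-!
# Neighbourhoods of the class of a basis element in `ℙCurr(F_N)`
-/

namespace Pool.Agent.H82.SR

open Filter Topology MeasureTheory

variable {N : ℕ}

instance (μ : Current N) : μ.toMeasure.Regular := μ.regular

lemma integrable_current (μ : Current N) {f : PairSpace N → ℝ} (hf : Continuous f)
    (hc : HasCompactSupport f) : Integrable f μ.toMeasure :=
  hf.integrable_of_hasCompactSupport hc

section Sum

variable (k : List (Fin N × Bool)) (hk : FreeGroup.IsCyclicallyReduced k) (hne : k ≠ [])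

/-- The translate of the axis of `k` based at its `j`-th vertex. -/
noncomputable def lineAt (j : ℕ) : PairSpace N :=
  (FreeGroup.mk ((per k hk hne).take j))⁻¹ • axisPair (FreeGroup.mk k) (mk_ne_one k hk hne)

lemma lineAt_add (j m : ℕ) : lineAt k hk hne (m * k.length + j) = lineAt k hk hne j := by
  unfold lineAt
  rw [mk_per_take_mul_add, mul_inv_rev, mul_smul]
  congr 1
  rw [inv_smul_eq_iff]
  have := axisPair_zpow_smul (FreeGroup.mk k) (mk_ne_one k hk hne) (m : ℤ)
  rw [zpow_natCast] at this
  exact this.symm

lemma lineAt_snd (j : ℕ) : (lineAt k hk hne j).1.2 = (per k hk hne).drop j := by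
  unfold lineAt
  rw [smul_snd, axisPair_mk k hk hne, fwd_smul]

lemma lineAt_fst_letter (j i : ℕ) (hi : i < j) :
    (lineAt k hk hne j).1.1.letter i = bar ((per k hk hne).letter (j - 1 - i)) := by
  unfold lineAt
  rw [smul_fst]
  apply back_letter _ j i hi
  have := axisPair_mk_mem_C₁ k hk hne (mk_ne_one k hk hne)
  change (axisPair (FreeGroup.mk k) _).1.1.letter 0 ≠ (axisPair (FreeGroup.mk k) _).1.2.letter 0
    at this
  rw [axisPair_mk k hk hne] at this
  exact this

lemma lineAt_isLine (j : ℕ) : IsLine (FreeGroup.mk k) (lineAt k hk hne j).1.1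
    (lineAt k hk hne j).1.2 :=
  (axisPair_line _ _).smul _

lemma lineAt_mem_C₁ (j : ℕ) : lineAt k hk hne j ∈ C₁ N := by
  have hL : 0 < k.length := List.length_pos_iff.2 hne
  rw [← lineAt_add k hk hne j 1]
  change (lineAt k hk hne (1 * k.length + j)).1.1.letter 0 ≠
    (lineAt k hk hne (1 * k.length + j)).1.2.letter 0
  rw [lineAt_fst_letter k hk hne _ 0 (by omega), lineAt_snd, Boundary.drop_letter]
  have e : 1 * k.length + j + 0 = (1 * k.length + j - 1 - 0) + 1 := by omega
  rw [e]
  exact (Boundary.letter_succ_ne _ _).symm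

/-- The integral against a counting current of a function supported on `C₁`. -/
lemma integral_counting (f : PairSpace N → ℝ) (hf : Continuous f) (hc : HasCompactSupport f)
    (hC : ∀ p, p ∉ C₁ N → f p = 0) :
    ∫ p, f p ∂(countingCurrent (FreeGroup.mk k) (mk_ne_one k hk hne)).toMeasure =
      ∑ j ∈ Finset.range k.length, (f (lineAt k hk hne j) + f (lineAt k hk hne j).flip) := by
  classical
  have h1 : (FreeGroup.mk k : F N) ≠ 1 := mk_ne_one k hk hne
  have hint := integrable_current (countingCurrent (FreeGroup.mk k) h1) hf hc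
  have e0 : (countingCurrent (FreeGroup.mk k) h1).toMeasure =
    Measure.sum (fun q : F N ⧸ Subgroup.zpowers (FreeGroup.mk k : F N) =>
    Measure.dirac (q.out • axisPair (FreeGroup.mk k) h1) +
      Measure.dirac (q.out • (axisPair (FreeGroup.mk k) h1).flip)) := rfl
  rw [e0] at hint ⊢
  rw [integral_sum_measure hint]
  have e1 : ∀ q : F N ⧸ Subgroup.zpowers (FreeGroup.mk k : F N),
      ∫ p, f p ∂(Measure.dirac (q.out • axisPair (FreeGroup.mk k) h1) +
        Measure.dirac (q.out • (axisPair (FreeGroup.mk k) h1).flip)) =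
      f (q.out • axisPair (FreeGroup.mk k) h1) +
        f (q.out • (axisPair (FreeGroup.mk k) h1).flip) := by
    intro q
    rw [integral_add_measure, integral_dirac, integral_dirac]
    · exact integrable_dirac (by finiteness)
    · exact integrable_dirac (by finiteness)
  simp only [e1]
  rw [tsum_eq_sum (s := (Finset.range k.length).image
    (fun j => (QuotientGroup.mk (FreeGroup.mk ((per k hk hne).take j))⁻¹ :
      F N ⧸ Subgroup.zpowers (FreeGroup.mk k : F N))))]
  · rw [Finset.sum_image]
    · apply Finset.sum_congr rfl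
      intro j _
      rw [out_smul_axisPair, out_smul_axisPair_flip]
      rfl
    · intro i hi j hj he
      exact coset_injective k hk hne (Finset.mem_range.1 hi) (Finset.mem_range.1 hj) he
  · intro q hq
    induction q using QuotientGroup.induction_on with
    | H x =>
      rw [out_smul_axisPair, out_smul_axisPair_flip]
      have hx : x • axisPair (FreeGroup.mk k) h1 ∉ C₁ N := by
        intro hx
        obtain ⟨j, hj, he⟩ := coset_of_mem_C₁ k hk hne h1 x hx
        apply hq
        rw [he]
        exact Finset.mem_image.2 ⟨j, Finset.mem_range.2 hj, rfl⟩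
      rw [hC _ hx, hC, add_zero]
      rw [← flip_smul, flip_mem_C₁]
      exact hx

/-- indicator of `the `i`-th letter of `k^∞` is not `x_{i₀}^{±1}`` -/
noncomputable def nc (i₀ : Fin N) (i : ℕ) : ℝ :=
  if ((per k hk hne).letter i).1 = i₀ then 0 else 1

lemma nc_nonneg (i₀ : Fin N) (i : ℕ) : 0 ≤ nc k hk hne i₀ i := by
  unfold nc; split_ifs <;> norm_num

lemma nc_add_length (i₀ : Fin N) (i : ℕ) :
    nc k hk hne i₀ (i + k.length) = nc k hk hne i₀ i := by
  unfold nc
  rw [per_letter, per_letter]
  have : (i + k.length) % k.length = i % k.length := Nat.add_mod_right _ _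
  simp only [this]

lemma nc_sum_shift (i₀ : Fin N) (s : ℕ) :
    ∑ j ∈ Finset.range k.length, nc k hk hne i₀ (j + s) =
      ∑ j ∈ Finset.range k.length, nc k hk hne i₀ j := by
  induction s with
  | zero => simp
  | succ s ih =>
    rw [← ih]
    have h1 := Finset.sum_range_succ (fun j => nc k hk hne i₀ (j + s)) k.length
    have h2 := Finset.sum_range_succ' (fun j => nc k hk hne i₀ (j + s)) k.length
    have h3 : nc k hk hne i₀ (k.length + s) = nc k hk hne i₀ (0 + s) := by
      rw [add_comm, nc_add_length, zero_add]
    have h4 : ∀ j, j + (s + 1) = j + 1 + s := by intro j; ring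
    simp only [h4]
    linarith

/-- If every window of length `R` of `k^∞` contains at most two letters different from
`x_{i₀}^{±1}` then there are at most `2|k|/R` such letters in `k`. -/
lemma nc_sum_le (i₀ : Fin N) (R : ℕ)
    (hR : ∀ i, ∑ t ∈ Finset.range R, nc k hk hne i₀ (i + t) ≤ 2) :
    (R : ℝ) * ∑ j ∈ Finset.range k.length, nc k hk hne i₀ j ≤ 2 * k.length := by
  have h1 : ∑ j ∈ Finset.range k.length, ∑ t ∈ Finset.range R, nc k hk hne i₀ (j + t) ≤
      ∑ j ∈ Finset.range k.length, (2 : ℝ) := Finset.sum_le_sum (fun j _ => hR j)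
  rw [Finset.sum_comm] at h1
  simp only [nc_sum_shift] at h1
  simp only [Finset.sum_const, Finset.card_range, nsmul_eq_mul] at h1
  linarith

/-- closeness estimate for a single line -/
lemma line_close (i₀ : Fin N) (R' : ℕ) (hR' : 1 ≤ R') (n : ℕ) (hn : R' ≤ n)
    (hgood : ∀ t < 2 * R', nc k hk hne i₀ (n - R' + t) = 0)
    (p₀ : PairSpace N) (hp₀1 : ∀ i, p₀.1.1.letter i = (i₀, false))
    (hp₀2 : ∀ i, p₀.1.2.letter i = (i₀, true)) :
    ((lineAt k hk hne n).1.1.take R' = p₀.1.1.take R' ∧
      (lineAt k hk hne n).1.2.take R' = p₀.1.2.take R') ∨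
    ((lineAt k hk hne n).flip.1.1.take R' = p₀.1.1.take R' ∧
      (lineAt k hk hne n).flip.1.2.take R' = p₀.1.2.take R') := by
  have hgen : ∀ m, n - R' ≤ m → m < n + R' → ((per k hk hne).letter m).1 = i₀ := by
    intro m h1 h2
    have h3 := hgood (m - (n - R')) (by omega)
    have h4 : n - R' + (m - (n - R')) = m := by omega
    rw [h4] at h3
    unfold nc at h3
    by_contra hc
    rw [if_neg hc] at h3
    norm_num at h3
  have hstep : ∀ m, n - R' ≤ m → m + 1 < n + R' →
      (per k hk hne).letter (m + 1) = (per k hk hne).letter m := by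
    intro m h1 h2
    have h3 := (per k hk hne).letter_succ_ne m
    have h4 := hgen m h1 (by omega)
    have h5 := hgen (m + 1) (by omega) h2
    apply Prod.ext
    · rw [h4, h5]
    · by_contra hc
      apply h3
      apply Prod.ext
      · rw [bar_fst, h4, h5]
      · rw [bar_snd]
        revert hc
        cases ((per k hk hne).letter (m + 1)).2 <;> cases ((per k hk hne).letter m).2 <;> simp
  have hall : ∀ m, n - R' ≤ m → m < n + R' →
      (per k hk hne).letter m = (per k hk hne).letter (n - R') := by
    intro m h1
    induction m, h1 using Nat.le_induction with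
    | base => intro _; rfl
    | succ m h1 ih =>
      intro h2
      rw [hstep m h1 h2, ih (by omega)]
  have hfwd : ∀ i < R', (lineAt k hk hne n).1.2.letter i = (per k hk hne).letter (n - R') := by
    intro i hi
    rw [lineAt_snd, Boundary.drop_letter]
    exact hall _ (by omega) (by omega)
  have hbwd : ∀ i < R', (lineAt k hk hne n).1.1.letter i =
      bar ((per k hk hne).letter (n - R')) := by
    intro i hi
    rw [lineAt_fst_letter k hk hne n i (by omega), hall _ (by omega) (by omega)]
  have hg0 := hgen (n - R') le_rfl (by omega)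
  cases hs : ((per k hk hne).letter (n - R')).2 with
  | true =>
    have hx : (per k hk hne).letter (n - R') = (i₀, true) := Prod.ext hg0 hs
    left
    constructor
    · rw [Boundary.take_eq_iff]
      intro i hi
      rw [hbwd i hi, hp₀1, hx]; rfl
    · rw [Boundary.take_eq_iff]
      intro i hi
      rw [hfwd i hi, hp₀2, hx]
  | false =>
    have hx : (per k hk hne).letter (n - R') = (i₀, false) := Prod.ext hg0 hs
    right
    constructor
    · rw [Boundary.take_eq_iff]
      intro i hi
      rw [flip_fst, hfwd i hi, hp₀1, hx]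
    · rw [Boundary.take_eq_iff]
      intro i hi
      rw [flip_snd, hbwd i hi, hp₀2, hx]; rfl

end Sum

end Pool.Agent.H82.SR
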