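import Pool.Agent.H82.SR.Tree

set_option autoImplicit false

/-!
# Unprojectivized outer space and spectral rigidity
-/

namespace Pool.Agent.H82.SR

/-- A point of the unprojectivized outer space `cv_N`: a minimal free isometric action of the free
group `F_N` on an ℝ-tree with discrete orbits. -/
structure OuterPoint (N : ℕ) where
  /-- the tree -/
  carrier : Type
  /-- its metric -/
  [metric : MetricSpace carrier]
  /-- the tree is not empty -/
  nonempty : Nonempty carrier
  /-- it is an ℝ-tree -/
  isRTree : IsRTree carrier
  /-- the isometric action of the free group -/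
  act : FreeGroup (Fin N) →* (carrier ≃ᵢ carrier)
  /-- the action is free -/
  free : ∀ (g : FreeGroup (Fin N)) (x : carrier), act g x = x → g = 1
  /-- orbits are discrete -/
  discrete : ∀ x : carrier, ∃ ε : ℝ, 0 < ε ∧
    ∀ g : FreeGroup (Fin N), act g x ≠ x → ε ≤ dist x (act g x)
  /-- the action is minimal: every nonempty invariant subtree is the whole tree; a subset is a
  subtree if it contains, with two points `x` and `y`, all the points `z` of the segment between
  them -/
  minimal : ∀ Y : Set carrier, Y.Nonempty → (∀ g : FreeGroup (Fin N), ∀ x ∈ Y, act g x ∈ Y) →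
    (∀ x ∈ Y, ∀ y ∈ Y, ∀ z : carrier, dist x z + dist z y = dist x y → z ∈ Y) → Y = Set.univ

attribute [instance] OuterPoint.metric

/-- The translation length `‖g‖_T = inf_x d(x, g x)` of an element `g` of the free group. -/
noncomputable def OuterPoint.length {N : ℕ} (T : OuterPoint N) (g : FreeGroup (Fin N)) : ℝ :=
  ⨅ x : T.carrier, dist x (T.act g x)

section Basic

variable {N : ℕ}

lemma OuterPoint.isOuterPoint (T : OuterPoint N) :
    IsOuterPoint T.carrier (fun g x => T.act g x) where
  nonempty := T.nonempty
  isRTree := T.isRTree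
  act_one x := by rw [map_one]; rfl
  act_mul g h x := by rw [map_mul]; rfl
  isometric g x y := (T.act g).dist_eq x y
  free := T.free
  discrete := T.discrete
  minimal := T.minimal

/-- rigidity, for the bundled points of outer space -/
lemma SpectrallyRigid.length_eq {S : Set (FreeGroup (Fin N))} (h : SpectrallyRigid S)
    (T T' : OuterPoint N) (heq : ∀ g ∈ S, T.length g = T'.length g)
    (g : FreeGroup (Fin N)) : T.length g = T'.length g := by
  obtain ⟨f, hsurj, hiso, hequi⟩ := h T.carrier T'.carrier _ _ T.isOuterPoint T'.isOuterPoint heq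
  unfold OuterPoint.length
  have hinj : Function.Injective f := (Isometry.of_dist_eq hiso).injective
  apply (Equiv.ofBijective f ⟨hinj, hsurj⟩).iInf_congr
  intro x
  change dist (f x) (T'.act g (f x)) = dist x (T.act g x)
  have h2 : T'.act g (f x) = f (T.act g x) := (hequi g x).symm
  rw [h2, hiso]

lemma OuterPoint.bddBelow (T : OuterPoint N) (g : FreeGroup (Fin N)) :
    BddBelow (Set.range fun x : T.carrier => dist x (T.act g x)) :=
  ⟨0, by rintro _ ⟨x, rfl⟩; exact dist_nonneg⟩

lemma OuterPoint.length_le (T : OuterPoint N) (g : FreeGroup (Fin N)) (x : T.carrier) :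
    T.length g ≤ dist x (T.act g x) := ciInf_le (T.bddBelow g) x

lemma OuterPoint.length_conj (T : OuterPoint N) (g h : FreeGroup (Fin N)) :
    T.length (h * g * h⁻¹) = T.length g := by
  unfold OuterPoint.length
  symm
  apply ((T.act h).toEquiv.iInf_congr ?_)
  intro x
  change dist (T.act h x) (T.act (h * g * h⁻¹) (T.act h x)) = dist x (T.act g x)
  have : T.act (h * g * h⁻¹) (T.act h x) = T.act h (T.act g x) := by
    have e : T.act (h * g * h⁻¹) (T.act h x) = T.act (h * g * h⁻¹ * h) x := by
      rw [map_mul T.act _ h]; rfl
    rw [e]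
    have e2 : h * g * h⁻¹ * h = h * g := by group
    rw [e2, map_mul]; rfl
  rw [this, (T.act h).dist_eq]

/-- precomposition with an automorphism -/
def OuterPoint.twist (T : OuterPoint N) (θ : FreeGroup (Fin N) ≃* FreeGroup (Fin N)) :
    OuterPoint N where
  carrier := T.carrier
  nonempty := T.nonempty
  isRTree := T.isRTree
  act := T.act.comp θ.toMonoidHom
  free g x h := by
    have := T.free (θ g) x h
    exact (map_eq_one_iff θ θ.injective).1 this
  discrete x := by
    obtain ⟨ε, h0, h⟩ := T.discrete x
    exact ⟨ε, h0, fun g hg => h (θ g) hg⟩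
  minimal Y h1 h2 h3 := by
    apply T.minimal Y h1 ?_ h3
    intro g x hx
    have := h2 (θ.symm g) x hx
    change T.act (θ (θ.symm g)) x ∈ Y at this
    rwa [MulEquiv.apply_symm_apply] at this

lemma OuterPoint.twist_length (T : OuterPoint N) (θ : FreeGroup (Fin N) ≃* FreeGroup (Fin N))
    (g : FreeGroup (Fin N)) : (T.twist θ).length g = T.length (θ g) := rfl

end Basic

end Pool.Agent.H82.SR
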