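import Pool.Agent.H82.SR.CountingDefs

set_option autoImplicit false

/-!
# The action of automorphisms on currents
-/

namespace Pool.Agent.H82.SR

open Filter Topology MeasureTheory

variable {N : ℕ}

/-- The homeomorphism of `∂²F_N` induced by an automorphism. -/
noncomputable def pairHomeo (θ : F N ≃* F N) : PairSpace N ≃ₜ PairSpace N where
  toFun p := ⟨(bdMap θ p.1.1, bdMap θ p.1.2), fun h => p.2 ((bdHomeo θ).injective h)⟩
  invFun p := ⟨(bdMap θ.symm p.1.1, bdMap θ.symm p.1.2),
    fun h => p.2 ((bdHomeo θ.symm).injective h)⟩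
  left_inv p := PairSpace.ext (bdMap_symm_bdMap θ _) (bdMap_symm_bdMap θ _)
  right_inv p := PairSpace.ext (bdMap_bdMap_symm θ _) (bdMap_bdMap_symm θ _)
  continuous_toFun := by
    apply Continuous.subtype_mk
    exact ((continuous_bdMap θ).comp (continuous_fst.comp continuous_subtype_val)).prodMk
      ((continuous_bdMap θ).comp (continuous_snd.comp continuous_subtype_val))
  continuous_invFun := by
    apply Continuous.subtype_mk
    exact ((continuous_bdMap θ.symm).comp (continuous_fst.comp continuous_subtype_val)).prodMk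
      ((continuous_bdMap θ.symm).comp (continuous_snd.comp continuous_subtype_val))

lemma pairHomeo_fst (θ : F N ≃* F N) (p : PairSpace N) :
    (pairHomeo θ p).1.1 = bdMap θ p.1.1 := rfl

lemma pairHomeo_snd (θ : F N ≃* F N) (p : PairSpace N) :
    (pairHomeo θ p).1.2 = bdMap θ p.1.2 := rfl

lemma pairHomeo_smul (θ : F N ≃* F N) (g : F N) (p : PairSpace N) :
    pairHomeo θ (g • p) = θ g • pairHomeo θ p :=
  PairSpace.ext (bdMap_smul θ g _) (bdMap_smul θ g _)

lemma pairHomeo_flip (θ : F N ≃* F N) (p : PairSpace N) :
    pairHomeo θ p.flip = (pairHomeo θ p).flip := rfl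

lemma pairHomeo_axisPair (θ : F N ≃* F N) (g : F N) (hg : g ≠ 1) (hg' : θ g ≠ 1) :
    pairHomeo θ (axisPair g hg) = axisPair (θ g) hg' := by
  apply PairSpace.ext
  · have h := (infty_spec g⁻¹ (inv_ne_one.2 hg)).map θ
    rw [map_inv] at h
    exact h.unique (infty_spec (θ g)⁻¹ (inv_ne_one.2 hg'))
  · exact ((infty_spec g hg).map θ).unique (infty_spec (θ g) hg')

/-- Push-forward of a current under (the boundary extension of) an automorphism. -/
noncomputable def pushCurrent (θ : F N ≃* F N) (μ : Current N) : Current N where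
  toMeasure := μ.toMeasure.map (pairHomeo θ)
  regular := by
    have := μ.regular
    exact Measure.Regular.map (pairHomeo θ)
  map_act g := by
    have hm1 : Measurable (fun p : PairSpace N => g • p) := (continuous_smul_pair g).measurable
    have hm2 : Measurable (pairHomeo θ) := (pairHomeo θ).continuous.measurable
    have hm3 : Measurable (fun p : PairSpace N => θ.symm g • p) :=
      (continuous_smul_pair _).measurable
    change Measure.map (fun p : PairSpace N => g • p) _ = _
    rw [Measure.map_map hm1 hm2]
    have e : (fun p : PairSpace N => g • p) ∘ (pairHomeo θ) =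
        (pairHomeo θ) ∘ (fun p : PairSpace N => θ.symm g • p) := by
      funext p
      simp only [Function.comp_apply, pairHomeo_smul, MulEquiv.apply_symm_apply]
    rw [e, ← Measure.map_map hm2 hm3, μ.map_smul]
  map_flip := by
    have hm1 : Measurable (PairSpace.flip : PairSpace N → PairSpace N) :=
      continuous_flip.measurable
    have hm2 : Measurable (pairHomeo θ) := (pairHomeo θ).continuous.measurable
    rw [Measure.map_map hm1 hm2]
    have e : PairSpace.flip ∘ (pairHomeo θ) = (pairHomeo θ) ∘ PairSpace.flip := by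
      funext p
      rfl
    rw [e, ← Measure.map_map hm2 hm1, μ.map_flip]

lemma pushCurrent_toMeasure (θ : F N ≃* F N) (μ : Current N) :
    (pushCurrent θ μ).toMeasure = μ.toMeasure.map (pairHomeo θ) := rfl

lemma continuous_eval (f : PairSpace N → ℝ) (hf : Continuous f) (hc : HasCompactSupport f) :
    Continuous (fun μ : Current N => ∫ p, f p ∂μ.toMeasure) := by
  rw [continuous_iff_le_induced]
  exact iInf_le (fun f : {f : PairSpace N → ℝ // Continuous f ∧ HasCompactSupport f} =>
    TopologicalSpace.induced (fun μ : Current N => ∫ p, f.1 p ∂μ.toMeasure) inferInstance)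
    ⟨f, hf, hc⟩

lemma continuous_current_rng {X : Type*} [TopologicalSpace X] {φ : X → Current N}
    (h : ∀ f : PairSpace N → ℝ, Continuous f → HasCompactSupport f →
      Continuous (fun x => ∫ p, f p ∂(φ x).toMeasure)) : Continuous φ := by
  apply continuous_iInf_rng.2
  rintro ⟨f, hf, hc⟩
  exact continuous_induced_rng.2 (h f hf hc)

lemma tendsto_current {ι : Type*} {l : Filter ι} {μ : ι → Current N} {ν : Current N}
    (h : ∀ f : PairSpace N → ℝ, Continuous f → HasCompactSupport f →
      Tendsto (fun i => ∫ p, f p ∂(μ i).toMeasure) l (𝓝 (∫ p, f p ∂ν.toMeasure))) :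
    Tendsto μ l (𝓝 ν) := by
  rw [nhds_iInf, tendsto_iInf]
  rintro ⟨f, hf, hc⟩
  rw [nhds_induced, tendsto_comap_iff]
  exact h f hf hc

lemma continuous_pushCurrent (θ : F N ≃* F N) : Continuous (pushCurrent θ) := by
  apply continuous_current_rng
  intro f hf hc
  have e : (fun μ : Current N => ∫ p, f p ∂(pushCurrent θ μ).toMeasure) =
      fun μ : Current N => ∫ p, (f ∘ pairHomeo θ) p ∂μ.toMeasure := by
    funext μ
    rw [pushCurrent_toMeasure]
    exact (pairHomeo θ).measurableEmbedding.integral_map f
  rw [e]
  exact continuous_eval _ (hf.comp (pairHomeo θ).continuous)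
    (hc.comp_homeomorph (pairHomeo θ))

/-- the bijection of coset spaces induced by an automorphism -/
def cosetEquiv (θ : F N ≃* F N) (g : F N) :
    F N ⧸ Subgroup.zpowers g ≃ F N ⧸ Subgroup.zpowers (θ g) :=
  Quotient.congr θ.toEquiv (by
    intro x y
    rw [QuotientGroup.leftRel_apply, QuotientGroup.leftRel_apply, Subgroup.mem_zpowers_iff,
      Subgroup.mem_zpowers_iff]
    constructor
    · rintro ⟨n, hn⟩
      refine ⟨n, ?_⟩
      change θ g ^ n = (θ x)⁻¹ * θ y
      rw [← map_zpow, hn, map_mul, map_inv]
    · rintro ⟨n, hn⟩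
      refine ⟨n, ?_⟩
      apply θ.injective
      change θ g ^ n = (θ x)⁻¹ * θ y at hn
      rw [map_zpow, hn, map_mul, map_inv])

lemma cosetEquiv_mk (θ : F N ≃* F N) (g x : F N) :
    cosetEquiv θ g (QuotientGroup.mk x) = QuotientGroup.mk (θ x) := rfl

lemma countingMeasure_map (θ : F N ≃* F N) (g : F N) (hg : g ≠ 1) (hg' : θ g ≠ 1) :
    (countingMeasure g hg).map (pairHomeo θ) = countingMeasure (θ g) hg' := by
  rw [countingMeasure_def, countingMeasure_def]
  have hm : Measurable (pairHomeo θ) := (pairHomeo θ).continuous.measurable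
  rw [Measure.map_sum hm.aemeasurable, ← Measure.sum_comp_equiv (cosetEquiv θ g)]
  congr 1
  funext q
  rw [Measure.map_add _ _ hm, Measure.map_dirac' hm, Measure.map_dirac' hm]
  induction q using QuotientGroup.induction_on with
  | H x =>
    simp only [Function.comp_apply, cosetEquiv_mk]
    rw [out_smul_axisPair, out_smul_axisPair_flip, out_smul_axisPair, out_smul_axisPair_flip,
      pairHomeo_smul, pairHomeo_smul, pairHomeo_flip, pairHomeo_axisPair θ g hg hg']

lemma map_ne_one (θ : F N ≃* F N) {g : F N} (hg : g ≠ 1) : θ g ≠ 1 := by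
  intro h
  exact hg ((map_eq_one_iff θ θ.injective).1 h)

/-- action on non-zero currents -/
noncomputable def pushNonzero (θ : F N ≃* F N) (μ : NonzeroCurrent N) : NonzeroCurrent N :=
  ⟨pushCurrent θ μ.1, by
    rw [pushCurrent_toMeasure]
    intro h
    apply μ.2
    exact (Measure.map_eq_zero_iff (pairHomeo θ).continuous.measurable.aemeasurable).1 h⟩

lemma continuous_pushNonzero (θ : F N ≃* F N) : Continuous (pushNonzero θ) :=
  Continuous.subtype_mk ((continuous_pushCurrent θ).comp continuous_subtype_val) _

/-- action on projective currents -/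
noncomputable def pushP (θ : F N ≃* F N) : PCurr N → PCurr N :=
  Quotient.map (pushNonzero θ) (by
    rintro μ ν ⟨c, hc, h⟩
    refine ⟨c, hc, ?_⟩
    change (ν.1.toMeasure).map (pairHomeo θ) = c • (μ.1.toMeasure).map (pairHomeo θ)
    rw [h, Measure.map_smul])

lemma continuous_pushP (θ : F N ≃* F N) : Continuous (pushP θ) :=
  (continuous_pushNonzero θ).quotient_map' _

lemma pushP_projCounting (θ : F N ≃* F N) (g : F N) (hg : g ≠ 1) :
    pushP θ (projCounting g hg) = projCounting (θ g) (map_ne_one θ hg) := by
  have e : pushNonzero θ (nonzeroCountingCurrent g hg) =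
      nonzeroCountingCurrent (θ g) (map_ne_one θ hg) := by
    apply Subtype.ext
    change pushCurrent θ (countingCurrent g hg) = countingCurrent (θ g) (map_ne_one θ hg)
    have h := countingMeasure_map θ g hg (map_ne_one θ hg)
    unfold pushCurrent countingCurrent
    simp only [h]
  change PCurr.mk (pushNonzero θ (nonzeroCountingCurrent g hg)) = _
  rw [e]
  rfl

lemma continuous_PCurr_mk : Continuous (PCurr.mk : NonzeroCurrent N → PCurr N) :=
  continuous_quotient_mk'

lemma projCounting_congr {g h : F N} (hg : g ≠ 1) (hh : h ≠ 1) (e : g = h) :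
    projCounting g hg = projCounting h hh := by
  subst e; rfl

/-- conjugation invariance -/
lemma projCounting_conj (g : F N) (hg : g ≠ 1) (h : F N) (hg' : h * g * h⁻¹ ≠ 1) :
    projCounting (h * g * h⁻¹) hg' = projCounting g hg := by
  have e : pushNonzero (MulAut.conj h) (nonzeroCountingCurrent g hg) =
      nonzeroCountingCurrent g hg := by
    apply Subtype.ext
    change pushCurrent (MulAut.conj h) (countingCurrent g hg) = countingCurrent g hg
    have h1 := (countingCurrent g hg).map_smul h
    have h2 : (pairHomeo (MulAut.conj h) : PairSpace N → PairSpace N) = fun p => h • p := by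
      funext p
      exact PairSpace.ext (bdMap_conj h _) (bdMap_conj h _)
    unfold pushCurrent
    simp only [h2, h1]
  have h3 := pushP_projCounting (MulAut.conj h) g hg
  have h4 : pushP (MulAut.conj h) (projCounting g hg) = projCounting g hg := by
    change PCurr.mk (pushNonzero (MulAut.conj h) (nonzeroCountingCurrent g hg)) = _
    rw [e]
    rfl
  rw [h4] at h3
  rw [h3]
  rfl

end Pool.Agent.H82.SR
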