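import Pool.Agent.H82.SR.Twist

set_option autoImplicit false

/-!
# The automorphism `c ↦ P c Q`
-/

namespace Pool.Agent.H82.SR

open Filter Topology

variable {N : ℕ}

section CFree

/-- the element does not involve the generator `x_{i₀}` -/
def CFree (i₀ : Fin N) (g : F N) : Prop := ∀ x ∈ g.toWord, x.1 ≠ i₀

lemma CFree.one (i₀ : Fin N) : CFree i₀ (1 : F N) := by
  intro x hx; simp at hx

lemma CFree.mul {i₀ : Fin N} {g h : F N} (hg : CFree i₀ g) (hh : CFree i₀ h) :
    CFree i₀ (g * h) := by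
  intro x hx
  have := (FreeGroup.toWord_mul_sublist g h).subset hx
  rcases List.mem_append.1 this with h1 | h1
  · exact hg x h1
  · exact hh x h1

lemma CFree.inv {i₀ : Fin N} {g : F N} (hg : CFree i₀ g) : CFree i₀ g⁻¹ := by
  intro x hx
  rw [FreeGroup.toWord_inv] at hx
  have e1 : FreeGroup.invRev g.toWord = (g.toWord.map bar).reverse := rfl
  rw [e1, List.mem_reverse, List.mem_map] at hx
  obtain ⟨y, hy, rfl⟩ := hx
  exact hg y hy

lemma CFree.mk {i₀ : Fin N} {l : List (Fin N × Bool)} (hl : ∀ x ∈ l, x.1 ≠ i₀) :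
    CFree i₀ (FreeGroup.mk l) := by
  intro x hx
  exact hl x ((FreeGroup.reduce.red (L := l)).sublist.subset hx)

lemma CFree.toWord_mul {i₀ : Fin N} {X v : F N} (hX : CFree i₀ X) {s : Bool}
    (hv : SW v (i₀, s)) : (X * v).toWord = X.toWord ++ v.toWord := by
  have h1 : FreeGroup.IsReduced (X.toWord ++ v.toWord) := by
    have hx := toWord_reduced X
    have hv' := toWord_reduced v
    rw [isReduced_iff] at hx hv' ⊢
    rw [List.isChain_append]
    refine ⟨hx, hv', ?_⟩
    intro x hx y hy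
    unfold SW at hv
    rw [hv] at hy
    simp only [Option.mem_def, Option.some.injEq] at hy
    subst hy
    intro h
    have h2 := hX x (List.mem_of_getLast? hx)
    exact h2 (congrArg Prod.fst h).symm
  have h2 : X * v = FreeGroup.mk (X.toWord ++ v.toWord) := by
    rw [← FreeGroup.mul_mk, FreeGroup.mk_toWord, FreeGroup.mk_toWord]
  rw [h2, toWord_mk_of_reduced h1]

lemma CFree.not_sw_mul {i₀ : Fin N} {X v : F N} (hX : CFree i₀ X) (hX1 : X ≠ 1) {s s' : Bool}
    (hv : SW v (i₀, s)) : ¬ SW (X * v) (i₀, s') := by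
  intro h
  unfold SW at h
  rw [hX.toWord_mul hv] at h
  cases hw : X.toWord with
  | nil => exact hX1 (FreeGroup.toWord_eq_nil_iff.1 hw)
  | cons y t =>
    rw [hw] at h
    simp only [List.cons_append, List.head?_cons, Option.some.injEq] at h
    exact hX y (by rw [hw]; simp) (congrArg Prod.fst h)

lemma CFree.not_sw {i₀ : Fin N} {X : F N} (hX : CFree i₀ X) {s' : Bool} :
    ¬ SW X (i₀, s') := by
  intro h
  unfold SW at h
  cases hw : X.toWord with
  | nil => rw [hw] at h; simp at h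
  | cons y t =>
    rw [hw] at h
    simp only [List.head?_cons, Option.some.injEq] at h
    exact hX y (by rw [hw]; simp) (congrArg Prod.fst h)

lemma exists_peel_cfree (i₀ : Fin N) (w : F N) : ∃ (Y v : F N), w = Y * v ∧ CFree i₀ Y ∧
    (v = 1 ∨ ∃ s, SW v (i₀, s)) ∧ v.norm ≤ w.norm := by
  induction hn : w.norm using Nat.strong_induction_on generalizing w with
  | _ n ih =>
    by_cases h1 : w = 1
    · exact ⟨1, 1, by simp [h1], CFree.one i₀, Or.inl rfl, by simp⟩
    · obtain ⟨x, hx⟩ := exists_sw h1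
      by_cases hxi : x.1 = i₀
      · refine ⟨1, w, by simp, CFree.one i₀, Or.inr ⟨x.2, ?_⟩, by omega⟩
        have : x = (i₀, x.2) := Prod.ext hxi rfl
        rwa [← this]
      · obtain ⟨w', hw', _, hnorm⟩ := exists_eq_letter_mul hx
        obtain ⟨Y, v, e1, e2, e3, e4⟩ := ih w'.norm (by omega) w' rfl
        refine ⟨FreeGroup.mk [x] * Y, v, ?_, ?_, e3, by omega⟩
        · rw [hw', e1, mul_assoc]
        · exact (CFree.mk (by simpa using hxi)).mul e2

end CFree

section Rho

/-- `x_{i₀} ↦ P x_{i₀} Q`, all other generators fixed. -/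
def rhoHom (i₀ : Fin N) (P Q : F N) : F N →* F N :=
  FreeGroup.lift (fun i => if i = i₀ then P * FreeGroup.of i₀ * Q else FreeGroup.of i)

lemma rhoHom_gen (i₀ : Fin N) (P Q : F N) :
    rhoHom i₀ P Q (FreeGroup.of i₀) = P * FreeGroup.of i₀ * Q := by
  simp [rhoHom]

lemma rhoHom_of (i₀ : Fin N) (P Q : F N) {i : Fin N} (hi : i ≠ i₀) :
    rhoHom i₀ P Q (FreeGroup.of i) = FreeGroup.of i := by
  simp [rhoHom, hi]

lemma rhoHom_cfree (i₀ : Fin N) (P Q : F N) {g : F N} (hg : CFree i₀ g) :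
    rhoHom i₀ P Q g = g := by
  have key : ∀ l : List (Fin N × Bool), (∀ x ∈ l, x.1 ≠ i₀) →
      rhoHom i₀ P Q (FreeGroup.mk l) = FreeGroup.mk l := by
    intro l
    induction l with
    | nil =>
      intro _
      have : (FreeGroup.mk ([] : List (Fin N × Bool)) : F N) = 1 := rfl
      rw [this, map_one]
    | cons x l ih =>
      intro h
      have e1 : (FreeGroup.mk (x :: l) : F N) = FreeGroup.mk [x] * FreeGroup.mk l := by simp
      rw [e1, map_mul, ih (fun y hy => h y (List.mem_cons_of_mem _ hy))]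
      congr 1
      have hx := h x (by simp)
      obtain ⟨i, s⟩ := x
      cases s
      · have h1 : (FreeGroup.mk [(i, false)] : F N) = (FreeGroup.of i)⁻¹ := rfl
        rw [h1, map_inv, rhoHom_of i₀ P Q hx]
      · have h1 : (FreeGroup.mk [(i, true)] : F N) = (FreeGroup.of i) := rfl
        rw [h1, rhoHom_of i₀ P Q hx]
  have := key g.toWord hg
  rwa [FreeGroup.mk_toWord] at this

lemma rhoHom_comp (i₀ : Fin N) (P Q : F N) (hP : CFree i₀ P) (hQ : CFree i₀ Q) :
    (rhoHom i₀ P⁻¹ Q⁻¹).comp (rhoHom i₀ P Q) = MonoidHom.id (F N) := by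
  apply FreeGroup.ext_hom
  intro i
  by_cases hi : i = i₀
  · subst hi
    simp only [MonoidHom.comp_apply, rhoHom_gen, map_mul, MonoidHom.id_apply]
    rw [rhoHom_cfree _ _ _ hP, rhoHom_cfree _ _ _ hQ]
    group
  · simp only [MonoidHom.comp_apply, rhoHom_of i₀ P Q hi, rhoHom_of i₀ P⁻¹ Q⁻¹ hi,
      MonoidHom.id_apply]

/-- The automorphism `x_{i₀} ↦ P x_{i₀} Q`. -/
def rho (i₀ : Fin N) (P Q : F N) (hP : CFree i₀ P) (hQ : CFree i₀ Q) : F N ≃* F N :=
  MonoidHom.toMulEquiv (rhoHom i₀ P Q) (rhoHom i₀ P⁻¹ Q⁻¹) (rhoHom_comp i₀ P Q hP hQ) (by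
    have := rhoHom_comp i₀ P⁻¹ Q⁻¹ hP.inv hQ.inv
    rwa [inv_inv, inv_inv] at this)

variable (i₀ : Fin N) (P Q : F N) (hP : CFree i₀ P) (hQ : CFree i₀ Q)

lemma rho_apply (g : F N) : rho i₀ P Q hP hQ g = rhoHom i₀ P Q g := rfl

/-- left part -/
def Lf (P Q : F N) (s : Bool) : F N := if s then P else Q⁻¹

/-- right part -/
def Rf (P Q : F N) (s : Bool) : F N := if s then Q else P⁻¹

lemma Lf_not (P Q : F N) (s : Bool) : (Lf P Q (!s))⁻¹ = Rf P Q s := by
  cases s <;> simp [Lf, Rf]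

include hP hQ in
lemma Lf_cfree (s : Bool) : CFree i₀ (Lf P Q s) := by
  cases s
  · exact hQ.inv
  · exact hP

include hP hQ in
lemma Rf_cfree (s : Bool) : CFree i₀ (Rf P Q s) := by
  cases s
  · exact hP.inv
  · exact hQ

lemma rho_letter (s : Bool) : rho i₀ P Q hP hQ (FreeGroup.mk [(i₀, s)]) =
    Lf P Q s * FreeGroup.mk [(i₀, s)] * Rf P Q s := by
  cases s
  · have h1 : (FreeGroup.mk [(i₀, false)] : F N) = (FreeGroup.of i₀)⁻¹ := rfl
    rw [h1, map_inv, rho_apply, rhoHom_gen]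
    simp [Lf, Rf, mul_assoc]
  · have h1 : (FreeGroup.mk [(i₀, true)] : F N) = (FreeGroup.of i₀) := rfl
    rw [h1, rho_apply, rhoHom_gen]
    simp [Lf, Rf]

/-- finite level statement for `rho` -/
lemma rho_sw (w : F N) (s : Bool) (hw : SW w (i₀, s)) :
    SW ((Lf P Q s)⁻¹ * rho i₀ P Q hP hQ w) (i₀, s) := by
  induction hn : w.norm using Nat.strong_induction_on generalizing w s with
  | _ n ih =>
    obtain ⟨w', hw', hnot, hnorm⟩ := exists_eq_letter_mul hw
    obtain ⟨Y, v, h1, hY, h2, h3⟩ := exists_peel_cfree i₀ w'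
    have e1 : (Lf P Q s)⁻¹ * rho i₀ P Q hP hQ w =
        FreeGroup.mk [(i₀, s)] * (Rf P Q s * Y * rho i₀ P Q hP hQ v) := by
      rw [hw', h1, map_mul, map_mul, rho_letter, rho_apply i₀ P Q hP hQ Y,
        rhoHom_cfree i₀ P Q hY]
      group
    rw [e1]
    apply sw_letter_mul
    rcases h2 with rfl | ⟨s', hs'⟩
    · rw [map_one, mul_one]
      exact ((Rf_cfree i₀ P Q hP hQ s).mul hY).not_sw
    · have h5 := ih v.norm (by omega) v s' hs' rfl
      set v' := (Lf P Q s')⁻¹ * rho i₀ P Q hP hQ v with hv'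
      have e2 : Rf P Q s * Y * rho i₀ P Q hP hQ v = (Rf P Q s * Y * Lf P Q s') * v' := by
        rw [hv']; group
      rw [e2]
      have hX : CFree i₀ (Rf P Q s * Y * Lf P Q s') :=
        ((Rf_cfree i₀ P Q hP hQ s).mul hY).mul (Lf_cfree i₀ P Q hP hQ s')
      by_cases hX1 : Rf P Q s * Y * Lf P Q s' = 1
      · rw [hX1, one_mul]
        intro h
        have h6 : bar (i₀, s) = (i₀, s') := sw_unique h h5
        have h7 : s' = !s := by
          have := congrArg Prod.snd h6
          simpa using this.symm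
        subst h7
        rw [← Lf_not] at hX1
        have h8 : Y = 1 := by
          have h9 : (Lf P Q (!s))⁻¹ * Y = (Lf P Q (!s))⁻¹ := by
            rw [← mul_eq_one_iff_eq_inv]; exact hX1
          simpa using h9
        rw [h8, one_mul] at h1
        rw [h1] at hnot
        exact hnot hs'
      · exact hX.not_sw_mul hX1 h5

lemma rho_letter_zero (ξ : Boundary N) (s : Bool) (hξ : ξ.letter 0 = (i₀, s)) :
    ((Lf P Q s)⁻¹ • bdMap (rho i₀ P Q hP hQ) ξ).letter 0 = (i₀, s) :=
  bdMap_letter_zero _ _ (fun g hg => rho_sw i₀ P Q hP hQ g s hg) ξ hξ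

end Rho

end Pool.Agent.H82.SR
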