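import Pool.Agent.H82.SR.Forbidden

set_option autoImplicit false

/-!
# Forbidden turns in rank two
-/

namespace Pool.Agent.H82.SR

open Filter Topology

variable {N : ℕ}

/-- a run of `x_{i₀}` of length at least two -/
lemma run_turns {i₀ : Fin N} {g : F N} {ξ η : Boundary N} (hl : IsLine g ξ η)
    (hξ : (ξ.letter 0).1 ≠ i₀) {m : ℤ} (hη : (((FreeGroup.of i₀ : F N) ^ (-m) • η).letter 0).1 ≠ i₀)
    (hm : 2 ≤ m) : Turn g (ξ.letter 0) (i₀, true) ∧
      Turn g (i₀, false) (((FreeGroup.of i₀ : F N) ^ (-m) • η).letter 0) := by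
  set ζ := (FreeGroup.of i₀ : F N) ^ (-m) • η with hζ
  have hη' : η = (FreeGroup.of i₀ : F N) ^ m • ζ := by
    rw [hζ, ← mul_smul, ← zpow_add]; simp
  refine ⟨⟨ξ, η, hl, rfl, ?_⟩, ⟨_, _, hl.smul ((FreeGroup.of i₀) ^ (-m)), ?_, ?_⟩⟩
  · rw [hη', zpow_smul_letter_zero hη (by omega)]
    congr 1
    simp; omega
  · rw [zpow_smul_letter_zero hξ (by omega)]
    congr 1
    simp; omega
  · rw [← hζ]

/-- the four-cycle argument -/
lemma four_cycle (hN : 2 ≤ N) {i₀ i₁ : Fin N} (h10 : i₁ ≠ i₀) (hall : ∀ j : Fin N, j = i₀ ∨ j = i₁)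
    {g : F N} (hg : IsPrimitive g) (h1 : Turn g (i₁, false) (i₀, true))
    (h2 : Turn g (i₀, true) (i₁, true)) (h3 : Turn g (i₁, true) (i₀, false))
    (h4 : Turn g (i₀, false) (i₁, false)) : False := by
  obtain ⟨κ, x, ⟨y, z, hy, hz, hκy, hκz⟩, hκ⟩ := whitehead hN hg
  have e1 := hκ _ _ h1
  have e2 := hκ _ _ h2
  have e3 := hκ _ _ h3
  have e4 := hκ _ _ h4
  clear hκ h1 h2 h3 h4
  have hall' : ∀ a : Fin N × Bool, a = (i₀, true) ∨ a = (i₀, false) ∨ a = (i₁, true) ∨
      a = (i₁, false) := by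
    rintro ⟨j, s⟩
    rcases hall j with rfl | rfl <;> cases s <;> simp
  have h01 := h10.symm
  rcases hall' x with rfl | rfl | rfl | rfl <;> rcases hall' y with rfl | rfl | rfl | rfl <;>
    rcases hall' z with rfl | rfl | rfl | rfl <;> simp_all

/-- Rank two: after a large twist one of two turns is forbidden. -/
theorem exists_aut_two {i₀ i₁ : Fin N} (h10 : i₁ ≠ i₀) (hall : ∀ j : Fin N, j = i₀ ∨ j = i₁)
    (R : ℕ) : ∃ φ : F N ≃* F N, ∀ g : F N, IsPrimitive g → HasWindow i₀ R g →
      (¬ Turn (φ g) (i₁, false) (i₀, false) ∨ ¬ Turn (φ g) (i₁, true) (i₀, true)) := by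
  have hN : 2 ≤ N := by
    have h1 := i₀.2
    have h2 := i₁.2
    have h3 : (i₁ : ℕ) ≠ (i₀ : ℕ) := fun h => h10 (Fin.ext h)
    omega
  let n : ℤ := R + 2
  refine ⟨twist i₀ (rD (N := N) n), ?_⟩
  rintro g hg ⟨y₁, y₂, y₃, m₁, m₂, hpass, h1, h2, h3, h4, h5, h6, h7⟩
  by_contra hcon
  push Not at hcon
  obtain ⟨hBC, hbc⟩ := hcon
  have hprim := hg.map (twist i₀ (rD (N := N) n))
  have hlett : ∀ a : Fin N × Bool, a.1 ≠ i₀ → a = (i₁, true) ∨ a = (i₁, false) := by
    rintro ⟨j, s⟩ hj
    rcases hall j with rfl | rfl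
    · exact absurd rfl hj
    · cases s <;> simp
  have hrb : rD (N := N) n (i₁, true) - rD n (i₁, false) = n := by
    unfold rD; push_cast; simp; ring
  have hn : n = R + 2 := rfl
  -- the key: a run `y c^m y` with `|m| ≥ 2`
  have key : ∀ (y : Fin N × Bool) (m : ℤ) (ξ η : Boundary N),
      IsLine (twist i₀ (rD (N := N) n) g) ξ η → y.1 ≠ i₀ → ξ.letter 0 = bar y →
      ((FreeGroup.of i₀ : F N) ^ (-(m + rD n y - rD n (bar y))) • η).letter 0 = y → |m| ≤ R →
      False := by
    intro y m ξ η hl hy hξ hη hm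
    rw [abs_le] at hm
    apply four_cycle hN h10 hall hprim ?_ hbc.symm ?_ hBC.symm
    · rcases hlett y hy with rfl | rfl
      · have e : rD (N := N) n (bar (i₁, true)) = rD n (i₁, false) := rfl
        rw [e] at hη
        have := run_turns hl (by rw [hξ]; exact h10) (m := m + rD n (i₁, true) - rD n (i₁, false))
          (by rw [hη]; exact h10) (by omega)
        rw [hξ] at this
        exact this.1
      · have e : rD (N := N) n (bar (i₁, false)) = rD n (i₁, true) := rfl
        rw [e] at hη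
        set k := m + rD n (i₁, false) - rD n (i₁, true) with hk
        have e2 : (FreeGroup.of i₀ : F N) ^ (-(-k)) • (FreeGroup.of i₀ : F N) ^ (-k) • ξ = ξ := by
          rw [← mul_smul, ← zpow_add]; simp
        have := run_turns (hl.smul ((FreeGroup.of i₀) ^ (-k))).symm (by rw [hη]; exact h10)
          (m := -k) (by rw [e2, hξ]; exact h10) (by omega)
        rw [hη] at this
        exact this.1
    · rcases hlett y hy with rfl | rfl
      · have e : rD (N := N) n (bar (i₁, true)) = rD n (i₁, false) := rfl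
        rw [e] at hη
        have := run_turns hl (by rw [hξ]; exact h10) (m := m + rD n (i₁, true) - rD n (i₁, false))
          (by rw [hη]; exact h10) (by omega)
        rw [hη] at this
        exact this.2.symm
      · have e : rD (N := N) n (bar (i₁, false)) = rD n (i₁, true) := rfl
        rw [e] at hη
        set k := m + rD n (i₁, false) - rD n (i₁, true) with hk
        have e2 : (FreeGroup.of i₀ : F N) ^ (-(-k)) • (FreeGroup.of i₀ : F N) ^ (-k) • ξ = ξ := by
          rw [← mul_smul, ← zpow_add]; simp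
        have := run_turns (hl.smul ((FreeGroup.of i₀) ^ (-k))).symm (by rw [hη]; exact h10)
          (m := -k) (by rw [e2, hξ]; exact h10) (by omega)
        rw [e2, hξ] at this
        exact this.2.symm
  by_cases hA : y₃ = bar y₂
  · by_cases hB : y₂ = bar y₁
    · -- alternating case: contradiction with Whitehead for `g` itself
      subst hB
      subst hA
      obtain ⟨ξ, η, hl, hξ, hη, hξ2⟩ := hpass
      simp only [bar_bar] at *
      have hm1 : m₁ ≠ 0 := fun h => h4 h rfl
      have hm2 : m₂ ≠ 0 := fun h => h5 h rfl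
      set ζ := (FreeGroup.of i₀ : F N) ^ (-m₂) • η with hζ
      have hη' : η = (FreeGroup.of i₀ : F N) ^ m₂ • ζ := by
        rw [hζ, ← mul_smul, ← zpow_add]; simp
      set ω := (FreeGroup.of i₀ : F N) ^ m₁ • (FreeGroup.mk [bar y₁] : F N) • ξ with hω
      have hω' : (FreeGroup.mk [bar y₁] : F N) • ξ = (FreeGroup.of i₀ : F N) ^ (-m₁) • ω := by
        rw [hω, ← mul_smul ((FreeGroup.of i₀ : F N) ^ (-m₁)), ← zpow_add]; simp
      -- turns `{y, c^{sgn m₂}}` and `{y, c^{-sgn m₂}}`
      have t1 : Turn g y₁ (i₀, decide (0 < m₂)) := by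
        refine ⟨ξ, η, hl, hξ, ?_⟩
        rw [hη', zpow_smul_letter_zero (by rw [hη]; exact h1) hm2]
      have t2 : Turn g (i₀, decide (0 < -m₂)) y₁ := by
        refine ⟨_, _, hl.smul ((FreeGroup.of i₀) ^ (-m₂)), ?_, ?_⟩
        · rw [zpow_smul_letter_zero (by rw [hξ]; exact h1) (by omega)]
        · rw [← hζ, hη]
      have hη0 : η.letter 0 ≠ bar (bar y₁) := by
        rw [hη', zpow_smul_letter_zero (by rw [hη]; exact h1) hm2, bar_bar]
        intro h
        exact h1 (congrArg Prod.fst h).symm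
      have hη1 : ((FreeGroup.mk [bar y₁] : F N) • η).letter 0 = bar y₁ := by
        rw [Boundary.letter_smul, Boundary.letterMul_of_ne hη0, Boundary.cons_letter_zero]
      have t3 : Turn g (i₀, decide (0 < -m₁)) (bar y₁) := by
        refine ⟨_, _, hl.smul (FreeGroup.mk [bar y₁]), ?_, hη1⟩
        rw [hω', zpow_smul_letter_zero (by rw [hξ2]; simpa using h1) (by omega)]
      have t4 : Turn g (bar y₁) (i₀, decide (0 < m₁)) := by
        refine ⟨_, _, (hl.smul (FreeGroup.mk [bar y₁])).smul ((FreeGroup.of i₀) ^ m₁), hξ2, ?_⟩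
        rw [zpow_smul_letter_zero (by rw [hη1]; simpa using h1) hm1]
      rw [decide_flip hm2] at t2
      rw [decide_flip hm1] at t3
      have t5 : ∀ s : Bool, Turn g y₁ (i₀, s) := by
        intro s
        by_cases hs : s = decide (0 < m₂)
        · rw [hs]; exact t1
        · have : s = !decide (0 < m₂) := by
            revert hs; cases s <;> cases decide (0 < m₂) <;> simp
          rw [this]; exact t2.symm
      have t6 : ∀ s : Bool, Turn g (bar y₁) (i₀, s) := by
        intro s
        by_cases hs : s = decide (0 < m₁)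
        · rw [hs]; exact t4
        · have : s = !decide (0 < m₁) := by
            revert hs; cases s <;> cases decide (0 < m₁) <;> simp
          rw [this]; exact t3.symm
      rcases hlett y₁ h1 with rfl | rfl
      · exact four_cycle hN h10 hall hg (t6 true) (t5 true).symm (t5 false) (t6 false).symm
      · exact four_cycle hN h10 hall hg (t5 true) (t6 true).symm (t6 false) (t5 false).symm
    · -- `y₁ = y₂`
      have hy : y₁ = y₂ := by
        rcases hlett y₁ h1 with rfl | rfl <;> rcases hlett y₂ h2 with rfl | rfl <;> simp_all [bar]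
      subst hy
      subst hA
      obtain ⟨ξ, η, hl, hξ, hη, hξ2⟩ := hpass.twist (rD n) h1 h2 h3
      have hm2 : m₂ ≠ 0 := fun h => h5 h rfl
      -- read backwards
      set k := m₁ + rD n y₁ - rD n (bar y₁) with hk
      have hη2 : ((FreeGroup.mk [y₁] : F N) • η).letter 0 = y₁ := by
        rw [bar_bar] at hη
        have e2 : m₂ + rD n y₁ - rD n y₁ = m₂ := by ring
        rw [e2] at hη
        have h7 : η = (FreeGroup.of i₀ : F N) ^ m₂ • ((FreeGroup.of i₀ : F N) ^ (-m₂) • η) := by
          rw [← mul_smul, ← zpow_add]; simp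
        have hne2 : η.letter 0 ≠ bar y₁ := by
          rw [h7, zpow_smul_letter_zero (by rw [hη]; simpa using h1) hm2]
          intro h8
          exact h1 (congrArg Prod.fst h8).symm
        rw [Boundary.letter_smul, Boundary.letterMul_of_ne hne2, Boundary.cons_letter_zero]
      refine key y₁ m₁ _ _ ((hl.smul (FreeGroup.mk [y₁])).smul ((FreeGroup.of i₀) ^ k)) h1 hξ2 ?_ h6
      rw [← hk, ← mul_smul, ← zpow_add]
      simpa using hη2
  · have hy : y₂ = y₃ := by
      rcases hlett y₂ h2 with rfl | rfl <;> rcases hlett y₃ h3 with rfl | rfl <;> simp_all [bar]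
    subst hy
    obtain ⟨ξ, η, hl, hξ, hη, hξ2⟩ := hpass.twist (rD n) h1 h2 h3
    exact key y₂ m₂ ξ η hl h2 hξ hη h7

end Pool.Agent.H82.SR
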