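import Pool.Agent.H82.SR.CayleyPoint
import Pool.Agent.H82.SR.Two

set_option autoImplicit false

/-!
# Substitutions `b ↦ b x` and lengths
-/

namespace Pool.Agent.H82.SR

open Filter Topology

variable {N : ℕ}

section Subst

/-- exponents -/
def rS (b x : Fin N × Bool) (y : Fin N × Bool) : ℤ :=
  if y = b then (if x.2 then 1 else -1) else 0

/-- the automorphism `b ↦ b x` -/
def sigma (b x : Fin N × Bool) : F N ≃* F N := twist x.1 (rS b x)

/-- the substitution on words -/
def sub (b x y : Fin N × Bool) : List (Fin N × Bool) :=
  if y = b then [b, x] else if y = bar b then [bar x, bar b] else [y]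

variable {b x : Fin N × Bool}

lemma sigma_letter (hbx : b.1 ≠ x.1) (y : Fin N × Bool) :
    sigma b x (FreeGroup.mk [y]) = FreeGroup.mk (sub b x y) := by
  unfold sigma
  have hzb : (FreeGroup.of x.1 : F N) ^ (if x.2 then (1 : ℤ) else -1) = FreeGroup.mk [x] := by
    rw [← letter_eq_zpow]
  by_cases hy : y.1 = x.1
  · have h1 : y ≠ b := fun h => hbx (by rw [← h, hy])
    have h2 : y ≠ bar b := fun h => hbx (by
      have := congrArg Prod.fst h
      simp only [bar_fst] at this
      rw [← this, hy])
    unfold sub
    rw [if_neg h1, if_neg h2]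
    obtain ⟨j, s⟩ := y
    simp only at hy
    subst hy
    rw [letter_eq_zpow, twist_zpow]
  · rw [twist_letter _ _ hy]
    by_cases h1 : y = b
    · subst h1
      have e1 : rS y x (bar y) = 0 := by
        unfold rS; rw [if_neg (bar_ne y)]
      have e2 : rS y x y = if x.2 then (1 : ℤ) else -1 := by
        unfold rS; rw [if_pos rfl]
      rw [e1, e2, hzb]
      unfold sub
      rw [if_pos rfl]
      simp
    · by_cases h2 : y = bar b
      · subst h2
        have e1 : rS b x (bar (bar b)) = if x.2 then (1 : ℤ) else -1 := by
          unfold rS; rw [bar_bar, if_pos rfl]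
        have e2 : rS b x (bar b) = 0 := by
          unfold rS; rw [if_neg h1]
        rw [e1, e2, zpow_neg, hzb, letter_inv]
        unfold sub
        rw [if_neg h1, if_pos rfl]
        simp
      · have e1 : rS b x (bar y) = 0 := by
          unfold rS; rw [if_neg]
          intro h; apply h2; rw [← h, bar_bar]
        have e2 : rS b x y = 0 := by
          unfold rS; rw [if_neg h1]
        rw [e1, e2]
        unfold sub
        rw [if_neg h1, if_neg h2]
        simp

lemma sigma_mk (hbx : b.1 ≠ x.1) (l : List (Fin N × Bool)) :
    sigma b x (FreeGroup.mk l) = FreeGroup.mk (l.flatMap (sub b x)) := by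
  induction l with
  | nil =>
    have e : (FreeGroup.mk ([] : List (Fin N × Bool)) : F N) = 1 := rfl
    rw [e, map_one]; rfl
  | cons a l ih =>
    have e : (FreeGroup.mk (a :: l) : F N) = FreeGroup.mk [a] * FreeGroup.mk l := by simp
    rw [e, map_mul, ih, sigma_letter hbx, FreeGroup.mul_mk, List.flatMap_cons]

/-- the weight for which `b` has length two -/
noncomputable def wb (b : Fin N × Bool) (i : Fin N) : ℝ := if i = b.1 then 2 else 1

lemma wb_pos (b : Fin N × Bool) (i : Fin N) : 0 < wb b i := by
  unfold wb; split_ifs <;> norm_num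

lemma wgt_flatMap_sub (l : List (Fin N × Bool)) :
    wgt (fun _ => (1 : ℝ)) (l.flatMap (sub b x)) = wgt (wb b) l := by
  induction l with
  | nil => simp
  | cons a l ih =>
    rw [List.flatMap_cons, wgt_append, ih, wgt_cons]
    congr 1
    unfold sub wb
    by_cases h1 : a = b
    · rw [if_pos h1, h1, if_pos rfl]; simp; norm_num
    · rw [if_neg h1]
      by_cases h2 : a = bar b
      · rw [if_pos h2, h2]; simp; norm_num
      · rw [if_neg h2, if_neg]
        · simp
        · intro h3
          obtain ⟨i, s⟩ := a
          obtain ⟨j, t⟩ := b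
          simp only at h3
          subst h3
          cases s <;> cases t <;> simp_all [bar]

/-- allowed consecutive letters -/
def Good2 (b x u v : Fin N × Bool) : Prop :=
  v ≠ bar u ∧ ¬ (u = b ∧ v = bar x) ∧ ¬ (u = x ∧ v = bar b)

lemma reduced_flatMap (hbx : b.1 ≠ x.1) {l : List (Fin N × Bool)} (hl : l.IsChain (Good2 b x)) :
    FreeGroup.IsReduced (l.flatMap (sub b x)) := by
  rw [isReduced_iff, List.flatMap_def, List.isChain_flatten]
  · constructor
    · intro m hm
      rw [List.mem_map] at hm
      obtain ⟨y, _, rfl⟩ := hm
      unfold sub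
      split_ifs with h1 h2
      · simp only [List.isChain_cons_cons, List.isChain_singleton, and_true]
        intro h
        apply hbx
        have := congrArg Prod.fst h
        simp only [bar_fst] at this
        exact this.symm
      · simp only [List.isChain_cons_cons, List.isChain_singleton, and_true]
        rw [bar_bar]
        intro h
        apply hbx
        have := congrArg Prod.fst h
        simpa using this
      · simp
    · rw [List.isChain_map]
      apply hl.imp
      rintro u v ⟨h1, h2, h3⟩ p hp q hq
      unfold sub at hp hq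
      have hne1 : b ≠ bar x := fun h => hbx (by rw [h]; simp)
      have hne2 : b ≠ x := fun h => hbx (by rw [h])
      split_ifs at hp hq <;> simp_all
      · intro h
        apply hne1
        rw [h, ← hp, bar_bar]
      · intro h
        have h5 : q = b := by rw [h, ← hp, bar_bar]
        contradiction
      · intro h
        have h5 := congrArg bar (hq.trans h)
        rw [bar_bar, bar_bar] at h5
        exact h3 h5.symm
  · intro h
    rw [List.mem_map] at h
    obtain ⟨y, _, hy⟩ := h
    unfold sub at hy
    split_ifs at hy

/-- initial pieces of a boundary point with allowed transitions -/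
lemma take_chain {R : Fin N × Bool → Fin N × Bool → Prop} {ξ : Boundary N}
    (h : ∀ n, R (ξ.letter n) (ξ.letter (n + 1))) (n : ℕ) : (ξ.take n).IsChain R := by
  rw [List.isChain_iff_getElem]
  intro i hi
  rw [Boundary.take_getElem, Boundary.take_getElem]
  exact h i

/-- **Equality of lengths.** If the line of `g` avoids the turn `{b⁻¹, x⁻¹}` then `g` has the same
length in the Cayley tree with an edge `b` of length two and in the twisted Cayley tree. -/
lemma length_eq (hN : 2 ≤ N) (hbx : b.1 ≠ x.1) {g : F N} (hg : g ≠ 1)
    (ht : ¬ Turn g (bar b) (bar x)) :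
    (cayley hN (wb b) (wb_pos b)).length g =
      (cayley hN (fun _ => 1) (fun _ => one_pos)).length (sigma b x g) := by
  obtain ⟨h, k, hk, hne, rfl⟩ := exists_cyc g hg
  have hgood : ∀ n, Good2 b x ((per k hk hne).letter n) ((per k hk hne).letter (n + 1)) := by
    have hl : IsLine (h * FreeGroup.mk k * h⁻¹)
        (h • per (FreeGroup.invRev k) (invRev_cyc hk) (invRev_ne hne)) (h • per k hk hne) := by
      refine ⟨1, _, _, ?_, (attr_per k hk hne).conj h, Or.inl ⟨(one_smul _ _).symm,
        (one_smul _ _).symm⟩⟩
      have := (attr_per (FreeGroup.invRev k) (invRev_cyc hk) (invRev_ne hne)).conj h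
      rw [← FreeGroup.inv_mk] at this
      have e : (h * FreeGroup.mk k * h⁻¹)⁻¹ = h * (FreeGroup.mk k)⁻¹ * h⁻¹ := by group
      rw [e]; exact this
    have hl2 := hl.smul h⁻¹
    rw [inv_smul_smul, inv_smul_smul] at hl2
    intro n
    have h1 := turn_of_line hl2 (per_invRev_letter_zero_ne k hk hne) n
    refine ⟨(per k hk hne).letter_succ_ne n, ?_, ?_⟩
    · rintro ⟨h2, h3⟩
      rw [h2, h3] at h1
      exact ht h1
    · rintro ⟨h2, h3⟩
      rw [h2, h3] at h1
      exact ht h1.symm
  have hkk : (per k hk hne).take (k.length + k.length) = k ++ k := by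
    rw [Boundary.take_add, per_drop_length, per_take_length]
  have hred : FreeGroup.IsReduced ((k ++ k).flatMap (sub b x)) := by
    apply reduced_flatMap hbx
    rw [← hkk]
    exact take_chain hgood _
  have hcyc : FreeGroup.IsCyclicallyReduced (k.flatMap (sub b x)) := by
    rw [isCyclicallyReduced_iff]
    rw [List.flatMap_append, isReduced_iff, List.isChain_append] at hred
    refine ⟨(isReduced_iff).2 hred.1, ?_⟩
    intro a ha c hc
    exact hred.2.2 a ha c hc
  rw [cayley_length hN _ _ h hk, map_mul, map_mul, map_inv, sigma_mk hbx,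
    cayley_length hN _ _ _ hcyc, wgt_flatMap_sub]

/-- the two trees are different -/
lemma length_ne (hN : 2 ≤ N) (hbx : b.1 ≠ x.1) :
    (cayley hN (wb b) (wb_pos b)).length (FreeGroup.mk [b, bar x]) ≠
      (cayley hN (fun _ => 1) (fun _ => one_pos)).length (sigma b x (FreeGroup.mk [b, bar x])) := by
  have h1 : FreeGroup.IsCyclicallyReduced [b, bar x] := by
    rw [isCyclicallyReduced_iff, isReduced_iff]
    constructor
    · simp only [List.isChain_cons_cons, List.isChain_singleton, and_true]
      intro h
      apply hbx
      have := congrArg Prod.fst h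
      simpa using this.symm
    · intro a ha c hc
      simp only [List.getLast?_cons_cons, List.getLast?_singleton, Option.mem_def,
        Option.some.injEq, List.head?_cons] at ha hc
      subst ha; subst hc
      rw [bar_bar]
      intro h
      exact hbx (congrArg Prod.fst h)
  have h2 : FreeGroup.IsCyclicallyReduced [b] := by simp
  have e1 : (FreeGroup.mk [b, bar x] : F N) = 1 * FreeGroup.mk [b, bar x] * 1⁻¹ := by group
  have e2 : sigma b x (FreeGroup.mk [b, bar x]) = 1 * FreeGroup.mk [b] * 1⁻¹ := by
    have hbx2 : bar x ≠ b := fun h => hbx (by rw [← h]; simp)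
    have hbx3 : bar x ≠ bar b := fun h => hbx (by
      have := congrArg Prod.fst h
      simpa using this.symm)
    rw [sigma_mk hbx]
    have e3 : [b, bar x].flatMap (sub b x) = [b] ++ ([x] ++ [bar x]) := by
      simp only [List.flatMap_cons, List.flatMap_nil, List.append_nil]
      unfold sub
      rw [if_pos rfl, if_neg hbx2, if_neg hbx3]
      rfl
    rw [e3, ← FreeGroup.mul_mk, ← FreeGroup.mul_mk, letter_mul_bar]
    group
  rw [e2, cayley_length hN _ _ _ h2, e1, cayley_length hN _ _ _ h1]
  have hxb : (bar x).1 ≠ b.1 := fun h => hbx (by rw [← h]; simp)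
  simp only [wgt_cons, wgt_nil, wb, if_true, if_neg hxb]
  norm_num

end Subst

end Pool.Agent.H82.SR
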