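import Pool.Agent.H82.SR.OuterDefs

set_option autoImplicit false

/-!
# The ℝ-tree spanned by a 0-hyperbolic metric

For a set `V` with a (pseudo)metric `d` satisfying the four-point condition we construct the ℝ-tree
spanned by it, as the set of the functions `u ↦ max (d u x - s) (d u y - (d x y - s))` on `V`, with
the sup metric.
-/

namespace Pool.Agent.H82.SR

variable {V : Type}

/-- 0-hyperbolic pseudometrics -/
class TreeMetric (d : V → V → ℝ) : Prop where
  self : ∀ x, d x x = 0
  symm : ∀ x y, d x y = d y x
  nonneg : ∀ x y, 0 ≤ d x y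
  four : ∀ x y z w, d x y + d z w ≤ max (d x z + d y w) (d x w + d y z)

/-- the point at distance `s` from `x` on the segment from `x` to `y` -/
noncomputable def seg (d : V → V → ℝ) (x y : V) (s : ℝ) : V → ℝ :=
  fun u => max (d u x - s) (d u y - (d x y - s))

/-- the tree spanned by `V` -/
def Tree (d : V → V → ℝ) : Type :=
  {f : V → ℝ // ∃ x y s, 0 ≤ s ∧ s ≤ d x y ∧ f = seg d x y s}

namespace Tree

variable {d : V → V → ℝ}

instance : CoeFun (Tree d) (fun _ => V → ℝ) := ⟨fun p => p.1⟩

lemma ext' {p q : Tree d} (h : ∀ u, p u = q u) : p = q := Subtype.ext (funext h)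

section

variable [hd : TreeMetric d]

lemma seg_left (x y : V) {s : ℝ} (h0 : 0 ≤ s) : seg d x y s x = s := by
  unfold seg
  rw [hd.self]
  rw [max_eq_right (by linarith)]
  ring

lemma seg_right (x y : V) {s : ℝ} (h1 : s ≤ d x y) : seg d x y s y = d x y - s := by
  unfold seg
  rw [hd.self, hd.symm y x]
  rw [max_eq_left (by linarith)]

lemma K1 (p : Tree d) (u v : V) : d u v ≤ p u + p v := by
  obtain ⟨f, a, b, t, h0, h1, rfl⟩ := p
  change d u v ≤ seg d a b t u + seg d a b t v
  unfold seg
  have h := hd.four u v a b
  rcases le_max_iff.1 h with h | h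
  · have := le_max_left (d u a - t) (d u b - (d a b - t))
    have := le_max_right (d v a - t) (d v b - (d a b - t))
    linarith
  · have := le_max_right (d u a - t) (d u b - (d a b - t))
    have := le_max_left (d v a - t) (d v b - (d a b - t))
    linarith

lemma K2 (p : Tree d) (u x y : V) : p u + d x y ≤ max (p x + d u y) (p y + d u x) := by
  obtain ⟨f, a, b, t, h0, h1, rfl⟩ := p
  change seg d a b t u + d x y ≤ max (seg d a b t x + d u y) (seg d a b t y + d u x)
  have key : ∀ (c : V) (r : ℝ), (∀ z, d z c - r ≤ seg d a b t z) →
      (d u c - r) + d x y ≤ max (seg d a b t x + d u y) (seg d a b t y + d u x) := by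
    intro c r hc
    have h := hd.four u c x y
    rw [le_max_iff] at h ⊢
    rcases h with h | h
    · right
      have := hc y
      rw [hd.symm c y] at h
      linarith
    · left
      have := hc x
      rw [hd.symm c x] at h
      linarith
  have h1 := key a t (fun z => le_max_left _ _)
  have h2 := key b (d a b - t) (fun z => le_max_right _ _)
  rcases le_total (d u a - t) (d u b - (d a b - t)) with h | h
  · have : seg d a b t u = d u b - (d a b - t) := max_eq_right h
    rw [this]; exact h2
  · have : seg d a b t u = d u a - t := max_eq_left h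
    rw [this]; exact h1

lemma nonneg (p : Tree d) (u : V) : 0 ≤ p u := by
  have := K1 p u u
  rw [hd.self] at this
  linarith

lemma abs_sub_le_seg (x y : V) {s : ℝ} (q : Tree d) (u : V) :
    |seg d x y s u - q u| ≤ max (q x - s) (q y - (d x y - s)) := by
  rw [abs_le]
  constructor
  · -- q u - p u ≤ max
    have h := K2 q u x y
    rcases le_max_iff.1 h with h | h
    · have h1 : d u y - (d x y - s) ≤ seg d x y s u := le_max_right _ _
      have h2 := le_max_left (q x - s) (q y - (d x y - s))
      linarith
    · have h1 : d u x - s ≤ seg d x y s u := le_max_left _ _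
      have h2 := le_max_right (q x - s) (q y - (d x y - s))
      linarith
  · have h1 := K1 q u x
    have h2 := K1 q u y
    have h3 := le_max_left (q x - s) (q y - (d x y - s))
    have h4 := le_max_right (q x - s) (q y - (d x y - s))
    rcases le_total (d u x - s) (d u y - (d x y - s)) with h | h
    · have : seg d x y s u = d u y - (d x y - s) := max_eq_right h
      rw [this]; linarith
    · have : seg d x y s u = d u x - s := max_eq_left h
      rw [this]; linarith

lemma bddAbove (p q : Tree d) : BddAbove (Set.range fun u => |p u - q u|) := by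
  obtain ⟨f, x, y, s, h0, h1, rfl⟩ := p
  refine ⟨max (q x - s) (q y - (d x y - s)), ?_⟩
  rintro _ ⟨u, rfl⟩
  exact abs_sub_le_seg x y q u

variable [Nonempty V]

noncomputable instance : MetricSpace (Tree d) where
  dist p q := ⨆ u, |p u - q u|
  dist_self p := by simp
  dist_comm p q := by
    congr 1
    funext u
    exact abs_sub_comm _ _
  dist_triangle p q r := by
    apply ciSup_le
    intro u
    have h1 := le_ciSup (bddAbove p q) u
    have h2 := le_ciSup (bddAbove q r) u
    have h3 := abs_sub_le (p u) (q u) (r u)
    exact h3.trans (add_le_add h1 h2)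
  eq_of_dist_eq_zero := by
    intro p q h
    apply ext'
    intro u
    have h1 := le_ciSup (bddAbove p q) u
    have h2 : |p u - q u| ≤ 0 := h1.trans (le_of_eq h)
    have h3 := abs_nonneg (p u - q u)
    have h4 : |p u - q u| = 0 := le_antisymm h2 h3
    have := abs_eq_zero.1 h4
    linarith

lemma dist_def (p q : Tree d) : dist p q = ⨆ u, |p u - q u| := rfl

lemma abs_sub_le_dist (p q : Tree d) (u : V) : |p u - q u| ≤ dist p q :=
  le_ciSup (bddAbove p q) u

/-- the point of the tree -/
noncomputable def pt (x y : V) (s : ℝ) (h0 : 0 ≤ s) (h1 : s ≤ d x y) : Tree d :=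
  ⟨seg d x y s, x, y, s, h0, h1, rfl⟩

/-- the vertices of the tree -/
noncomputable def vtx (v : V) : Tree d := pt v v 0 le_rfl (hd.nonneg _ _)

lemma vtx_apply (v u : V) : (vtx v : Tree d) u = d u v := by
  change max (d u v - 0) (d u v - (d v v - 0)) = d u v
  rw [hd.self]; simp

lemma dist_pt (x y : V) (s : ℝ) (h0 : 0 ≤ s) (h1 : s ≤ d x y) (q : Tree d) :
    dist (pt x y s h0 h1) q = max (q x - s) (q y - (d x y - s)) := by
  apply le_antisymm
  · exact ciSup_le (fun u => abs_sub_le_seg x y q u)
  · apply max_le
    · have h := abs_sub_le_dist (pt x y s h0 h1) q x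
      have e : (pt x y s h0 h1) x = s := seg_left x y h0
      rw [e] at h
      have := neg_abs_le (s - q x)
      linarith
    · have h := abs_sub_le_dist (pt x y s h0 h1) q y
      have e : (pt x y s h0 h1) y = d x y - s := seg_right x y h1
      rw [e] at h
      have := neg_abs_le (d x y - s - q y)
      linarith

lemma dist_vtx (v : V) (q : Tree d) : dist (vtx v) q = q v := by
  unfold vtx
  rw [dist_pt, hd.self]; simp

lemma dist_vtx_vtx (v w : V) : dist (vtx v : Tree d) (vtx w) = d v w := by
  rw [dist_vtx, vtx_apply]

lemma exists_pt (p : Tree d) : ∃ x y s h0 h1, p = pt x y s h0 h1 := by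
  obtain ⟨f, x, y, s, h0, h1, rfl⟩ := p
  exact ⟨x, y, s, h0, h1, rfl⟩

lemma eq_pt_of_add_eq (p : Tree d) (x y : V) (h : p x + p y = d x y) :
    p = pt x y (p x) (nonneg p x) (by have := nonneg p y; linarith) := by
  apply ext'
  intro u
  change p u = max (d u x - p x) (d u y - (d x y - p x))
  have e : d x y - p x = p y := by linarith
  rw [e]
  apply le_antisymm
  · have h2 := K2 p u x y
    rw [le_max_iff] at h2 ⊢
    rcases h2 with h2 | h2
    · right; linarith
    · left; linarith
  · apply max_le
    · have := K1 p u x; linarith
    · have := K1 p u y; linarith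

lemma dist_pt_pt (x y : V) (s t : ℝ) (hs0 : 0 ≤ s) (hs1 : s ≤ d x y) (ht0 : 0 ≤ t)
    (ht1 : t ≤ d x y) : dist (pt x y s hs0 hs1) (pt x y t ht0 ht1) = |s - t| := by
  rw [dist_pt]
  have e1 : (pt x y t ht0 ht1) x = t := seg_left x y ht0
  have e2 : (pt x y t ht0 ht1) y = d x y - t := seg_right x y ht1
  rw [e1, e2, abs_sub_comm, abs_eq_max_neg]
  congr 1
  ring

lemma four_pt (p q r w : Tree d) :
    dist p q + dist r w ≤ max (dist p r + dist q w) (dist p w + dist q r) := by
  -- reduction of the first variable to vertices
  have red : ∀ p q r w : Tree d, (∀ x : V, dist (vtx x) q + dist r w ≤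
      max (dist (vtx x) r + dist q w) (dist (vtx x) w + dist q r)) →
      dist p q + dist r w ≤ max (dist p r + dist q w) (dist p w + dist q r) := by
    intro p q r w h
    obtain ⟨x, y, s, h0, h1, rfl⟩ := exists_pt p
    have hx := h x
    have hy := h y
    simp only [dist_vtx] at hx hy
    simp only [dist_pt]
    have m1 := le_max_left (r x - s) (r y - (d x y - s))
    have m2 := le_max_right (r x - s) (r y - (d x y - s))
    have m3 := le_max_left (w x - s) (w y - (d x y - s))
    have m4 := le_max_right (w x - s) (w y - (d x y - s))
    rcases le_total (q x - s) (q y - (d x y - s)) with h | h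
    · rw [max_eq_right h]
      rw [le_max_iff] at hy ⊢
      rcases hy with hy | hy
      · left; linarith
      · right; linarith
    · rw [max_eq_left h]
      rw [le_max_iff] at hx ⊢
      rcases hx with hx | hx
      · left; linarith
      · right; linarith
  apply red
  intro x
  -- swap
  have s1 : ∀ a b c e : Tree d, (dist b a + dist c e ≤ max (dist b c + dist a e)
      (dist b e + dist a c)) → dist a b + dist c e ≤ max (dist a c + dist b e)
      (dist a e + dist b c) := by
    intro a b c e h
    rw [dist_comm b a, dist_comm b c, dist_comm b e] at h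
    rw [dist_comm b e, dist_comm b c]
    rw [le_max_iff] at h ⊢
    rcases h with h | h
    · right; rw [dist_comm c b] at *; linarith
    · left; rw [dist_comm e b] at *; linarith
  have s2 : ∀ a b c e : Tree d, (dist c e + dist a b ≤ max (dist c a + dist e b)
      (dist c b + dist e a)) → dist a b + dist c e ≤ max (dist a c + dist b e)
      (dist a e + dist b c) := by
    intro a b c e h
    rw [dist_comm c a, dist_comm e b, dist_comm c b, dist_comm e a] at h
    rw [le_max_iff] at h ⊢
    rcases h with h | h
    · left; linarith
    · right; linarith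
  apply s1
  apply red
  intro y
  apply s2
  apply red
  intro z
  apply s1
  apply red
  intro t
  simp only [dist_vtx_vtx]
  exact hd.four _ _ _ _

lemma isRTree : IsRTree (Tree d) where
  four_point := four_pt
  geodesic := by
    intro p q
    -- `p` and `q` on a common segment between vertices
    have key : ∃ (x a : V) (s t : ℝ) (hs0 : 0 ≤ s) (hs1 : s ≤ d x a) (ht0 : 0 ≤ t)
        (ht1 : t ≤ d x a), p = pt x a s hs0 hs1 ∧ q = pt x a t ht0 ht1 ∧ dist p q = t - s := by
      have main : ∀ x a : V, dist p q = d x a - p x - q a → ∃ (x a : V) (s t : ℝ)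
          (hs0 : 0 ≤ s) (hs1 : s ≤ d x a) (ht0 : 0 ≤ t)
          (ht1 : t ≤ d x a), p = pt x a s hs0 hs1 ∧ q = pt x a t ht0 ht1 ∧ dist p q = t - s := by
        intro x a h
        have h1 := abs_sub_le_dist p q a
        have h2 := le_abs_self (p a - q a)
        have h3 := K1 p x a
        have h4 := abs_sub_le_dist p q x
        have h5 := neg_abs_le (p x - q x)
        have h6 := K1 q x a
        have e1 : p x + p a = d x a := by linarith
        have e2 : q x + q a = d x a := by linarith
        exact ⟨x, a, p x, q x, _, _, _, _, eq_pt_of_add_eq p x a e1, eq_pt_of_add_eq q x a e2,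
          by linarith⟩
      obtain ⟨x, y, s, h0, h1, hp⟩ := exists_pt p
      obtain ⟨a, b, t, k0, k1, hq⟩ := exists_pt q
      have px : p x = s := by rw [hp]; exact seg_left x y h0
      have py : p y = d x y - s := by rw [hp]; exact seg_right x y h1
      have qa : q a = t := by rw [hq]; exact seg_left a b k0
      have qb : q b = d a b - t := by rw [hq]; exact seg_right a b k1
      have e : dist p q = max (q x - s) (q y - (d x y - s)) := by rw [hp]; exact dist_pt _ _ _ _ _ _
      have ex : ∀ z, q z = max (d z a - t) (d z b - (d a b - t)) := by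
        intro z; rw [hq]; rfl
      rcases max_choice (q x - s) (q y - (d x y - s)) with h | h
      · rcases max_choice (d x a - t) (d x b - (d a b - t)) with h' | h'
        · apply main x a
          rw [e, h, ex x, h', px, qa]; ring
        · apply main x b
          rw [e, h, ex x, h', px, qb]; ring
      · rcases max_choice (d y a - t) (d y b - (d a b - t)) with h' | h'
        · apply main y a
          rw [e, h, ex y, h', py, qa]; ring
        · apply main y b
          rw [e, h, ex y, h', py, qb]; ring
    obtain ⟨x, a, s, t, hs0, hs1, ht0, ht1, hp, hq, hst⟩ := key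
    have hle : s ≤ t := by have := dist_nonneg (x := p) (y := q); linarith
    refine ⟨fun r => pt x a (max 0 (min (s + r) (d x a))) (le_max_left _ _)
      (max_le (hd.nonneg _ _) (min_le_right _ _)), ?_, ?_, ?_⟩
    · rw [hp]
      apply Subtype.ext
      change seg d x a _ = seg d x a _
      rw [add_zero, min_eq_left hs1, max_eq_right hs0]
    · rw [hst, hq]
      apply Subtype.ext
      change seg d x a _ = seg d x a _
      rw [add_sub_cancel, min_eq_left ht1, max_eq_right ht0]
    · intro r hr r' hr'
      rw [hst] at hr hr'
      have e : ∀ r ∈ Set.Icc 0 (t - s), max 0 (min (s + r) (d x a)) = s + r := by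
        intro r hr
        rw [min_eq_left (by linarith [hr.2]), max_eq_right (by linarith [hr.1])]
      rw [dist_pt_pt, e r hr, e r' hr']
      congr 1
      ring

end

end Tree

end Pool.Agent.H82.SR
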