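import Pool.Agent.H82.SR.Rho

set_option autoImplicit false

/-!
# The key automorphisms and forbidden turns
-/

namespace Pool.Agent.H82.SR

open Filter Topology

variable {N : ℕ}

section Universal

/-- A word containing all reduced two-letter words not involving `x_{i₀}`. -/
lemma exists_universal (i₀ i₁ i₂ : Fin N) (h10 : i₁ ≠ i₀) (h20 : i₂ ≠ i₀) (h12 : i₁ ≠ i₂) :
    ∃ u : List (Fin N × Bool), FreeGroup.IsReduced u ∧ (∀ x ∈ u, x.1 ≠ i₀) ∧
      u.head? = some (i₂, true) ∧ u.getLast? = some (i₂, true) ∧
      ∀ y z : Fin N × Bool, y.1 ≠ i₀ → z.1 ≠ i₀ → z ≠ bar y →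
        ∃ l₁ l₂, u = l₁ ++ [y, z] ++ l₂ := by
  classical
  have key : ∀ S : List ((Fin N × Bool) × (Fin N × Bool)),
      ∃ u : List (Fin N × Bool), FreeGroup.IsReduced u ∧ (∀ x ∈ u, x.1 ≠ i₀) ∧
      u.head? = some (i₂, true) ∧ u.getLast? = some (i₂, true) ∧
      ∀ p ∈ S, p.1.1 ≠ i₀ → p.2.1 ≠ i₀ → p.2 ≠ bar p.1 →
        ∃ l₁ l₂, u = l₁ ++ [p.1, p.2] ++ l₂ := by
    intro S
    induction S with
    | nil => exact ⟨[(i₂, true)], by simp, by simpa using h20, by simp, by simp, by simp⟩
    | cons p S ih =>
      obtain ⟨u, hu1, hu2, hu3, hu4, hu5⟩ := ih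
      by_cases hp : p.1.1 ≠ i₀ ∧ p.2.1 ≠ i₀ ∧ p.2 ≠ bar p.1
      · obtain ⟨hp1, hp2, hp3⟩ := hp
        let s₁ : List (Fin N × Bool) := if p.1 = (i₂, false) then [(i₁, true)] else []
        let s₂ : List (Fin N × Bool) := if p.2 = (i₂, false) then [(i₁, true)] else []
        have hchain : FreeGroup.IsReduced (u ++ (s₁ ++ [p.1, p.2] ++ s₂ ++ [(i₂, true)])) := by
          rw [isReduced_iff] at hu1 ⊢
          rw [List.isChain_append]
          have hne1 : ∀ b : Bool, ((i₁, b) : Fin N × Bool) ≠ (i₂, true) := fun b h =>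
            h12 (congrArg Prod.fst h)
          have hne2 : ∀ b : Bool, ((i₁, b) : Fin N × Bool) ≠ (i₂, false) := fun b h =>
            h12 (congrArg Prod.fst h)
          have hne3 : ∀ b c : Bool, ((i₂, b) : Fin N × Bool) ≠ (i₁, c) := fun b c h =>
            h12 (congrArg Prod.fst h).symm
          refine ⟨hu1, ?_, ?_⟩
          · by_cases hA : p.1 = (i₂, false)
            · by_cases hB : p.2 = (i₂, false)
              · simp [s₁, s₂, hA, hB, bar, h12, Ne.symm h12]
              · have hB' : ¬ ((i₂, true) : Fin N × Bool) = bar p.2 := by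
                  intro h
                  apply hB
                  have := congrArg bar h
                  rw [bar_bar] at this
                  rw [← this]; rfl
                simp only [s₁, s₂, hA, hB, if_true, if_false, List.singleton_append,
                  List.append_nil, List.cons_append, List.nil_append, List.isChain_cons_cons,
                  List.isChain_singleton, and_true]
                refine ⟨?_, ?_, hB'⟩
                · intro h
                  exact h12 (congrArg Prod.fst h).symm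
                · rw [← hA]; exact hp3
            · by_cases hB : p.2 = (i₂, false)
              · simp only [s₁, s₂, hA, hB, if_true, if_false, List.nil_append,
                  List.cons_append, List.isChain_cons_cons,
                  List.isChain_singleton, and_true]
                refine ⟨?_, ?_, ?_⟩
                · rw [← hB]; exact hp3
                · intro h
                  exact h12 (congrArg Prod.fst h)
                · intro h
                  exact h12 (congrArg Prod.fst h).symm
              · have hB' : ¬ ((i₂, true) : Fin N × Bool) = bar p.2 := by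
                  intro h
                  apply hB
                  have := congrArg bar h
                  rw [bar_bar] at this
                  rw [← this]; rfl
                simp only [s₁, s₂, hA, hB, if_false, List.nil_append, List.append_nil,
                  List.cons_append, List.isChain_cons_cons,
                  List.isChain_singleton, and_true]
                exact ⟨hp3, hB'⟩
          · intro x hx y hy
            rw [hu4] at hx
            simp only [Option.mem_def, Option.some.injEq] at hx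
            subst hx
            by_cases hA : p.1 = (i₂, false)
            · simp only [s₁, hA, if_true, List.singleton_append, List.cons_append,
                List.head?_cons, Option.mem_def, Option.some.injEq] at hy
              subst hy
              intro h
              exact h12 (congrArg Prod.fst h)
            · simp only [s₁, hA, if_false, List.nil_append, List.cons_append,
                List.head?_cons, Option.mem_def, Option.some.injEq] at hy
              subst hy
              exact hA
        refine ⟨u ++ (s₁ ++ [p.1, p.2] ++ s₂ ++ [(i₂, true)]), hchain, ?_, ?_, ?_, ?_⟩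
        · intro x hx
          have hs₁ : ∀ x ∈ s₁, x.1 ≠ i₀ := by
            intro x hx
            simp only [s₁] at hx
            split_ifs at hx
            · simp only [List.mem_singleton] at hx; rw [hx]; exact h10
            · simp at hx
          have hs₂ : ∀ x ∈ s₂, x.1 ≠ i₀ := by
            intro x hx
            simp only [s₂] at hx
            split_ifs at hx
            · simp only [List.mem_singleton] at hx; rw [hx]; exact h10
            · simp at hx
          simp only [List.mem_append, List.mem_cons, List.not_mem_nil, or_false] at hx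
          rcases hx with hx | (((hx | hx) | hx) | hx)
          · exact hu2 x hx
          · exact hs₁ x hx
          · rcases hx with rfl | rfl
            · exact hp1
            · exact hp2
          · exact hs₂ x hx
          · rw [hx]; exact h20
        · rw [List.head?_append, hu3]; rfl
        · rw [← List.append_assoc, List.getLast?_append]; rfl
        · intro q hq hq1 hq2 hq3
          rcases List.mem_cons.1 hq with rfl | hq
          · exact ⟨u ++ s₁, s₂ ++ [(i₂, true)], by simp [List.append_assoc]⟩
          · obtain ⟨l₁, l₂, e⟩ := hu5 q hq hq1 hq2 hq3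
            refine ⟨l₁, l₂ ++ (s₁ ++ [p.1, p.2] ++ s₂ ++ [(i₂, true)]), ?_⟩
            rw [← List.append_assoc (l₁ ++ [q.1, q.2]) l₂, ← e]
      · refine ⟨u, hu1, hu2, hu3, hu4, ?_⟩
        intro q hq hq1 hq2 hq3
        rcases List.mem_cons.1 hq with rfl | hq
        · exact absurd ⟨hq1, hq2, hq3⟩ hp
        · exact hu5 q hq hq1 hq2 hq3
  obtain ⟨u, h1, h2, h3, h4, h5⟩ := key (Finset.univ.toList)
  refine ⟨u, h1, h2, h3, h4, ?_⟩
  intro y z hy hz hyz
  exact h5 (y, z) (by simp) hy hz hyz

end Universal

section RhoTarget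

variable {i₀ i₁ i₂ : Fin N} (h10 : i₁ ≠ i₀) (h20 : i₂ ≠ i₀) (h12 : i₁ ≠ i₂)
  {u : List (Fin N × Bool)} (hu1 : FreeGroup.IsReduced u) (hu2 : ∀ x ∈ u, x.1 ≠ i₀)
  (hu3 : u.head? = some (i₂, true)) (hu4 : u.getLast? = some (i₂, true))

lemma letter_zpow (i : Fin N) (s : Bool) :
    (FreeGroup.mk [(i, s)] : F N) = (FreeGroup.of i) ^ (if s then (1 : ℤ) else -1) :=
  letter_eq_zpow i s

include hu1 hu3 hu4 in
lemma sgn_smul_letter (h20 : i₂ ≠ i₀) (s s' : Bool) (ζ : Boundary N)
    (hζ : ζ.letter 0 = (i₀, s')) :
    ((((FreeGroup.mk u : F N) ^ (if s then (1 : ℤ) else -1)) • ζ).letter 0).1 = i₂ := by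
  have hne : u ≠ [] := by
    rintro rfl; simp at hu3
  have hlen : 0 < u.length := List.length_pos_iff.2 hne
  cases s
  · simp only [Bool.false_eq_true, if_false, zpow_neg, zpow_one]
    rw [FreeGroup.inv_mk]
    have hr : FreeGroup.IsReduced (FreeGroup.invRev u) := by
      have : ((FreeGroup.mk u : F N)⁻¹).toWord = FreeGroup.invRev u := by
        rw [FreeGroup.toWord_inv, toWord_mk_of_reduced hu1]
      rw [← this]; exact toWord_reduced _
    have e1 : FreeGroup.invRev u = (u.map bar).reverse := rfl
    have h1 : ∀ x ∈ (FreeGroup.invRev u).getLast?, ζ.letter 0 ≠ bar x := by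
      intro x hx
      rw [e1, List.getLast?_reverse, List.head?_map, hu3] at hx
      simp only [Option.map_some, Option.mem_def, Option.some.injEq] at hx
      subst hx
      rw [hζ, bar_bar]
      intro h
      exact h20 (congrArg Prod.fst h).symm
    rw [Boundary.letter_mk_smul _ ζ hr h1 0 (by rw [FreeGroup.invRev_length]; exact hlen)]
    have h2 : (FreeGroup.invRev u).head? = some (bar (i₂, true)) := by
      rw [e1, List.head?_reverse, List.getLast?_map, hu4]; rfl
    rw [List.head?_eq_getElem?] at h2
    obtain ⟨h3, h4⟩ := List.getElem?_eq_some_iff.1 h2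
    rw [h4]; rfl
  · simp only [if_true, zpow_one]
    have h1 : ∀ x ∈ u.getLast?, ζ.letter 0 ≠ bar x := by
      intro x hx
      rw [hu4] at hx
      simp only [Option.mem_def, Option.some.injEq] at hx
      subst hx
      rw [hζ]
      intro h
      exact h20 (congrArg Prod.fst h).symm
    rw [Boundary.letter_mk_smul _ ζ hu1 h1 0 hlen]
    rw [List.head?_eq_getElem?] at hu3
    obtain ⟨h3, h4⟩ := List.getElem?_eq_some_iff.1 hu3
    rw [h4]

/-- the middle part `b^{±} Y b^{±}` -/
lemma middle_letter (h12 : i₁ ≠ i₂) (s₁ s₂ : Bool) (Y : F N)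
    (hY : (Y = 1 ∧ s₁ = s₂) ∨ ∃ y : Fin N × Bool, y.1 ≠ i₀ ∧ Y = FreeGroup.mk [y])
    (θ : Boundary N) (hθ : (θ.letter 0).1 = i₂) :
    (((FreeGroup.of i₁ : F N) ^ (if s₁ then (1 : ℤ) else -1) •
      Y • (FreeGroup.of i₁ : F N) ^ (if s₂ then (1 : ℤ) else -1) • θ).letter 0).1 = i₁ := by
  have hθ1 : (θ.letter 0).1 ≠ i₁ := by rw [hθ]; exact h12.symm
  rcases hY with ⟨rfl, rfl⟩ | ⟨y, hy, rfl⟩
  · rw [one_smul, ← mul_smul, ← zpow_add, zpow_smul_letter_zero hθ1 (by cases s₁ <;> simp)]
  · by_cases hy1 : y.1 = i₁
    · obtain ⟨j, s⟩ := y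
      simp only at hy1
      subst hy1
      rw [letter_eq_zpow, ← mul_smul, ← mul_smul, ← zpow_add, ← zpow_add,
        zpow_smul_letter_zero hθ1]
      cases s₁ <;> cases s₂ <;> cases s <;> simp
    · have h1 : ((FreeGroup.of i₁ : F N) ^ (if s₂ then (1 : ℤ) else -1) • θ).letter 0 =
          (i₁, decide (0 < (if s₂ then (1 : ℤ) else -1))) :=
        zpow_smul_letter_zero hθ1 (by cases s₂ <;> simp)
      have h2 : ((FreeGroup.mk [y] : F N) •
          (FreeGroup.of i₁ : F N) ^ (if s₂ then (1 : ℤ) else -1) • θ).letter 0 = y := by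
        rw [Boundary.letter_smul, Boundary.letterMul_of_ne, Boundary.cons_letter_zero]
        rw [h1]
        intro h
        exact hy1 (congrArg Prod.fst h).symm
      rw [zpow_smul_letter_zero (by rw [h2]; exact hy1) (by cases s₁ <;> simp)]

include h12 hu1 hu3 hu4 in
/-- From the target to a line reading the universal word. -/
lemma rho_target (h10 : i₁ ≠ i₀) (h20 : i₂ ≠ i₀)
    (hP : CFree i₀ (FreeGroup.of i₁ * FreeGroup.mk u : F N))
    (hQ : CFree i₀ (FreeGroup.mk u * FreeGroup.of i₁ : F N)) {g : F N} (h : Target i₀ g) :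
    ∃ ξ η : Boundary N, IsLine (rho i₀ _ _ hP hQ g) ξ η ∧ ξ.letter 0 ≠ (i₂, true) ∧
      η.take u.length = u := by
  obtain ⟨ξ, η, Y, s₁, s₂, hl, hξ, hη, hY⟩ := h
  set P : F N := FreeGroup.of i₁ * FreeGroup.mk u with hPdef
  set Q : F N := FreeGroup.mk u * FreeGroup.of i₁ with hQdef
  have hne : u ≠ [] := by
    rintro rfl; simp at hu3
  have hlen : 0 < u.length := List.length_pos_iff.2 hne
  have hYc : CFree i₀ Y := by
    rcases hY with ⟨rfl, _⟩ | ⟨y, hy, rfl⟩
    · exact CFree.one i₀
    · exact CFree.mk (by simpa using hy)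
  -- images
  have hl' := (hl.map (rho i₀ P Q hP hQ)).smul (Rf P Q s₁)
  have hξ' : (Rf P Q s₁ • bdMap (rho i₀ P Q hP hQ) ξ).letter 0 = (i₀, !s₁) := by
    have := rho_letter_zero i₀ P Q hP hQ ξ (!s₁) hξ
    rwa [Lf_not] at this
  set ζ := Y⁻¹ • η with hζ
  have hη1 : η = Y • ζ := by rw [hζ, smul_inv_smul]
  have hζ' := rho_letter_zero i₀ P Q hP hQ ζ s₂ hη
  set ζ' := (Lf P Q s₂)⁻¹ • bdMap (rho i₀ P Q hP hQ) ζ with hζ'def
  have hη2 : Rf P Q s₁ • bdMap (rho i₀ P Q hP hQ) η =
      ((FreeGroup.mk u : F N) ^ (if s₁ then (1 : ℤ) else -1)) •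
      ((FreeGroup.of i₁ : F N) ^ (if s₁ then (1 : ℤ) else -1) •
      Y • (FreeGroup.of i₁ : F N) ^ (if s₂ then (1 : ℤ) else -1) •
      (((FreeGroup.mk u : F N) ^ (if s₂ then (1 : ℤ) else -1)) • ζ')) := by
    have e1 : bdMap (rho i₀ P Q hP hQ) η = Y • bdMap (rho i₀ P Q hP hQ) ζ := by
      rw [hη1, bdMap_smul, rho_apply, rhoHom_cfree i₀ P Q hYc]
    have e2 : bdMap (rho i₀ P Q hP hQ) ζ = Lf P Q s₂ • ζ' := by
      rw [hζ'def, smul_inv_smul]
    rw [e1, e2]
    simp only [← mul_smul]
    congr 1
    have e3 : ∀ s : Bool, Lf P Q s = (FreeGroup.of i₁ : F N) ^ (if s then (1 : ℤ) else -1) *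
        (FreeGroup.mk u : F N) ^ (if s then (1 : ℤ) else -1) := by
      intro s
      cases s
      · simp only [Lf, hQdef, Bool.false_eq_true, if_false, mul_inv_rev, zpow_neg, zpow_one]
      · simp only [Lf, hPdef, if_true, zpow_one]
    have e4 : ∀ s : Bool, Rf P Q s = (FreeGroup.mk u : F N) ^ (if s then (1 : ℤ) else -1) *
        (FreeGroup.of i₁ : F N) ^ (if s then (1 : ℤ) else -1) := by
      intro s
      cases s
      · simp only [Rf, hPdef, Bool.false_eq_true, if_false, mul_inv_rev, zpow_neg, zpow_one]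
      · simp only [Rf, hQdef, if_true, zpow_one]
    rw [e3 s₂, e4 s₁]
    simp only [mul_assoc]
  set θ₁ := ((FreeGroup.mk u : F N) ^ (if s₂ then (1 : ℤ) else -1)) • ζ' with hθ₁
  have hθ₁l : (θ₁.letter 0).1 = i₂ := sgn_smul_letter hu1 hu3 hu4 h20 s₂ s₂ ζ' hζ'
  set θ₂ := (FreeGroup.of i₁ : F N) ^ (if s₁ then (1 : ℤ) else -1) •
      Y • (FreeGroup.of i₁ : F N) ^ (if s₂ then (1 : ℤ) else -1) • θ₁ with hθ₂
  have hθ₂l : (θ₂.letter 0).1 = i₁ := middle_letter h12 s₁ s₂ Y hY θ₁ hθ₁l
  rw [hη2] at hl'
  cases s₁ with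
  | true =>
    refine ⟨_, _, hl', ?_, ?_⟩
    · rw [hξ']
      intro h
      exact h20 (congrArg Prod.fst h).symm
    · simp only [if_true, zpow_one]
      apply Boundary.take_mk_smul u θ₂ hu1
      intro x hx
      rw [hu4] at hx
      simp only [Option.mem_def, Option.some.injEq] at hx
      subst hx
      intro h
      have := congrArg Prod.fst h
      rw [hθ₂l] at this
      exact h12 this
  | false =>
    have hl'' := (hl'.smul (FreeGroup.mk u)).symm
    simp only [Bool.false_eq_true, if_false, zpow_neg, zpow_one, smul_inv_smul] at hl''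
    refine ⟨_, _, hl'', ?_, ?_⟩
    · intro h
      have := congrArg Prod.fst h
      rw [hθ₂l] at this
      exact h12 this
    · apply Boundary.take_mk_smul u _ hu1
      intro x hx
      rw [hu4] at hx
      simp only [Option.mem_def, Option.some.injEq] at hx
      subst hx
      rw [hξ']
      intro h
      exact h20 (congrArg Prod.fst h).symm

/-- All turns between letters different from `x_{i₀}^{±1}` occur. -/
lemma all_turns {g : F N} {ξ η : Boundary N} (hl : IsLine g ξ η)
    (hξ : ξ.letter 0 ≠ (i₂, true)) (hη : η.take u.length = u)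
    (hu3 : u.head? = some (i₂, true))
    (huniv : ∀ y z : Fin N × Bool, y.1 ≠ i₀ → z.1 ≠ i₀ → z ≠ bar y →
        ∃ l₁ l₂, u = l₁ ++ [y, z] ++ l₂) :
    ∀ x z : Fin N × Bool, x.1 ≠ i₀ → z.1 ≠ i₀ → x ≠ z → Turn g x z := by
  intro x z hx hz hxz
  have hget : ∀ i (hi : i < u.length), η.letter i = u[i] := by
    intro i hi
    have := Boundary.take_getElem η u.length i (by simpa using hi)
    rw [← this]
    simp only [hη]
  have hη0 : η.letter 0 = (i₂, true) := by
    rw [List.head?_eq_getElem?] at hu3
    obtain ⟨h3, h4⟩ := List.getElem?_eq_some_iff.1 hu3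
    rw [hget 0 h3, h4]
  have hne : ξ.letter 0 ≠ η.letter 0 := by rw [hη0]; exact hξ
  obtain ⟨l₁, l₂, e⟩ := huniv (bar x) z (by simpa using hx) hz (by rw [bar_bar]; exact hxz.symm)
  have h1 := turn_of_line hl hne l₁.length
  have hlen : l₁.length + 1 < u.length := by rw [e]; simp
  have e1 : η.letter l₁.length = bar x := by
    rw [hget _ (by omega)]
    simp [e]
  have e2 : η.letter (l₁.length + 1) = z := by
    rw [hget _ hlen]
    simp [e]
  rwa [e1, e2, bar_bar] at h1

end RhoTarget

end Pool.Agent.H82.SR
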