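import Pool.Agent.H82.SR.Whitehead

set_option autoImplicit false

/-!
# Twist automorphisms and their effect on lines
-/

namespace Pool.Agent.H82.SR

open Filter Topology

variable {N : ℕ}

section Powers

lemma letter_eq_zpow (i : Fin N) (s : Bool) :
    (FreeGroup.mk [(i, s)] : F N) = (FreeGroup.of i) ^ (if s then (1 : ℤ) else -1) := by
  cases s
  · simp only [Bool.false_eq_true, if_false, zpow_neg, zpow_one]; rfl
  · simp only [if_true, zpow_one]; rfl

lemma sw_letter_pow_mul {i : Fin N} {s : Bool} {v : F N} (hv : ∀ x, SW v x → x.1 ≠ i) (n : ℕ) :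
    SW ((FreeGroup.mk [(i, s)] : F N) ^ (n + 1) * v) (i, s) := by
  induction n with
  | zero =>
    rw [zero_add, pow_one]
    apply sw_letter_mul
    intro h
    exact hv _ h rfl
  | succ n ih =>
    rw [pow_succ', mul_assoc]
    apply sw_letter_mul
    intro h
    have := sw_unique h ih
    exact bar_ne _ this

lemma sw_zpow_mul {i : Fin N} {v : F N} (hv : ∀ x, SW v x → x.1 ≠ i) {e : ℤ} (he : e ≠ 0) :
    SW ((FreeGroup.of i : F N) ^ e * v) (i, decide (0 < e)) := by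
  rcases lt_or_gt_of_ne he with h | h
  · obtain ⟨n, hn⟩ : ∃ n : ℕ, e = -((n : ℤ) + 1) := ⟨(-e - 1).toNat, by omega⟩
    have e1 : (FreeGroup.of i : F N) ^ e = (FreeGroup.mk [(i, false)] : F N) ^ (n + 1) := by
      have : (FreeGroup.mk [(i, false)] : F N) = (FreeGroup.of i)⁻¹ := rfl
      rw [this, hn, zpow_neg, inv_pow]
      congr 1
    rw [e1]
    have h2 : decide (0 < e) = false := decide_eq_false (by omega)
    rw [h2]
    exact sw_letter_pow_mul hv n
  · obtain ⟨n, hn⟩ : ∃ n : ℕ, e = ((n : ℤ) + 1) := ⟨(e - 1).toNat, by omega⟩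
    have e1 : (FreeGroup.of i : F N) ^ e = (FreeGroup.mk [(i, true)] : F N) ^ (n + 1) := by
      have : (FreeGroup.mk [(i, true)] : F N) = (FreeGroup.of i) := rfl
      rw [this, hn]
      exact_mod_cast zpow_natCast (FreeGroup.of i : F N) (n + 1)
    rw [e1]
    have h2 : decide (0 < e) = true := decide_eq_true (by omega)
    rw [h2]
    exact sw_letter_pow_mul hv n

/-- peeling off the maximal power of `x_i` -/
lemma exists_peel (i : Fin N) (w : F N) : ∃ (m : ℤ) (v : F N), w = (FreeGroup.of i) ^ m * v ∧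
    (∀ x, SW v x → x.1 ≠ i) ∧ v.norm ≤ w.norm := by
  induction hn : w.norm using Nat.strong_induction_on generalizing w with
  | _ n ih =>
    by_cases h : ∃ x, SW w x ∧ x.1 = i
    · obtain ⟨x, hx, hxi⟩ := h
      obtain ⟨w', hw', _, hnorm⟩ := exists_eq_letter_mul hx
      obtain ⟨m, v, h1, h2, h3⟩ := ih w'.norm (by omega) w' rfl
      obtain ⟨j, s⟩ := x
      simp only at hxi
      subst hxi
      refine ⟨(if s then (1 : ℤ) else -1) + m, v, ?_, h2, by omega⟩
      rw [hw', h1, letter_eq_zpow, zpow_add, mul_assoc]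
    · push Not at h
      exact ⟨0, w, by simp, h, by omega⟩

lemma zpow_smul_letter_zero {i : Fin N} {ζ : Boundary N} (hζ : (ζ.letter 0).1 ≠ i) {e : ℤ}
    (he : e ≠ 0) : ((FreeGroup.of i : F N) ^ e • ζ).letter 0 = (i, decide (0 < e)) := by
  have h1 := (convergesTo_take ζ).mul_left ((FreeGroup.of i : F N) ^ e)
  apply h1.letter_zero
  apply Eventually.frequently
  filter_upwards [eventually_ne_atTop 0] with n hn
  apply sw_zpow_mul _ he
  intro x hx
  rw [sw_unique hx (sw_take hn)]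
  exact hζ

end Powers

section Twist

/-- The homomorphism fixing `x_{i₀}` and sending `x_i` to
`x_{i₀}^{-r(i,false)} x_i x_{i₀}^{r(i,true)}`. -/
def twistHom (i₀ : Fin N) (r : Fin N × Bool → ℤ) : F N →* F N :=
  FreeGroup.lift (fun i => if i = i₀ then FreeGroup.of i₀ else
    (FreeGroup.of i₀) ^ (-(r (i, false))) * FreeGroup.of i * (FreeGroup.of i₀) ^ (r (i, true)))

lemma twistHom_gen (i₀ : Fin N) (r : Fin N × Bool → ℤ) :
    twistHom i₀ r (FreeGroup.of i₀) = FreeGroup.of i₀ := by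
  simp [twistHom]

lemma twistHom_of (i₀ : Fin N) (r : Fin N × Bool → ℤ) {i : Fin N} (hi : i ≠ i₀) :
    twistHom i₀ r (FreeGroup.of i) =
    (FreeGroup.of i₀) ^ (-(r (i, false))) * FreeGroup.of i * (FreeGroup.of i₀) ^ (r (i, true)) := by
  simp [twistHom, hi]

lemma twistHom_comp (i₀ : Fin N) (r : Fin N × Bool → ℤ) :
    (twistHom i₀ (-r)).comp (twistHom i₀ r) = MonoidHom.id (F N) := by
  apply FreeGroup.ext_hom
  intro i
  by_cases hi : i = i₀
  · subst hi
    simp [twistHom_gen]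
  · simp only [MonoidHom.comp_apply, twistHom_of i₀ r hi, map_mul, map_zpow, twistHom_gen,
      twistHom_of i₀ (-r) hi, MonoidHom.id_apply, Pi.neg_apply]
    group

/-- The twist automorphism. -/
def twist (i₀ : Fin N) (r : Fin N × Bool → ℤ) : F N ≃* F N :=
  MonoidHom.toMulEquiv (twistHom i₀ r) (twistHom i₀ (-r)) (twistHom_comp i₀ r) (by
    have := twistHom_comp i₀ (-r)
    rwa [neg_neg] at this)

lemma twist_apply (i₀ : Fin N) (r : Fin N × Bool → ℤ) (g : F N) :
    twist i₀ r g = twistHom i₀ r g := rfl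

lemma twist_gen (i₀ : Fin N) (r : Fin N × Bool → ℤ) :
    twist i₀ r (FreeGroup.of i₀) = FreeGroup.of i₀ := twistHom_gen i₀ r

lemma twist_zpow (i₀ : Fin N) (r : Fin N × Bool → ℤ) (m : ℤ) :
    twist i₀ r ((FreeGroup.of i₀) ^ m) = (FreeGroup.of i₀) ^ m := by
  rw [map_zpow, twist_gen]

lemma twist_letter (i₀ : Fin N) (r : Fin N × Bool → ℤ) {z : Fin N × Bool} (hz : z.1 ≠ i₀) :
    twist i₀ r (FreeGroup.mk [z]) =
    (FreeGroup.of i₀) ^ (-(r (bar z))) * FreeGroup.mk [z] * (FreeGroup.of i₀) ^ (r z) := by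
  obtain ⟨i, s⟩ := z
  cases s
  · have h1 : (FreeGroup.mk [(i, false)] : F N) = (FreeGroup.of i)⁻¹ := rfl
    rw [h1, map_inv, twist_apply, twistHom_of i₀ r hz]
    simp only [bar, Bool.not_false]
    group
  · have h1 : (FreeGroup.mk [(i, true)] : F N) = (FreeGroup.of i) := rfl
    rw [h1, twist_apply, twistHom_of i₀ r hz]
    rfl

/-- finite level statement for twists -/
lemma twist_sw (i₀ : Fin N) (r : Fin N × Bool → ℤ) (w : F N) (z : Fin N × Bool) (hz : z.1 ≠ i₀)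
    (hw : SW w z) : SW ((FreeGroup.of i₀) ^ (r (bar z)) * twist i₀ r w) z := by
  induction hn : w.norm using Nat.strong_induction_on generalizing w z with
  | _ n ih =>
    obtain ⟨w', hw', hnot, hnorm⟩ := exists_eq_letter_mul hw
    obtain ⟨m, v, h1, h2, h3⟩ := exists_peel i₀ w'
    have e1 : (FreeGroup.of i₀) ^ (r (bar z)) * twist i₀ r w =
        FreeGroup.mk [z] * ((FreeGroup.of i₀) ^ (r z + m) * twist i₀ r v) := by
      rw [hw', h1, map_mul, map_mul, twist_letter i₀ r hz, twist_zpow]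
      group
    rw [e1]
    apply sw_letter_mul
    by_cases hv : v = 1
    · rw [hv, map_one]
      by_cases he : r z + m = 0
      · rw [he, zpow_zero, one_mul]
        intro h; exact sw_ne_one h rfl
      · intro h
        have h4 := sw_zpow_mul (i := i₀) (v := (1 : F N)) (fun x hx => absurd rfl (sw_ne_one hx)) he
        have := sw_unique h h4
        exact hz (congrArg Prod.fst this)
    · obtain ⟨z', hz'⟩ := exists_sw hv
      have hz'0 := h2 z' hz'
      have h5 := ih v.norm (by omega) v z' hz'0 hz' rfl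
      set v' := (FreeGroup.of i₀) ^ (r (bar z')) * twist i₀ r v with hv'
      have e2 : (FreeGroup.of i₀) ^ (r z + m) * twist i₀ r v =
          (FreeGroup.of i₀) ^ (r z + m - r (bar z')) * v' := by
        rw [hv']; group
      rw [e2]
      by_cases he : r z + m - r (bar z') = 0
      · rw [he, zpow_zero, one_mul]
        intro h
        have h6 : bar z = z' := sw_unique h h5
        subst h6
        rw [bar_bar] at he
        have hm : m = 0 := by omega
        rw [hm, zpow_zero, one_mul] at h1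
        rw [h1] at hnot
        exact hnot hz'
      · intro h
        have h4 := sw_zpow_mul (i := i₀) (v := v') (by
          intro x hx
          rw [sw_unique hx h5]; exact hz'0) he
        have := sw_unique h h4
        exact hz (congrArg Prod.fst this)

lemma twist_letter_zero (i₀ : Fin N) (r : Fin N × Bool → ℤ) (ξ : Boundary N) (z : Fin N × Bool)
    (hz : z.1 ≠ i₀) (hξ : ξ.letter 0 = z) :
    ((FreeGroup.of i₀) ^ (r (bar z)) • bdMap (twist i₀ r) ξ).letter 0 = z :=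
  bdMap_letter_zero (twist i₀ r) _ (fun g hg => twist_sw i₀ r g z hz hg) ξ hξ

lemma bdMap_twist_zpow_smul (i₀ : Fin N) (r : Fin N × Bool → ℤ) (m : ℤ) (ξ : Boundary N) :
    bdMap (twist i₀ r) ((FreeGroup.of i₀) ^ m • ξ) =
      (FreeGroup.of i₀) ^ m • bdMap (twist i₀ r) ξ := by
  rw [bdMap_smul, twist_zpow]

/-- The line of `g` reads `y₁ x_{i₀}^m y₂`. -/
def Pass (i₀ : Fin N) (g : F N) (y₁ : Fin N × Bool) (m : ℤ) (y₂ : Fin N × Bool) : Prop :=
  ∃ ξ η : Boundary N, IsLine g ξ η ∧ ξ.letter 0 = bar y₁ ∧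
    ((FreeGroup.of i₀ : F N) ^ (-m) • η).letter 0 = y₂

/-- The line of `g` reads `y₁ x_{i₀}^{m₁} y₂ x_{i₀}^{m₂} y₃`. -/
def Pass2 (i₀ : Fin N) (g : F N) (y₁ : Fin N × Bool) (m₁ : ℤ) (y₂ : Fin N × Bool) (m₂ : ℤ)
    (y₃ : Fin N × Bool) : Prop :=
  ∃ ξ η : Boundary N, IsLine g ξ η ∧ ξ.letter 0 = bar y₂ ∧
    ((FreeGroup.of i₀ : F N) ^ (-m₂) • η).letter 0 = y₃ ∧
    ((FreeGroup.of i₀ : F N) ^ m₁ • (FreeGroup.mk [y₂] : F N) • ξ).letter 0 = bar y₁

lemma Pass2.twist {i₀ : Fin N} {g : F N} {y₁ y₂ y₃ : Fin N × Bool} {m₁ m₂ : ℤ}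
    (h : Pass2 i₀ g y₁ m₁ y₂ m₂ y₃) (r : Fin N × Bool → ℤ) (h₁ : y₁.1 ≠ i₀) (h₂ : y₂.1 ≠ i₀)
    (h₃ : y₃.1 ≠ i₀) :
    Pass2 i₀ (twist i₀ r g) y₁ (m₁ + r y₁ - r (bar y₂)) y₂ (m₂ + r y₂ - r (bar y₃)) y₃ := by
  obtain ⟨ξ, η, hl, hξ, hη, hξ2⟩ := h
  refine ⟨_, _, (hl.map (SR.twist i₀ r)).smul ((FreeGroup.of i₀) ^ (r y₂)), ?_, ?_, ?_⟩
  · have := twist_letter_zero i₀ r ξ (bar y₂) (by simpa using h₂) hξ
    rwa [bar_bar] at this
  · have h4 := twist_letter_zero i₀ r _ y₃ h₃ hη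
    rw [bdMap_twist_zpow_smul, ← mul_smul, ← zpow_add] at h4
    rw [← mul_smul, ← zpow_add]
    have e : r (bar y₃) + -m₂ = -(m₂ + r y₂ - r (bar y₃)) + r y₂ := by ring
    rwa [← e]
  · have h4 := twist_letter_zero i₀ r _ (bar y₁) (by simpa using h₁) hξ2
    rw [bar_bar, bdMap_twist_zpow_smul, bdMap_smul, twist_letter i₀ r h₂] at h4
    simp only [← mul_smul] at h4 ⊢
    have e : (FreeGroup.of i₀ : F N) ^ (r y₁) * ((FreeGroup.of i₀) ^ m₁ *
        ((FreeGroup.of i₀) ^ (-r (bar y₂)) * FreeGroup.mk [y₂] * (FreeGroup.of i₀) ^ (r y₂))) =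
        (FreeGroup.of i₀) ^ (m₁ + r y₁ - r (bar y₂)) *
          (FreeGroup.mk [y₂] * (FreeGroup.of i₀) ^ (r y₂)) := by group
    rwa [e] at h4

/-- The line of `g` reads `x_{i₀}^{±} Y x_{i₀}^{±}` where `Y` is trivial or one letter. -/
def Target (i₀ : Fin N) (g : F N) : Prop :=
  ∃ (ξ η : Boundary N) (Y : F N) (s₁ s₂ : Bool), IsLine g ξ η ∧ ξ.letter 0 = (i₀, !s₁) ∧
    (Y⁻¹ • η).letter 0 = (i₀, s₂) ∧
    ((Y = 1 ∧ s₁ = s₂) ∨ ∃ y : Fin N × Bool, y.1 ≠ i₀ ∧ Y = FreeGroup.mk [y])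

lemma decide_flip {m : ℤ} (hm : m ≠ 0) : decide (0 < -m) = !decide (0 < m) := by
  rcases lt_or_gt_of_ne hm with h | h
  · have h1 : decide (0 < m) = false := by simp; omega
    have h2 : decide (0 < -m) = true := by simp; omega
    rw [h1, h2]; rfl
  · have h1 : decide (0 < m) = true := by simp; omega
    have h2 : decide (0 < -m) = false := by simp; omega
    rw [h1, h2]; rfl

/-- a long run of `x_{i₀}` gives the target -/
lemma target_of_run {i₀ : Fin N} {g : F N} {ξ η : Boundary N} (hl : IsLine g ξ η)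
    (hξ : (ξ.letter 0).1 ≠ i₀) {m : ℤ} (hη : (((FreeGroup.of i₀ : F N) ^ (-m) • η).letter 0).1 ≠ i₀)
    (hm : 2 ≤ |m|) : Target i₀ g := by
  set ζ := (FreeGroup.of i₀ : F N) ^ (-m) • η with hζ
  have hη' : η = (FreeGroup.of i₀ : F N) ^ m • ζ := by
    rw [hζ, ← mul_smul, ← zpow_add]; simp
  rcases le_or_gt 0 m with h0 | h0
  · have hm2 : 2 ≤ m := by rwa [abs_of_nonneg h0] at hm
    refine ⟨_, _, 1, true, true, hl.smul ((FreeGroup.of i₀) ^ (-1 : ℤ)), ?_, ?_,
      Or.inl ⟨rfl, rfl⟩⟩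
    · rw [zpow_smul_letter_zero hξ (by norm_num)]; simp
    · rw [inv_one, one_smul, hη', ← mul_smul, ← zpow_add,
        zpow_smul_letter_zero hη (by omega)]
      congr 1
      simp; omega
  · have hm2 : m ≤ -2 := by rw [abs_of_neg h0] at hm; omega
    refine ⟨_, _, 1, false, false, hl.smul ((FreeGroup.of i₀) ^ (1 : ℤ)), ?_, ?_,
      Or.inl ⟨rfl, rfl⟩⟩
    · rw [zpow_smul_letter_zero hξ (by norm_num)]; simp
    · rw [inv_one, one_smul, hη', ← mul_smul, ← zpow_add,
        zpow_smul_letter_zero hη (by omega)]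
      congr 1
      simp; omega

/-- After a large twist one always reaches the target. -/
lemma Pass2.target {i₀ : Fin N} {g : F N} {y₁ y₂ y₃ : Fin N × Bool} {m₁ m₂ : ℤ}
    (h : Pass2 i₀ g y₁ m₁ y₂ m₂ y₃) (h₁ : y₁.1 ≠ i₀) (h₂ : y₂.1 ≠ i₀)
    (h₃ : y₃.1 ≠ i₀) (hm₁ : m₁ = 0 → y₂ ≠ bar y₁) (hm₂ : m₂ = 0 → y₃ ≠ bar y₂)
    (r : Fin N × Bool → ℤ) (n R : ℤ) (hR₁ : |m₁| ≤ R) (hR₂ : |m₂| ≤ R) (hn : R + 2 ≤ n)
    (hr : ∀ y z : Fin N × Bool, y.1 ≠ i₀ → z.1 ≠ i₀ → y ≠ z → n ≤ |r y - r z|) :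
    Target i₀ (SR.twist i₀ r g) := by
  obtain ⟨ξ, η, hl, hξ, hη, hξ2⟩ := h.twist r h₁ h₂ h₃
  by_cases hA : y₃ = bar y₂
  · by_cases hB : y₂ = bar y₁
    · -- alternating case
      subst hB
      subst hA
      simp only [bar_bar] at *
      have hm1 : m₁ ≠ 0 := fun h => hm₁ h rfl
      have hm2 : m₂ ≠ 0 := fun h => hm₂ h rfl
      have e1 : m₁ + r y₁ - r y₁ = m₁ := by ring
      have e2 : m₂ + r (bar y₁) - r (bar y₁) = m₂ := by ring
      rw [e1] at hξ2
      rw [e2] at hη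
      refine ⟨_, _, FreeGroup.mk [bar y₁], decide (0 < m₁), decide (0 < m₂),
        hl.smul (FreeGroup.mk [bar y₁]), ?_, ?_, Or.inr ⟨bar y₁, by simpa using h₁, rfl⟩⟩
      · have h5 : (FreeGroup.mk [bar y₁] : F N) • ξ =
            (FreeGroup.of i₀ : F N) ^ (-m₁) • ((FreeGroup.of i₀ : F N) ^ m₁ •
              (FreeGroup.mk [bar y₁] : F N) • ξ) := by
          rw [← mul_smul ((FreeGroup.of i₀ : F N) ^ (-m₁)), ← zpow_add]; simp
        rw [h5, zpow_smul_letter_zero (by rw [hξ2]; simpa using h₁) (by omega), decide_flip hm1]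
      · rw [inv_smul_smul]
        have h5 : η = (FreeGroup.of i₀ : F N) ^ m₂ • ((FreeGroup.of i₀ : F N) ^ (-m₂) • η) := by
          rw [← mul_smul, ← zpow_add]; simp
        rw [h5, zpow_smul_letter_zero (by rw [hη]; exact h₁) hm2]
    · -- long run before y₂
      have hne : y₁ ≠ bar y₂ := by
        intro h; apply hB; rw [h, bar_bar]
      have h4 := hr y₁ (bar y₂) h₁ (by simpa using h₂) hne
      have h5 : 2 ≤ |m₁ + r y₁ - r (bar y₂)| := by
        have h6 : |r y₁ - r (bar y₂)| ≤ |m₁ + r y₁ - r (bar y₂)| + |m₁| := by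
          have e : r y₁ - r (bar y₂) = (m₁ + r y₁ - r (bar y₂)) - m₁ := by ring
          rw [e]; exact abs_sub _ _
        omega
      -- the line read backwards, based before `y₂`
      have hl2 := (hl.smul (FreeGroup.mk [y₂])).symm
      apply target_of_run (m := -(m₁ + r y₁ - r (bar y₂))) hl2
      · have hm2 : m₂ ≠ 0 := fun h => hm₂ h hA
        have hne2 : η.letter 0 ≠ bar y₂ := by
          subst hA
          rw [bar_bar] at hη
          have e2 : m₂ + r y₂ - r y₂ = m₂ := by ring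
          rw [e2] at hη
          have h7 : η = (FreeGroup.of i₀ : F N) ^ m₂ • ((FreeGroup.of i₀ : F N) ^ (-m₂) • η) := by
            rw [← mul_smul, ← zpow_add]; simp
          rw [h7, zpow_smul_letter_zero (by rw [hη]; simpa using h₂) hm2]
          intro h8
          exact h₂ (congrArg Prod.fst h8).symm
        rw [Boundary.letter_smul, Boundary.letterMul_of_ne hne2, Boundary.cons_letter_zero]
        exact h₂
      · rw [neg_neg, hξ2]; simpa using h₁
      · rwa [abs_neg]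
  · have hne : y₂ ≠ bar y₃ := by
      intro h; apply hA; rw [h, bar_bar]
    have h4 := hr y₂ (bar y₃) h₂ (by simpa using h₃) hne
    have h5 : 2 ≤ |m₂ + r y₂ - r (bar y₃)| := by
      have h6 : |r y₂ - r (bar y₃)| ≤ |m₂ + r y₂ - r (bar y₃)| + |m₂| := by
        have e : r y₂ - r (bar y₃) = (m₂ + r y₂ - r (bar y₃)) - m₂ := by ring
        rw [e]; exact abs_sub _ _
      omega
    exact target_of_run hl (by rw [hξ]; simpa using h₂) (by rw [hη]; exact h₃) h5

end Twist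

end Pool.Agent.H82.SR
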