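import Pool.Agent.H82.SR.Axis
import Pool.Agent.H82.SR.OuterDefs

set_option autoImplicit false

/-!
# Lines of an element, primitive elements and Whitehead's cut vertex lemma
-/

namespace Pool.Agent.H82.SR

open Filter Topology

variable {N : ℕ}

lemma IsPrimitive.exists_equiv {g : F N} (hg : IsPrimitive g) (i₀ : Fin N) :
    ∃ θ : F N ≃* F N, θ (FreeGroup.of i₀) = g := by
  classical
  obtain ⟨ι, b, i, rfl⟩ := hg
  let e : Fin N ≃ ι := Equiv.ofFreeGroupEquiv b.repr
  let e' : Fin N ≃ ι := e.trans (Equiv.swap (e i₀) i)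
  refine ⟨(FreeGroup.freeGroupCongr e').trans b.repr.symm, ?_⟩
  have h1 : e' i₀ = i := by simp [e']
  simp only [MulEquiv.trans_apply, FreeGroup.freeGroupCongr_apply, FreeGroup.map.of, h1]
  rfl

lemma isPrimitive_of (i : Fin N) : IsPrimitive (FreeGroup.of i : F N) :=
  ⟨Fin N, FreeGroupBasis.ofFreeGroup (Fin N), i, rfl⟩

lemma IsPrimitive.map {g : F N} (hg : IsPrimitive g) (θ : F N ≃* F N) : IsPrimitive (θ g) := by
  obtain ⟨ι, b, i, rfl⟩ := hg
  exact ⟨ι, b.map θ, i, rfl⟩

lemma IsPrimitive.ne_one {g : F N} (hg : IsPrimitive g) : g ≠ 1 := by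
  obtain ⟨ι, b, i, rfl⟩ := hg
  intro h
  have := congrArg b.repr h
  rw [FreeGroupBasis.repr_apply_coe, map_one] at this
  exact FreeGroup.of_ne_one i this

/-- `(ξ, η)` is a translate of `(g^{-∞}, g^∞)` or of `(g^∞, g^{-∞})`. -/
def IsLine (g : F N) (ξ η : Boundary N) : Prop :=
  ∃ (h : F N) (a b : Boundary N), Attr g⁻¹ a ∧ Attr g b ∧
    ((ξ = h • a ∧ η = h • b) ∨ (ξ = h • b ∧ η = h • a))

lemma IsLine.symm {g : F N} {ξ η : Boundary N} (h : IsLine g ξ η) : IsLine g η ξ := by
  obtain ⟨h, a, b, h1, h2, h3 | h3⟩ := h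
  · exact ⟨h, a, b, h1, h2, Or.inr ⟨h3.2, h3.1⟩⟩
  · exact ⟨h, a, b, h1, h2, Or.inl ⟨h3.2, h3.1⟩⟩

lemma IsLine.smul {g : F N} {ξ η : Boundary N} (h : IsLine g ξ η) (x : F N) :
    IsLine g (x • ξ) (x • η) := by
  obtain ⟨h, a, b, h1, h2, ⟨rfl, rfl⟩ | ⟨rfl, rfl⟩⟩ := h
  · exact ⟨x * h, a, b, h1, h2, Or.inl ⟨by rw [mul_smul], by rw [mul_smul]⟩⟩
  · exact ⟨x * h, a, b, h1, h2, Or.inr ⟨by rw [mul_smul], by rw [mul_smul]⟩⟩

lemma IsLine.map {g : F N} {ξ η : Boundary N} (h : IsLine g ξ η) (θ : F N ≃* F N) :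
    IsLine (θ g) (bdMap θ ξ) (bdMap θ η) := by
  obtain ⟨h, a, b, h1, h2, ⟨rfl, rfl⟩ | ⟨rfl, rfl⟩⟩ := h
  · refine ⟨θ h, bdMap θ a, bdMap θ b, ?_, h2.map θ, Or.inl ⟨bdMap_smul _ _ _, bdMap_smul _ _ _⟩⟩
    have := h1.map θ
    rwa [map_inv] at this
  · refine ⟨θ h, bdMap θ a, bdMap θ b, ?_, h2.map θ, Or.inr ⟨bdMap_smul _ _ _, bdMap_smul _ _ _⟩⟩
    have := h1.map θ
    rwa [map_inv] at this

lemma IsLine.ne {g : F N} (hg : g ≠ 1) {ξ η : Boundary N} (h : IsLine g ξ η) : ξ ≠ η := by
  obtain ⟨h, a, b, h1, h2, ⟨rfl, rfl⟩ | ⟨rfl, rfl⟩⟩ := h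
  · intro he
    exact attr_ne hg h1 h2 (smul_left_cancel h he)
  · intro he
    exact attr_ne hg h1 h2 (smul_left_cancel h he).symm

/-- The line of `g` takes the turn `{x, y}` (directions at a vertex of the Cayley tree). -/
def Turn (g : F N) (x y : Fin N × Bool) : Prop :=
  ∃ ξ η, IsLine g ξ η ∧ ξ.letter 0 = x ∧ η.letter 0 = y

lemma Turn.symm {g : F N} {x y : Fin N × Bool} (h : Turn g x y) : Turn g y x := by
  obtain ⟨ξ, η, h1, h2, h3⟩ := h
  exact ⟨η, ξ, h1.symm, h3, h2⟩

/-- backward letters of a line -/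
lemma back_letter {ξ η : Boundary N} (h : ξ.letter 0 ≠ η.letter 0) (n i : ℕ) (hi : i < n) :
    ((FreeGroup.mk (η.take n) : F N)⁻¹ • ξ).letter i = bar (η.letter (n - 1 - i)) := by
  have hr : FreeGroup.IsReduced (FreeGroup.invRev (η.take n)) := by
    have : ((FreeGroup.mk (η.take n) : F N)⁻¹).toWord = FreeGroup.invRev (η.take n) := by
      rw [FreeGroup.toWord_inv, toWord_mk_of_reduced (η.take_reduced n)]
    rw [← this]; exact toWord_reduced _
  have hlen : (FreeGroup.invRev (η.take n)).length = n := by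
    rw [FreeGroup.invRev_length, Boundary.take_length]
  rw [FreeGroup.inv_mk]
  have e1 : FreeGroup.invRev (η.take n) = ((η.take n).map bar).reverse := rfl
  rw [Boundary.letter_mk_smul _ ξ hr ?_ i (by rw [hlen]; exact hi)]
  · simp only [e1, List.getElem_reverse, List.getElem_map, List.length_map, Boundary.take_length]
    rw [Boundary.take_getElem]
  · intro x hx
    obtain ⟨m, rfl⟩ := Nat.exists_eq_succ_of_ne_zero (show n ≠ 0 by omega)
    rw [e1, Boundary.take_succ'] at hx
    simp only [List.map_cons, List.reverse_cons, List.getLast?_append, List.getLast?_singleton,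
      Option.some_or, Option.mem_def, Option.some.injEq] at hx
    rw [← hx, bar_bar]
    exact h

lemma fwd_smul {η : Boundary N} (n : ℕ) :
    (FreeGroup.mk (η.take n) : F N)⁻¹ • η = η.drop n := by
  rw [inv_smul_eq_iff, Boundary.take_smul_drop]

/-- lines pass through consecutive letters -/
lemma turn_of_line {g : F N} {ξ η : Boundary N} (h : IsLine g ξ η)
    (hne : ξ.letter 0 ≠ η.letter 0) (n : ℕ) : Turn g (bar (η.letter n)) (η.letter (n + 1)) := by
  refine ⟨_, _, h.smul (FreeGroup.mk (η.take (n + 1)))⁻¹, ?_, ?_⟩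
  · rw [back_letter hne (n + 1) 0 (by omega)]
    simp
  · rw [fwd_smul]; simp

section Whitehead

lemma exists_constant (x : Fin N × Bool) : ∃ ξ : Boundary N, ξ.letter 0 = x :=
  ⟨per [x] (by simp) (by simp), by simp [per_letter]⟩

lemma attr_of_letter_zero {i : Fin N} {ξ : Boundary N} (h : Attr (FreeGroup.of i) ξ) :
    ξ.letter 0 = (i, true) := by
  have h1 := attr_per [(i, true)] (by simp) (by simp)
  have h2 : FreeGroup.mk [(i, true)] = (FreeGroup.of i : F N) := rfl
  rw [h2] at h1
  rw [h.unique h1, per_letter]; simp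

lemma attr_of_inv_letter_zero {i : Fin N} {ξ : Boundary N} (h : Attr (FreeGroup.of i)⁻¹ ξ) :
    ξ.letter 0 = (i, false) := by
  have h1 := attr_per [(i, false)] (by simp) (by simp)
  have h2 : FreeGroup.mk [(i, false)] = (FreeGroup.of i : F N)⁻¹ := rfl
  rw [h2] at h1
  rw [h.unique h1, per_letter]; simp

lemma line_of_gen {i : Fin N} {b : Fin N × Bool} (hb : b.1 ≠ i) {ξ η : Boundary N}
    (h : IsLine (FreeGroup.of i) ξ η) : ξ.letter 0 = b ↔ η.letter 0 = b := by
  have key : ∀ (a c : Boundary N), Attr (FreeGroup.of i)⁻¹ a → Attr (FreeGroup.of i) c →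
      ∀ l : List (Fin N × Bool), FreeGroup.IsReduced l →
      (((FreeGroup.mk l : F N) • a).letter 0 = b ↔ ((FreeGroup.mk l : F N) • c).letter 0 = b) := by
    intro a c ha hc l
    induction l using List.reverseRecOn with
    | nil =>
      intro _
      have : (FreeGroup.mk ([] : List (Fin N × Bool)) : F N) = 1 := rfl
      rw [this, one_smul, one_smul, attr_of_inv_letter_zero ha, attr_of_letter_zero hc]
      constructor
      · rintro rfl; exact absurd rfl hb
      · rintro rfl; exact absurd rfl hb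
    | append_singleton l x ih =>
      intro hl
      by_cases hx : x.1 = i
      · have hl' : FreeGroup.IsReduced l := by
          rw [isReduced_iff] at hl ⊢
          exact (List.isChain_append.1 hl).1
        have e1 : (FreeGroup.mk (l ++ [x]) : F N) = FreeGroup.mk l * FreeGroup.mk [x] := by simp
        have e2 : (FreeGroup.mk [x] : F N) • a = a ∧ (FreeGroup.mk [x] : F N) • c = c := by
          obtain ⟨j, s⟩ := x
          simp only at hx
          subst hx
          cases s
          · have : (FreeGroup.mk [(j, false)] : F N) = (FreeGroup.of j)⁻¹ := rfl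
            rw [this]
            exact ⟨ha.smul_self, hc.inv_smul_self⟩
          · have : (FreeGroup.mk [(j, true)] : F N) = (FreeGroup.of j) := rfl
            rw [this]
            exact ⟨ha.smul_self', hc.smul_self⟩
        rw [e1, mul_smul, mul_smul, e2.1, e2.2]
        exact ih hl'
      · have h1 : ∀ y ∈ (l ++ [x]).getLast?, a.letter 0 ≠ bar y := by
          intro y hy
          simp only [List.getLast?_append, List.getLast?_singleton, Option.some_or,
            Option.mem_def, Option.some.injEq] at hy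
          subst hy
          rw [attr_of_inv_letter_zero ha]
          intro h
          apply hx
          have := congrArg Prod.fst h
          simpa using this.symm
        have h2 : ∀ y ∈ (l ++ [x]).getLast?, c.letter 0 ≠ bar y := by
          intro y hy
          simp only [List.getLast?_append, List.getLast?_singleton, Option.some_or,
            Option.mem_def, Option.some.injEq] at hy
          subst hy
          rw [attr_of_letter_zero hc]
          intro h
          apply hx
          have := congrArg Prod.fst h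
          simpa using this.symm
        rw [Boundary.letter_mk_smul _ a hl h1 0 (by simp),
          Boundary.letter_mk_smul _ c hl h2 0 (by simp)]
  obtain ⟨h, a, c, ha, hc, ⟨rfl, rfl⟩ | ⟨rfl, rfl⟩⟩ := h
  · have := key a c ha hc h.toWord (toWord_reduced h)
    rwa [FreeGroup.mk_toWord] at this
  · have := key a c ha hc h.toWord (toWord_reduced h)
    rw [FreeGroup.mk_toWord] at this
    exact this.symm

/-- **Whitehead's cut vertex lemma**, in terms of turns. For a primitive element `g` there are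
a direction `x` and a colouring `κ` of the directions which is not constant on the directions
different from `x`, but such that any turn of `g` not involving `x` has its two directions of
the same colour. -/
theorem whitehead (hN : 2 ≤ N) {g : F N} (hg : IsPrimitive g) :
    ∃ (κ : Fin N × Bool → Prop) (x : Fin N × Bool), (∃ y z, y ≠ x ∧ z ≠ x ∧ κ y ∧ ¬ κ z) ∧
      ∀ y z, Turn g y z → y ≠ x → z ≠ x → (κ y ↔ κ z) := by
  let i₀ : Fin N := ⟨0, by omega⟩
  let i₁ : Fin N := ⟨1, by omega⟩
  have hi : i₁ ≠ i₀ := by simp [i₀, i₁, Fin.ext_iff]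
  obtain ⟨θ, hθ⟩ := hg.exists_equiv i₀
  let b : Fin N × Bool := (i₁, true)
  let U : Boundary N → Prop := fun ξ => (bdMap θ.symm ξ).letter 0 = b
  have hU : ∀ ξ η, IsLine g ξ η → (U ξ ↔ U η) := by
    intro ξ η h
    have h2 := h.map θ.symm
    rw [← hθ, MulEquiv.symm_apply_apply] at h2
    exact line_of_gen (i := i₀) (b := b) hi h2
  obtain ⟨n₁, hn₁⟩ := bdMap_finite θ.symm 1
  have hfin : ∀ ξ η : Boundary N, ξ.take n₁ = η.take n₁ → (U ξ ↔ U η) := by
    intro ξ η h
    have h1 := hn₁ ξ η h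
    rw [Boundary.take_eq_iff] at h1
    have h2 := h1 0 (by omega)
    change (bdMap θ.symm ξ).letter 0 = b ↔ (bdMap θ.symm η).letter 0 = b
    rw [h2]
  -- non-monochromatic prefixes
  let P : ℕ → Prop := fun n => ∃ ξ₁ ξ₂ : Boundary N, ξ₁.take n = ξ₂.take n ∧ U ξ₁ ∧ ¬ U ξ₂
  have hP0 : P 0 := by
    obtain ⟨c₁, hc₁⟩ := exists_constant b
    obtain ⟨c₂, hc₂⟩ := exists_constant ((i₀, true) : Fin N × Bool)
    refine ⟨bdMap θ c₁, bdMap θ c₂, by simp, ?_, ?_⟩
    · change (bdMap θ.symm (bdMap θ c₁)).letter 0 = b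
      rw [bdMap_symm_bdMap, hc₁]
    · change ¬ (bdMap θ.symm (bdMap θ c₂)).letter 0 = b
      rw [bdMap_symm_bdMap, hc₂]
      intro h
      exact hi (congrArg Prod.fst h).symm
  have hPn : ¬ P n₁ := by
    rintro ⟨ξ₁, ξ₂, h1, h2, h3⟩
    exact h3 ((hfin ξ₁ ξ₂ h1).1 h2)
  obtain ⟨n, hPn', hPn1⟩ : ∃ n, P n ∧ ¬ P (n + 1) := by
    by_contra hcon
    push Not at hcon
    have : ∀ n, P n := by
      intro n
      induction n with
      | zero => exact hP0
      | succ n ih => exact hcon n ih
    exact hPn (this n₁)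
  obtain ⟨ξ₁, ξ₂, ht, hU1, hU2⟩ := hPn'
  have hmono : ∀ ζ ζ' : Boundary N, ζ.take (n + 1) = ζ'.take (n + 1) → (U ζ ↔ U ζ') := by
    intro ζ ζ' h
    by_contra hcon
    apply hPn1
    by_cases hζ : U ζ
    · refine ⟨ζ, ζ', h, hζ, ?_⟩
      intro hζ'
      exact hcon ⟨fun _ => hζ', fun _ => hζ⟩
    · refine ⟨ζ', ζ, h.symm, ?_, hζ⟩
      by_contra hζ'
      exact hcon ⟨fun h => absurd h hζ, fun h => absurd h hζ'⟩
  -- the base vertex
  let l := ξ₁.take n
  have hl : FreeGroup.IsReduced l := ξ₁.take_reduced n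
  have hlen : l.length = n := by simp [l]
  let v : F N := FreeGroup.mk l
  -- choice of `x`
  obtain ⟨x, hx, hx1, hx2⟩ : ∃ x : Fin N × Bool, (∀ y, y ≠ x → ∀ z ∈ l.getLast?, y ≠ bar z) ∧
      ξ₁.letter n ≠ x ∧ ξ₂.letter n ≠ x := by
    rcases Nat.eq_zero_or_pos n with h0 | h0
    · -- any third direction
      have : ∃ x : Fin N × Bool, x ∉ ({ξ₁.letter n, ξ₂.letter n} : Finset (Fin N × Bool)) := by
        by_contra hcon
        push Not at hcon
        have h1 : (Finset.univ : Finset (Fin N × Bool)) ⊆ {ξ₁.letter n, ξ₂.letter n} :=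
          fun x _ => hcon x
        have h2 := Finset.card_le_card h1
        have h3 : (Finset.univ : Finset (Fin N × Bool)).card = N * 2 := by
          rw [Finset.card_univ, Fintype.card_prod, Fintype.card_fin, Fintype.card_bool]
        have h4 := Finset.card_insert_le (ξ₁.letter n) {ξ₂.letter n}
        rw [Finset.card_singleton] at h4
        omega
      obtain ⟨x, hx⟩ := this
      simp only [Finset.mem_insert, Finset.mem_singleton, not_or] at hx
      refine ⟨x, ?_, fun h => hx.1 h.symm, fun h => hx.2 h.symm⟩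
      intro y _ z hz
      have : l = [] := by
        apply List.length_eq_zero_iff.1; omega
      rw [this] at hz
      simp at hz
    · obtain ⟨m, rfl⟩ := Nat.exists_eq_succ_of_ne_zero (show n ≠ 0 by omega)
      refine ⟨bar (ξ₁.letter m), ?_, ξ₁.letter_succ_ne m, ?_⟩
      · intro y hy z hz
        have : l = ξ₁.take m ++ [ξ₁.letter m] := Boundary.take_succ ξ₁ m
        rw [this] at hz
        simp only [List.getLast?_append, List.getLast?_singleton, Option.some_or,
            Option.mem_def, Option.some.injEq] at hz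
        rw [← hz]; exact hy
      · rw [Boundary.take_eq_iff] at ht
        rw [ht m (by omega)]
        exact ξ₂.letter_succ_ne m
  have htake : ∀ ζ : Boundary N, ζ.letter 0 ≠ x → (v • ζ).take (n + 1) = l ++ [ζ.letter 0] := by
    intro ζ hζ
    have h1 : ∀ z ∈ l.getLast?, ζ.letter 0 ≠ bar z := hx _ hζ
    rw [Boundary.take_succ]
    have h2 := Boundary.take_mk_smul l ζ hl h1
    have h3 := Boundary.drop_mk_smul l ζ hl h1
    rw [hlen] at h2 h3
    rw [h2]
    congr 2
    have h4 := congrArg (fun ζ : Boundary N => ζ.letter 0) h3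
    simpa using h4
  have hv1 : ξ₁ = v • ξ₁.drop n := (Boundary.take_smul_drop ξ₁ n).symm
  have hv2 : ξ₂ = v • ξ₂.drop n := by
    have := (Boundary.take_smul_drop ξ₂ n).symm
    rw [← ht] at this
    exact this
  let κ : Fin N × Bool → Prop := fun y => ∃ ζ : Boundary N, ζ.letter 0 = y ∧ U (v • ζ)
  have hκ : ∀ ζ : Boundary N, ζ.letter 0 ≠ x → (κ (ζ.letter 0) ↔ U (v • ζ)) := by
    intro ζ hζ
    constructor
    · rintro ⟨ζ', h1, h2⟩
      refine (hmono _ _ ?_).1 h2
      rw [htake ζ hζ, htake ζ' (by rw [h1]; exact hζ), h1]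
    · intro h
      exact ⟨ζ, rfl, h⟩
  refine ⟨κ, x, ⟨ξ₁.letter n, ξ₂.letter n, hx1, hx2, ?_, ?_⟩, ?_⟩
  · have := (hκ (ξ₁.drop n) (by simpa using hx1)).2 (by rw [← hv1]; exact hU1)
    simpa using this
  · intro h
    have := (hκ (ξ₂.drop n) (by simpa using hx2)).1 (by simpa using h)
    rw [← hv2] at this
    exact hU2 this
  · rintro y z ⟨ξ, η, h, rfl, rfl⟩ hy hz
    rw [hκ ξ hy, hκ η hz]
    exact hU _ _ (h.smul v)

end Whitehead

end Pool.Agent.H82.SR
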