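import Pool.Agent.H82.SR.Boundary

set_option autoImplicit false

/-!
# Reduced words: prefixes, norms, first letters
-/

namespace Pool.Agent.H82.SR

open Filter Topology

variable {N : ℕ}

/-- abbreviation for the free group of rank `N` -/
abbrev F (N : ℕ) := FreeGroup (Fin N)

lemma toWord_reduced (g : F N) : FreeGroup.IsReduced g.toWord := FreeGroup.isReduced_toWord

lemma toWord_mk_of_reduced {l : List (Fin N × Bool)} (h : FreeGroup.IsReduced l) :
    (FreeGroup.mk l).toWord = l := by
  rw [FreeGroup.toWord_mk, h.reduce_eq]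

lemma norm_mk_of_reduced {l : List (Fin N × Bool)} (h : FreeGroup.IsReduced l) :
    (FreeGroup.mk l).norm = l.length := by
  rw [FreeGroup.norm, toWord_mk_of_reduced h]

/-- multiplication by a letter on reduced words -/
lemma toWord_letter_mul (x : Fin N × Bool) (g : F N) :
    (FreeGroup.mk [x] * g).toWord =
      if g.toWord.head? = some (bar x) then g.toWord.tail else x :: g.toWord := by
  rw [FreeGroup.toWord_mul, FreeGroup.toWord_mk]
  have h1 : FreeGroup.reduce [x] = [x] := rfl
  rw [h1, List.singleton_append, FreeGroup.reduce.cons, FreeGroup.reduce_toWord]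
  cases h : g.toWord with
  | nil => simp
  | cons y t =>
    simp only [List.head?_cons, Option.some.injEq, List.tail_cons]
    by_cases h2 : y = bar x
    · subst h2
      simp
    · rw [if_neg h2, if_neg]
      rintro ⟨h3, h4⟩
      apply h2
      apply Prod.ext
      · exact h3.symm
      · simp [h4]

lemma norm_letter (x : Fin N × Bool) : (FreeGroup.mk [x] : F N).norm = 1 := by
  rw [norm_mk_of_reduced (by simp)]; rfl

lemma letter_inv (x : Fin N × Bool) : (FreeGroup.mk [x] : F N)⁻¹ = FreeGroup.mk [bar x] := by
  rw [FreeGroup.inv_mk]; rfl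

lemma letter_mul_bar (x : Fin N × Bool) : (FreeGroup.mk [x] : F N) * FreeGroup.mk [bar x] = 1 := by
  rw [← letter_inv, mul_inv_cancel]

lemma bar_mul_letter (x : Fin N × Bool) : (FreeGroup.mk [bar x] : F N) * FreeGroup.mk [x] = 1 := by
  rw [← letter_inv, inv_mul_cancel]

/-- `g` starts with the letter `x`. -/
def SW (g : F N) (x : Fin N × Bool) : Prop := g.toWord.head? = some x

lemma sw_ne_one {g : F N} {x : Fin N × Bool} (h : SW g x) : g ≠ 1 := by
  rintro rfl
  simp [SW] at h

lemma sw_unique {g : F N} {x y : Fin N × Bool} (h : SW g x) (h' : SW g y) : x = y := by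
  unfold SW at h h'
  rw [h] at h'
  exact Option.some.inj h'

lemma exists_sw {g : F N} (h : g ≠ 1) : ∃ x, SW g x := by
  cases hg : g.toWord with
  | nil => exact absurd (FreeGroup.toWord_eq_nil_iff.1 hg) h
  | cons x t => exact ⟨x, by simp [SW, hg]⟩

lemma toWord_letter_mul_of_not_sw {x : Fin N × Bool} {g : F N} (h : ¬ SW g (bar x)) :
    (FreeGroup.mk [x] * g).toWord = x :: g.toWord := by
  unfold SW at h
  rw [toWord_letter_mul, if_neg h]

lemma sw_letter_mul {x : Fin N × Bool} {g : F N} (h : ¬ SW g (bar x)) :
    SW (FreeGroup.mk [x] * g) x := by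
  simp [SW, toWord_letter_mul_of_not_sw h]

lemma norm_letter_mul_of_not_sw {x : Fin N × Bool} {g : F N} (h : ¬ SW g (bar x)) :
    (FreeGroup.mk [x] * g).norm = g.norm + 1 := by
  simp [FreeGroup.norm, toWord_letter_mul_of_not_sw h]

/-- decomposition of an element starting with `x` -/
lemma exists_eq_letter_mul {g : F N} {x : Fin N × Bool} (h : SW g x) :
    ∃ g', g = FreeGroup.mk [x] * g' ∧ ¬ SW g' (bar x) ∧ g'.norm + 1 = g.norm := by
  refine ⟨FreeGroup.mk [bar x] * g, ?_, ?_, ?_⟩
  · rw [← mul_assoc, letter_mul_bar, one_mul]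
  · unfold SW at h ⊢
    rw [toWord_letter_mul, bar_bar, if_pos h]
    have hr := toWord_reduced g
    rw [isReduced_iff] at hr
    cases hg : g.toWord with
    | nil => simp
    | cons y t =>
      rw [hg] at h hr
      simp only [List.head?_cons, Option.some.injEq] at h
      subst h
      cases t with
      | nil => simp
      | cons z t =>
        simp only [List.tail_cons, List.head?_cons, Option.some.injEq]
        rw [List.isChain_cons_cons] at hr
        exact hr.1
  · unfold SW at h
    rw [FreeGroup.norm, toWord_letter_mul, bar_bar, if_pos h, FreeGroup.norm]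
    cases hg : g.toWord with
    | nil => rw [hg] at h; simp at h
    | cons y t => simp

/-- Norm of a product when the two reduced words do not start with the same letter. -/
lemma isReduced_invRev_append {l₁ l₂ : List (Fin N × Bool)} (h₁ : FreeGroup.IsReduced l₁)
    (h₂ : FreeGroup.IsReduced l₂) (h : ∀ x, l₁.head? = some x → l₂.head? ≠ some x) :
    FreeGroup.IsReduced (FreeGroup.invRev l₁ ++ l₂) := by
  have h₁' : FreeGroup.IsReduced (FreeGroup.invRev l₁) := by
    have : (FreeGroup.mk l₁)⁻¹.toWord = FreeGroup.invRev l₁ := by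
      rw [FreeGroup.toWord_inv, toWord_mk_of_reduced h₁]
    rw [← this]; exact toWord_reduced _
  rw [isReduced_iff] at h₁' h₂ ⊢
  rw [List.isChain_append]
  refine ⟨h₁', h₂, ?_⟩
  intro x hx y hy
  cases l₁ with
  | nil => simp at hx
  | cons a t =>
    have hx' : x = bar a := by
      simp only [FreeGroup.invRev, List.map_cons, List.reverse_cons, Option.mem_def] at hx
      rw [List.getLast?_append] at hx
      simp only [List.getLast?_singleton, Option.some_or, Option.some.injEq] at hx
      rw [← hx]; rfl
    subst hx'
    rw [bar_bar]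
    rintro rfl
    exact h y (by simp) hy

lemma norm_inv_mul_of_disjoint {g h : F N} (hd : ∀ x, SW g x → ¬ SW h x) :
    (g⁻¹ * h).norm = g.norm + h.norm := by
  have h1 : FreeGroup.IsReduced (FreeGroup.invRev g.toWord ++ h.toWord) :=
    isReduced_invRev_append (toWord_reduced g) (toWord_reduced h) hd
  have h2 : g⁻¹ * h = FreeGroup.mk (FreeGroup.invRev g.toWord ++ h.toWord) := by
    rw [← FreeGroup.mul_mk, ← FreeGroup.inv_mk, FreeGroup.mk_toWord, FreeGroup.mk_toWord]
  rw [h2, norm_mk_of_reduced h1]
  simp [FreeGroup.norm, FreeGroup.invRev_length]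

/-- If two reduced words differ within the first `k` letters then the distance is large. -/
lemma take_eq_aux (k : ℕ) (l₁ l₂ : List (Fin N × Bool)) (h₁ : FreeGroup.IsReduced l₁)
    (h₂ : FreeGroup.IsReduced l₂) (h : l₁.take k ≠ l₂.take k) :
    l₁.length + 1 ≤ k + ((FreeGroup.mk l₁ : F N)⁻¹ * FreeGroup.mk l₂).norm := by
  induction k generalizing l₁ l₂ with
  | zero => simp at h
  | succ k ih =>
    by_cases hd : ∀ x, l₁.head? = some x → l₂.head? ≠ some x
    · have := norm_inv_mul_of_disjoint (g := FreeGroup.mk l₁) (h := FreeGroup.mk l₂) (by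
        intro x hx hx'
        unfold SW at hx hx'
        rw [toWord_mk_of_reduced h₁] at hx
        rw [toWord_mk_of_reduced h₂] at hx'
        exact hd x hx hx')
      rw [this, norm_mk_of_reduced h₁]
      omega
    · push Not at hd
      obtain ⟨x, hx1, hx2⟩ := hd
      cases l₁ with
      | nil => simp at hx1
      | cons a t₁ =>
        cases l₂ with
        | nil => simp at hx2
        | cons b t₂ =>
          simp only [List.head?_cons, Option.some.injEq] at hx1 hx2
          subst hx1
          subst hx2
          have h₁' : FreeGroup.IsReduced t₁ := by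
            rw [isReduced_iff] at h₁ ⊢
            exact h₁.tail
          have h₂' : FreeGroup.IsReduced t₂ := by
            rw [isReduced_iff] at h₂ ⊢
            exact h₂.tail
          have h3 : t₁.take k ≠ t₂.take k := by
            intro h4
            apply h
            simp [h4]
          have h5 := ih t₁ t₂ h₁' h₂' h3
          have h6 : (FreeGroup.mk (b :: t₁) : F N)⁻¹ * FreeGroup.mk (b :: t₂) =
              (FreeGroup.mk t₁ : F N)⁻¹ * FreeGroup.mk t₂ := by
            have e1 : (FreeGroup.mk (b :: t₁) : F N) = FreeGroup.mk [b] * FreeGroup.mk t₁ := by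
              simp
            have e2 : (FreeGroup.mk (b :: t₂) : F N) = FreeGroup.mk [b] * FreeGroup.mk t₂ := by
              simp
            rw [e1, e2]
            group
          rw [h6]
          simp only [List.length_cons]
          omega

lemma take_eq_of_norm {k : ℕ} {g h : F N} (hk : k + (g⁻¹ * h).norm ≤ g.norm) :
    g.toWord.take k = h.toWord.take k := by
  by_contra hc
  have := take_eq_aux k g.toWord h.toWord (toWord_reduced g) (toWord_reduced h) hc
  rw [FreeGroup.mk_toWord, FreeGroup.mk_toWord] at this
  have h2 : g.toWord.length = g.norm := rfl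
  omega

/-- Lipschitz bound for homomorphisms. -/
lemma norm_map_le {M : ℕ} (f : F N →* F M) (K : ℕ) (hK : ∀ x : Fin N, (f (FreeGroup.of x)).norm ≤ K)
    (g : F N) : (f g).norm ≤ K * g.norm := by
  have key : ∀ l : List (Fin N × Bool), (f (FreeGroup.mk l)).norm ≤ K * l.length := by
    intro l
    induction l with
    | nil =>
      have : (FreeGroup.mk ([] : List (Fin N × Bool)) : F N) = 1 := rfl
      rw [this, map_one]; simp
    | cons x l ih =>
      have e1 : (FreeGroup.mk (x :: l) : F N) = FreeGroup.mk [x] * FreeGroup.mk l := by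
        simp
      rw [e1, map_mul]
      refine le_trans (FreeGroup.norm_mul_le _ _) ?_
      have h1 : (f (FreeGroup.mk [x])).norm ≤ K := by
        obtain ⟨i, b⟩ := x
        cases b
        · have : (FreeGroup.mk [(i, false)] : F N) = (FreeGroup.of i)⁻¹ := rfl
          rw [this, map_inv, FreeGroup.norm_inv_eq]
          exact hK i
        · exact hK i
      simp only [List.length_cons]
      nlinarith
  have := key g.toWord
  rwa [FreeGroup.mk_toWord] at this

/-- A common Lipschitz constant for an automorphism and its inverse. -/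
lemma exists_lipschitz (θ : F N ≃* F N) : ∃ K : ℕ, 1 ≤ K ∧ (∀ g, (θ g).norm ≤ K * g.norm) ∧
    (∀ g, g.norm ≤ K * (θ g).norm) := by
  let K : ℕ := 1 + (∑ i : Fin N, (θ (FreeGroup.of i)).norm) +
    (∑ i : Fin N, (θ.symm (FreeGroup.of i)).norm)
  refine ⟨K, by omega, ?_, ?_⟩
  · intro g
    refine norm_map_le θ.toMonoidHom K ?_ g
    intro x
    have : (θ (FreeGroup.of x)).norm ≤ ∑ i : Fin N, (θ (FreeGroup.of i)).norm :=
      Finset.single_le_sum (f := fun i : Fin N => (θ (FreeGroup.of i)).norm)
        (fun i _ => Nat.zero_le _) (Finset.mem_univ x)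
    change (θ (FreeGroup.of x)).norm ≤ K
    omega
  · intro g
    have h := norm_map_le θ.symm.toMonoidHom K (by
      intro x
      have : (θ.symm (FreeGroup.of x)).norm ≤ ∑ i : Fin N, (θ.symm (FreeGroup.of i)).norm :=
        Finset.single_le_sum (f := fun i : Fin N => (θ.symm (FreeGroup.of i)).norm)
          (fun i _ => Nat.zero_le _) (Finset.mem_univ x)
      change (θ.symm (FreeGroup.of x)).norm ≤ K
      omega) (θ g)
    simpa using h

end Pool.Agent.H82.SR
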